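import Pool.Agent.Helper794.Modes.Core

set_option linter.unusedSectionVars false

open Finset

namespace Pool.Agent.Helper794.Modes

variable {V : Type*} [NormedAddCommGroup V] [NormedSpace ℝ V]
  {ι : Type*} [Fintype ι] [DecidableEq ι] {J : Type*} [Fintype J] [DecidableEq J]

/-- the functionals owned by component `i` -/
def own_set (own : J → ι) (i : ι) : Finset J := univ.filter (fun j => own j = i)

/-- quadratic exponent of component `i` -/
noncomputable def qf (own : J → ι) (lam : J → ℝ) (Y : J → V → ℝ) (i : ι) (x : V) : ℝ :=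
  ∑ j ∈ own_set own i, lam j * (Y j x) ^ 2 / 2

noncomputable def Df (own : J → ι) (lam : J → ℝ) (Y : J → V → ℝ) (l : J → V →ₗ[ℝ] ℝ)
    (i : ι) (x v : V) : ℝ :=
  ∑ j ∈ own_set own i, lam j * Y j x * l j v

noncomputable def Cf (own : J → ι) (lam : J → ℝ) (l : J → V →ₗ[ℝ] ℝ) (i : ι) (v : V) : ℝ :=
  ∑ j ∈ own_set own i, lam j * (l j v) ^ 2

lemma qf_line (own : J → ι) (lam : J → ℝ) (Y : J → V → ℝ) (l : J → V →ₗ[ℝ] ℝ)
    (hY : ∀ j x v, Y j (x + v) = Y j x + l j v) (i : ι) (x v : V) (s : ℝ) :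
    qf own lam Y i (x + s • v)
      = qf own lam Y i x + s * Df own lam Y l i x v + s ^ 2 / 2 * Cf own lam l i v := by
  unfold qf Df Cf
  rw [Finset.mul_sum, Finset.mul_sum, ← Finset.sum_add_distrib, ← Finset.sum_add_distrib]
  refine Finset.sum_congr rfl ?_
  intro j _
  rw [hY, map_smul, smul_eq_mul]
  ring

lemma Df_line (own : J → ι) (lam : J → ℝ) (Y : J → V → ℝ) (l : J → V →ₗ[ℝ] ℝ)
    (hY : ∀ j x v, Y j (x + v) = Y j x + l j v) (i : ι) (x v : V) (s : ℝ) :
    Df own lam Y l i (x + s • v) v = Df own lam Y l i x v + s * Cf own lam l i v := by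
  unfold Df Cf
  rw [Finset.mul_sum, ← Finset.sum_add_distrib]
  refine Finset.sum_congr rfl ?_
  intro j _
  rw [hY, map_smul, smul_eq_mul]
  ring

lemma qf_cont (own : J → ι) (lam : J → ℝ) (Y : J → V → ℝ) (hYc : ∀ j, Continuous (Y j)) (i : ι) :
    Continuous (qf own lam Y i) := by
  unfold qf
  refine continuous_finsetSum _ (fun j _ => ?_)
  exact ((continuous_const.mul ((hYc j).pow 2)).div_const 2)

/-- box around `p` -/
def Box (Y : J → V → ℝ) (H : Finset J) (r : J → ℝ) : Set V := {x | ∀ n ∈ H, |Y n x| ≤ r n}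

/-- total weight of the tail of component `i` -/
noncomputable def Sf (own : J → ι) (lam : J → ℝ) (H : Finset J) (i : ι) : ℝ :=
  ∑ j ∈ own_set own i \ H, lam j

section
variable (own : J → ι) (lam : J → ℝ) (Y : J → V → ℝ) (l : J → V →ₗ[ℝ] ℝ)
  (H : Finset J) (e : J → V) (r : J → ℝ) (ρ M M' K0 : ℝ)

lemma l_bound (hspan : ∀ v, v = ∑ n ∈ H, l n v • e n)
    (hMb : ∀ j, j ∉ H → ∀ n ∈ H, |l j (e n)| ≤ M) (j : J) (hj : j ∉ H) (v : V) :
    |l j v| ≤ M * ∑ n ∈ H, |l n v| := by
  have h : l j v = ∑ n ∈ H, l n v * l j (e n) := by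
    conv_lhs => rw [hspan v]
    rw [map_sum]
    refine Finset.sum_congr rfl ?_
    intro n _
    rw [map_smul, smul_eq_mul]
  rw [h, Finset.mul_sum]
  refine (Finset.abs_sum_le_sum_abs _ _).trans (Finset.sum_le_sum ?_)
  intro n hn
  rw [abs_mul, mul_comm]
  exact mul_le_mul_of_nonneg_right (hMb j hj n hn) (abs_nonneg _)

lemma D_bound (hlam : ∀ j, 0 ≤ lam j) (hspan : ∀ v, v = ∑ n ∈ H, l n v • e n)
    (hM : 0 ≤ M) (hM' : 0 ≤ M')
    (hMb : ∀ j, j ∉ H → ∀ n ∈ H, |l j (e n)| ≤ M)
    (hM'b : ∀ x ∈ Box Y H r, ∀ j, j ∉ H → |Y j x| ≤ M')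
    (hlr : ∀ n ∈ H, lam n * (r n) ^ 2 = ρ ^ 2) (hcard : 4 * (H.card : ℝ) * ρ ^ 2 ≤ 1)
    (i : ι) (z v : V) (hz : z ∈ Box Y H r) :
    (Df own lam Y l i z v) ^ 2 - Cf own lam l i v
      ≤ -(1/2) * (∑ j ∈ own_set own i ∩ H, lam j * (l j v) ^ 2)
        + 2 * (M' ^ 2 * M ^ 2 * H.card * (∑ n ∈ H, (l n v) ^ 2)) * (Sf own lam H i) ^ 2 := by
  set A := ∑ j ∈ own_set own i ∩ H, lam j * (l j v) ^ 2 with hA
  set P := ∑ j ∈ own_set own i ∩ H, lam j * Y j z * l j v with hP
  set R := ∑ j ∈ own_set own i \ H, lam j * Y j z * l j v with hR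
  have hD : Df own lam Y l i z v = P + R := by
    unfold Df
    rw [hP, hR]
    exact (Finset.sum_inter_add_sum_sdiff _ _ _).symm
  have hA0 : 0 ≤ A := Finset.sum_nonneg (fun j _ => mul_nonneg (hlam j) (sq_nonneg _))
  have hC : A ≤ Cf own lam l i v := by
    unfold Cf
    exact Finset.sum_le_sum_of_subset_of_nonneg Finset.inter_subset_left
      (fun j _ _ => mul_nonneg (hlam j) (sq_nonneg _))
  have hP2 : P ^ 2 ≤ 1/4 * A := by
    have h1 : P ^ 2 ≤ (∑ j ∈ own_set own i ∩ H, lam j * (Y j z) ^ 2) * A := by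
      apply Finset.sum_sq_le_sum_mul_sum_of_sq_le_mul
      · intro j _; exact mul_nonneg (hlam j) (sq_nonneg _)
      · intro j _; exact mul_nonneg (hlam j) (sq_nonneg _)
      · intro j _; exact le_of_eq (by ring)
    have h2 : (∑ j ∈ own_set own i ∩ H, lam j * (Y j z) ^ 2) ≤ 1/4 := by
      calc (∑ j ∈ own_set own i ∩ H, lam j * (Y j z) ^ 2)
          ≤ ∑ j ∈ H, lam j * (Y j z) ^ 2 :=
            Finset.sum_le_sum_of_subset_of_nonneg Finset.inter_subset_right
              (fun j _ _ => mul_nonneg (hlam j) (sq_nonneg _))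
        _ ≤ ∑ j ∈ H, ρ ^ 2 := by
            refine Finset.sum_le_sum ?_
            intro j hj
            rw [← hlr j hj]
            refine mul_le_mul_of_nonneg_left ?_ (hlam j)
            rw [← sq_abs]
            exact pow_le_pow_left₀ (abs_nonneg _) (hz j hj) 2
        _ = (H.card : ℝ) * ρ ^ 2 := by rw [Finset.sum_const, nsmul_eq_mul]
        _ ≤ 1/4 := by linarith
    exact h1.trans (mul_le_mul_of_nonneg_right h2 hA0)
  set W := ∑ n ∈ H, |l n v| with hW
  have hW0 : 0 ≤ W := Finset.sum_nonneg (fun j _ => abs_nonneg _)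
  have hS0 : 0 ≤ Sf own lam H i := Finset.sum_nonneg (fun j _ => hlam j)
  have hRabs : |R| ≤ Sf own lam H i * (M' * (M * W)) := by
    rw [hR]
    unfold Sf
    rw [Finset.sum_mul]
    refine (Finset.abs_sum_le_sum_abs _ _).trans (Finset.sum_le_sum ?_)
    intro j hj
    have hjH : j ∉ H := (Finset.mem_sdiff.mp hj).2
    rw [abs_mul, abs_mul, abs_of_nonneg (hlam j), mul_assoc]
    refine mul_le_mul_of_nonneg_left ?_ (hlam j)
    exact mul_le_mul (hM'b z hz j hjH) (l_bound l H e M hspan hMb j hjH v) (abs_nonneg _) hM'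
  have hW2 : W ^ 2 ≤ H.card * ∑ n ∈ H, (l n v) ^ 2 := by
    have := sq_sum_le_card_mul_sum_sq (s := H) (f := fun n => |l n v|)
    simpa [sq_abs] using this
  have hR2 : R ^ 2 ≤ (M' ^ 2 * M ^ 2 * H.card * (∑ n ∈ H, (l n v) ^ 2)) * (Sf own lam H i) ^ 2 := by
    have h1 : R ^ 2 ≤ (Sf own lam H i * (M' * (M * W))) ^ 2 := by
      rw [← sq_abs]; exact pow_le_pow_left₀ (abs_nonneg _) hRabs 2
    refine h1.trans ?_
    have h2 : (Sf own lam H i * (M' * (M * W))) ^ 2
        = (Sf own lam H i) ^ 2 * (M' ^ 2 * M ^ 2) * W ^ 2 := by ring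
    rw [h2]
    have h3 : (Sf own lam H i) ^ 2 * (M' ^ 2 * M ^ 2) * W ^ 2
        ≤ (Sf own lam H i) ^ 2 * (M' ^ 2 * M ^ 2) * (H.card * ∑ n ∈ H, (l n v) ^ 2) :=
      mul_le_mul_of_nonneg_left hW2 (by positivity)
    refine h3.trans (le_of_eq ?_)
    ring
  rw [hD]
  have h4 : (P + R) ^ 2 ≤ 2 * P ^ 2 + 2 * R ^ 2 := by nlinarith [sq_nonneg (P - R)]
  nlinarith [h4, hP2, hR2, hC]

/-- change of the tail part of the exponent when coordinate `n` is reset to `0` -/
lemma reset_bound (hlam : ∀ j, 0 ≤ lam j) (hY : ∀ j x v, Y j (x + v) = Y j x + l j v)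
    (hdual : ∀ n ∈ H, ∀ n' ∈ H, l n (e n') = if n = n' then 1 else 0)
    (hM : 0 ≤ M) (hM' : 0 ≤ M')
    (hMb : ∀ j, j ∉ H → ∀ n ∈ H, |l j (e n)| ≤ M)
    (hM'b : ∀ x ∈ Box Y H r, ∀ j, j ∉ H → |Y j x| ≤ M')
    (hr : ∀ n ∈ H, 0 < r n)
    (x : V) (hx : x ∈ Box Y H r) (n : J) (hn : n ∈ H) :
    x + (-(Y n x)) • e n ∈ Box Y H r ∧
    ∀ i, qf own lam Y i (x + (-(Y n x)) • e n)
      ≤ qf own lam Y i x - (if own n = i then lam n * (Y n x) ^ 2 / 2 else 0)
        + Sf own lam H i * (M' * M * r n) := by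
  set x' := x + (-(Y n x)) • e n with hx'
  have hYn : ∀ m ∈ H, Y m x' = if m = n then 0 else Y m x := by
    intro m hm
    rw [hx', hY, map_smul, hdual m hm n hn, smul_eq_mul]
    split_ifs with h
    · rw [h]; ring
    · ring
  have hx'B : x' ∈ Box Y H r := by
    intro m hm
    rw [hYn m hm]
    split_ifs with h
    · rw [abs_zero]; exact (hr m hm).le
    · exact hx m hm
  refine ⟨hx'B, ?_⟩
  intro i
  unfold qf Sf
  rw [← Finset.sum_inter_add_sum_sdiff (own_set own i) H,
    ← Finset.sum_inter_add_sum_sdiff (own_set own i) H (fun j => lam j * (Y j x) ^ 2 / 2)]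
  have h1 : ∑ j ∈ own_set own i ∩ H, lam j * (Y j x') ^ 2 / 2
      = ∑ j ∈ own_set own i ∩ H, lam j * (Y j x) ^ 2 / 2
        - (if own n = i then lam n * (Y n x) ^ 2 / 2 else 0) := by
    have h2 : (if own n = i then lam n * (Y n x) ^ 2 / 2 else 0)
        = ∑ j ∈ own_set own i ∩ H, if j = n then lam j * (Y j x) ^ 2 / 2 else 0 := by
      rw [Finset.sum_ite_eq']
      simp only [own_set, Finset.mem_inter, Finset.mem_filter, Finset.mem_univ, true_and, hn,
        and_true]
    rw [h2, ← Finset.sum_sub_distrib]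
    refine Finset.sum_congr rfl ?_
    intro j hj
    rw [hYn j (Finset.mem_inter.mp hj).2]
    split_ifs with h
    · ring
    · ring
  have h3 : ∑ j ∈ own_set own i \ H, lam j * (Y j x') ^ 2 / 2
      ≤ ∑ j ∈ own_set own i \ H, lam j * (Y j x) ^ 2 / 2
        + (∑ j ∈ own_set own i \ H, lam j) * (M' * M * r n) := by
    rw [Finset.sum_mul, ← Finset.sum_add_distrib]
    refine Finset.sum_le_sum ?_
    intro j hj
    have hjH : j ∉ H := (Finset.mem_sdiff.mp hj).2
    have ha : Y j x' - Y j x = -(Y n x) * l j (e n) := by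
      rw [hx', hY, map_smul, smul_eq_mul]; ring
    have hb : |Y j x' - Y j x| ≤ M * r n := by
      rw [ha, abs_mul, abs_neg, mul_comm]
      exact mul_le_mul (hMb j hjH n hn) (hx n hn) (abs_nonneg _) hM
    have hc : |Y j x' + Y j x| ≤ 2 * M' := by
      refine (abs_add_le _ _).trans ?_
      have := hM'b x hx j hjH
      have := hM'b x' hx'B j hjH
      linarith
    have hd : (Y j x') ^ 2 - (Y j x) ^ 2 ≤ 2 * (M' * M * r n) := by
      have : (Y j x') ^ 2 - (Y j x) ^ 2 = (Y j x' - Y j x) * (Y j x' + Y j x) := by ring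
      rw [this]
      refine (le_abs_self _).trans ?_
      rw [abs_mul]
      calc |Y j x' - Y j x| * |Y j x' + Y j x| ≤ (M * r n) * (2 * M') :=
            mul_le_mul hb hc (abs_nonneg _) (mul_nonneg hM (hr n hn).le)
        _ = 2 * (M' * M * r n) := by ring
    have := mul_le_mul_of_nonneg_left hd (hlam j)
    nlinarith [this]
  rw [h1]
  linarith [h3]

/-- Existence of a strict local maximum in the box. -/
theorem AL (hlam : ∀ j, 0 ≤ lam j) (hY : ∀ j x v, Y j (x + v) = Y j x + l j v)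
    (hYc : ∀ j, Continuous (Y j))
    (hdual : ∀ n ∈ H, ∀ n' ∈ H, l n (e n') = if n = n' then 1 else 0)
    (hspan : ∀ v, v = ∑ n ∈ H, l n v • e n)
    (p : V) (hp : ∀ n ∈ H, Y n p = 0)
    (hM : 0 ≤ M) (hM' : 0 ≤ M') (hK0 : 0 ≤ K0)
    (hMb : ∀ j, j ∉ H → ∀ n ∈ H, |l j (e n)| ≤ M)
    (hM'b : ∀ x ∈ Box Y H r, ∀ j, j ∉ H → |Y j x| ≤ M')
    (hr : ∀ n ∈ H, 0 < r n)
    (hlr : ∀ n ∈ H, lam n * (r n) ^ 2 = ρ ^ 2) (hcard : 4 * (H.card : ℝ) * ρ ^ 2 ≤ 1)
    (hK1 : ∀ x ∈ Box Y H r, ∀ i, Real.exp (-(qf own lam Y i x)) * Sf own lam H i ≤ K0)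
    (hK2 : ∀ x ∈ Box Y H r, ∀ i, Real.exp (-(qf own lam Y i x)) * (Sf own lam H i) ^ 2 ≤ K0)
    (hG1 : ∀ n ∈ H, ∀ x ∈ Box Y H r,
      Fintype.card ι * (K0 * (M' * M * r n)) < Real.exp (-(qf own lam Y (own n) x)) * (ρ ^ 2 / 2))
    (hG2 : ∀ n ∈ H, ∀ x ∈ Box Y H r,
      4 * (M' ^ 2 * M ^ 2 * H.card) * (Fintype.card ι * K0)
        < Real.exp (-(qf own lam Y (own n) x)) * lam n) :
    ∃ x, (∀ n ∈ H, |Y n x| < r n) ∧ ∀ y ∈ Box Y H r, y ≠ x →
      ∑ i, Real.exp (-(qf own lam Y i y)) < ∑ i, Real.exp (-(qf own lam Y i x)) := by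
  -- compactness
  have hBeq : Box Y H r = (fun y : J → ℝ => p + ∑ n ∈ H, y n • e n) ''
      (Set.Icc (fun n => - |r n|) (fun n => |r n|)) := by
    ext x
    constructor
    · intro hx
      refine ⟨fun n => if n ∈ H then Y n x else 0, ?_, ?_⟩
      · refine ⟨fun n => ?_, fun n => ?_⟩
        · show - |r n| ≤ if n ∈ H then Y n x else 0
          split_ifs with h
          · exact (neg_le_neg ((hx n h).trans (le_abs_self _))).trans (neg_abs_le _)
          · simp
        · show (if n ∈ H then Y n x else 0) ≤ |r n|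
          split_ifs with h
          · exact (le_abs_self _).trans ((hx n h).trans (le_abs_self _))
          · simp
      · have h1 : ∀ n ∈ H, Y n x = l n (x - p) := by
          intro n hn
          have := hY n p (x - p)
          rw [hp n hn, zero_add, add_sub_cancel] at this
          exact this
        show p + ∑ n ∈ H, (if n ∈ H then Y n x else 0) • e n = x
        have h2 : ∑ n ∈ H, (if n ∈ H then Y n x else 0) • e n = x - p := by
          conv_rhs => rw [hspan (x - p)]
          refine Finset.sum_congr rfl ?_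
          intro n hn
          rw [if_pos hn, h1 n hn]
        rw [h2]; abel
    · rintro ⟨y, hy, rfl⟩
      intro n hn
      show |Y n (p + ∑ m ∈ H, y m • e m)| ≤ r n
      rw [hY, hp n hn, zero_add, map_sum]
      have h3 : ∑ m ∈ H, l n (y m • e m) = y n := by
        rw [Finset.sum_eq_single n]
        · rw [map_smul, hdual n hn n hn, if_pos rfl, smul_eq_mul, mul_one]
        · intro m hm hmn
          rw [map_smul, hdual n hn m hm, if_neg (Ne.symm hmn), smul_zero]
        · intro h; exact absurd hn h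
      rw [h3, abs_le]
      have h4 := hy.1 n
      have h5 := hy.2 n
      simp only [abs_of_pos (hr n hn)] at h4 h5
      exact ⟨h4, h5⟩
  have hcomp : IsCompact (Box Y H r) := by
    rw [hBeq]
    refine isCompact_Icc.image ?_
    refine continuous_const.add (continuous_finsetSum _ (fun n _ => ?_))
    exact (continuous_apply n).smul continuous_const
  have hconv : Convex ℝ (Box Y H r) := by
    intro x hx y hy a b ha hb hab n hn
    have h1 : Y n (a • x + b • y) = a * Y n x + b * Y n y := by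
      have e1 : Y n x = l n (x - p) := by
        have := hY n p (x - p)
        rw [hp n hn, zero_add, add_sub_cancel] at this
        exact this
      have e2 : Y n y = l n (y - p) := by
        have := hY n p (y - p)
        rw [hp n hn, zero_add, add_sub_cancel] at this
        exact this
      have e3 : Y n (a • x + b • y) = l n (a • x + b • y - p) := by
        have := hY n p (a • x + b • y - p)
        rw [hp n hn, zero_add, add_sub_cancel] at this
        exact this
      have e4 : a • x + b • y - p = a • (x - p) + b • (y - p) := by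
        have : p = a • p + b • p := by rw [← add_smul, hab, one_smul]
        nth_rewrite 1 [this]
        module
      rw [e1, e2, e3, e4, map_add, map_smul, map_smul, smul_eq_mul, smul_eq_mul]
    rw [h1]
    refine (abs_add_le _ _).trans ?_
    rw [abs_mul, abs_mul, abs_of_nonneg ha, abs_of_nonneg hb]
    have h2 := mul_le_mul_of_nonneg_left (hx n hn) ha
    have h3 := mul_le_mul_of_nonneg_left (hy n hn) hb
    have h4 : r n = a * r n + b * r n := by rw [← add_mul, hab, one_mul]
    linarith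
  have hpB : p ∈ Box Y H r := by
    intro n hn; rw [hp n hn, abs_zero]; exact (hr n hn).le
  have hS0 : ∀ i, 0 ≤ Sf own lam H i := fun i => Finset.sum_nonneg (fun j _ => hlam j)
  have key := core (fun i => qf own lam Y i) (fun i => Df own lam Y l i)
    (fun i => Cf own lam l i) (fun i x v s => qf_line own lam Y l hY i x v s)
    (fun i x v s => Df_line own lam Y l hY i x v s) (fun i => qf_cont own lam Y hYc i)
    (Box Y H r) {x | ∀ n ∈ H, |Y n x| < r n} hcomp hconv ⟨p, hpB⟩ ?_ ?_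
  · obtain ⟨x, _, hxU, hmax⟩ := key
    exact ⟨x, hxU, hmax⟩
  · -- negativity of the second derivative
    intro z hz v hv
    set Q := ∑ n ∈ H, (l n v) ^ 2 with hQ
    have hterm : ∀ i, Real.exp (-(qf own lam Y i z)) * ((Df own lam Y l i z v) ^ 2 - Cf own lam l i v)
        ≤ -(1/2) * (Real.exp (-(qf own lam Y i z)) * ∑ j ∈ own_set own i ∩ H, lam j * (l j v) ^ 2)
          + 2 * (M' ^ 2 * M ^ 2 * H.card * Q) * K0 := by
      intro i
      have h1 := D_bound own lam Y l H e r ρ M M' hlam hspan hM hM' hMb hM'b hlr hcard i z v hz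
      have h2 := mul_le_mul_of_nonneg_left h1 (Real.exp_pos (-(qf own lam Y i z))).le
      refine h2.trans ?_
      have hQ0 : 0 ≤ M' ^ 2 * M ^ 2 * H.card * Q := by
        have hQn : 0 ≤ Q := Finset.sum_nonneg (fun j _ => sq_nonneg _)
        exact mul_nonneg (mul_nonneg (mul_nonneg (sq_nonneg _) (sq_nonneg _))
          (Nat.cast_nonneg _)) hQn
      have h3 := mul_le_mul_of_nonneg_left (hK2 z hz i) (mul_nonneg (by norm_num : (0:ℝ) ≤ 2) hQ0)
      nlinarith [h3]
    have hsum := Finset.sum_le_sum (fun i (_ : i ∈ (Finset.univ : Finset ι)) => hterm i)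
    refine lt_of_le_of_lt hsum ?_
    rw [Finset.sum_add_distrib, ← Finset.mul_sum, Finset.sum_const, Finset.card_univ, nsmul_eq_mul]
    have hre : ∑ i, Real.exp (-(qf own lam Y i z)) * ∑ j ∈ own_set own i ∩ H, lam j * (l j v) ^ 2
        = ∑ n ∈ H, Real.exp (-(qf own lam Y (own n) z)) * (lam n * (l n v) ^ 2) := by
      rw [← Finset.sum_fiberwise (s := H) (g := own)]
      refine Finset.sum_congr rfl ?_
      intro i _
      rw [Finset.mul_sum]
      have : own_set own i ∩ H = H.filter (fun j => own j = i) := by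
        ext j
        simp only [own_set, Finset.mem_inter, Finset.mem_filter, Finset.mem_univ, true_and]
        exact and_comm
      rw [this]
      refine Finset.sum_congr rfl ?_
      intro j hj
      rw [(Finset.mem_filter.mp hj).2]
    rw [hre]
    have hQe : (Fintype.card ι : ℝ) * (2 * (M' ^ 2 * M ^ 2 * H.card * Q) * K0)
        = ∑ n ∈ H, (l n v) ^ 2 * (2 * (M' ^ 2 * M ^ 2 * H.card) * (Fintype.card ι * K0)) := by
      rw [← Finset.sum_mul]; ring
    rw [hQe, Finset.mul_sum, ← Finset.sum_add_distrib]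
    have hex : ∃ n ∈ H, l n v ≠ 0 := by
      by_contra hcon
      push Not at hcon
      apply hv
      rw [hspan v]
      refine Finset.sum_eq_zero ?_
      intro n hn
      rw [hcon n hn, zero_smul]
    obtain ⟨n0, hn0, hne⟩ := hex
    refine Finset.sum_neg' ?_ ⟨n0, hn0, ?_⟩
    · intro n hn
      have h1 := hG2 n hn z hz
      nlinarith [mul_nonneg (sq_nonneg (l n v)) (sub_pos.mpr h1).le]
    · have h1 := hG2 n0 hn0 z hz
      have h2 : 0 < (l n0 v) ^ 2 := by positivity
      nlinarith [mul_pos h2 (sub_pos.mpr h1)]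
  · -- reset
    intro x hx hxU
    have : ∃ n ∈ H, r n ≤ |Y n x| := by
      by_contra hcon
      push Not at hcon
      exact hxU hcon
    obtain ⟨n, hn, hrn⟩ := this
    have hYr : |Y n x| = r n := le_antisymm (hx n hn) hrn
    obtain ⟨hx'B, hq⟩ := reset_bound own lam Y l H e r M M' hlam hY hdual hM hM' hMb hM'b hr x hx n hn
    refine ⟨_, hx'B, ?_⟩
    have hterm : ∀ i, Real.exp (-(qf own lam Y i x))
        + ((if own n = i then Real.exp (-(qf own lam Y i x)) * (ρ ^ 2 / 2) else 0)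
          - K0 * (M' * M * r n))
        ≤ Real.exp (-(qf own lam Y i (x + (-(Y n x)) • e n))) := by
      intro i
      have h1 := hq i
      set q' := qf own lam Y i (x + (-(Y n x)) • e n)
      set q0 := qf own lam Y i x
      have h2 : q' - q0 + 1 ≤ Real.exp (q' - q0) ∨ True := Or.inr trivial
      have h3 : -(q' - q0) + 1 ≤ Real.exp (-(q' - q0)) := Real.add_one_le_exp _
      have h4 : Real.exp (-q') = Real.exp (-q0) * Real.exp (-(q' - q0)) := by
        rw [← Real.exp_add]; congr 1; ring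
      have h5 : Real.exp (-q0) * (-(q' - q0) + 1) ≤ Real.exp (-q') := by
        rw [h4]; exact mul_le_mul_of_nonneg_left h3 (Real.exp_pos _).le
      have h6 := hK1 x hx i
      have hmr : 0 ≤ M' * M * r n := mul_nonneg (mul_nonneg hM' hM) (hr n hn).le
      have h7 := mul_le_mul_of_nonneg_right h6 hmr
      have h8 := mul_le_mul_of_nonneg_left h1 (Real.exp_pos (-q0)).le
      split_ifs with h
      · rw [if_pos h] at h8
        have h9 : lam n * (Y n x) ^ 2 = ρ ^ 2 := by
          rw [← sq_abs, hYr, hlr n hn]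
        rw [h9] at h8
        nlinarith [h5, h7, h8]
      · rw [if_neg h] at h8
        nlinarith [h5, h7, h8]
    have hsum := Finset.sum_le_sum (fun i (_ : i ∈ (Finset.univ : Finset ι)) => hterm i)
    rw [Finset.sum_add_distrib, Finset.sum_sub_distrib, Finset.sum_const, Finset.card_univ,
      nsmul_eq_mul] at hsum
    have hite : ∑ i, (if own n = i then Real.exp (-(qf own lam Y i x)) * (ρ ^ 2 / 2) else 0)
        = Real.exp (-(qf own lam Y (own n) x)) * (ρ ^ 2 / 2) := by
      rw [Finset.sum_ite_eq]; simp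
    rw [hite] at hsum
    have := hG1 n hn x hx
    linarith

end

end Pool.Agent.Helper794.Modes
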