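import Pool.Agent.Helper794.Modes.Mix

open Finset Filter Topology Matrix

namespace Pool.Agent.Helper794.Modes

theorem exists_dual {J : Type*} [DecidableEq J] {d : ℕ} (A : J → (Fin d → ℝ)) (H : Finset J)
    (hcard : H.card = d) (hinj : ∀ v : Fin d → ℝ, (∀ n ∈ H, A n ⬝ᵥ v = 0) → v = 0) :
    ∃ e : J → (Fin d → ℝ),
      (∀ n ∈ H, ∀ n' ∈ H, A n ⬝ᵥ e n' = if n = n' then 1 else 0) ∧
      ∀ v, v = ∑ n ∈ H, (A n ⬝ᵥ v) • e n := by
  let Φ : (Fin d → ℝ) →ₗ[ℝ] (H → ℝ) := LinearMap.pi (fun n => lin A n.1)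
  have hΦ : ∀ v n, Φ v n = A n.1 ⬝ᵥ v := fun v n => rfl
  have hinj' : Function.Injective Φ := by
    rw [← LinearMap.ker_eq_bot, LinearMap.ker_eq_bot']
    intro v hv
    apply hinj v
    intro n hn
    have := congrFun hv ⟨n, hn⟩
    rw [hΦ] at this
    exact this
  let Ψ : (Fin d → ℝ) ≃ₗ[ℝ] (H → ℝ) := LinearEquiv.ofInjectiveOfFinrankEq Φ hinj' (by
    simp [hcard])
  have hΨ : ∀ v, Ψ v = Φ v := fun v => rfl
  refine ⟨fun n => if h : n ∈ H then Ψ.symm (Pi.single ⟨n, h⟩ 1) else 0, ?_, ?_⟩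
  · intro n hn n' hn'
    simp only [hn', dif_pos]
    rw [← hΦ (Ψ.symm _) ⟨n, hn⟩, ← hΨ, LinearEquiv.apply_symm_apply, Pi.single_apply]
    simp
  · intro v
    apply Ψ.injective
    rw [map_sum]
    funext m
    rw [Finset.sum_apply]
    rw [Finset.sum_eq_single m.1]
    · rw [map_smul]
      simp only [m.2, dif_pos, LinearEquiv.apply_symm_apply, Pi.smul_apply, Pi.single_eq_same,
        smul_eq_mul, mul_one]
      rw [hΨ, hΦ]
    · intro n hn hnm
      rw [map_smul]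
      simp only [hn, dif_pos, LinearEquiv.apply_symm_apply, Pi.smul_apply, smul_eq_mul]
      rw [Pi.single_eq_of_ne, mul_zero]
      intro h
      exact hnm (by rw [h])
    · intro h; exact absurd m.2 h

/-- the point where the functionals of `H` vanish -/
noncomputable def pt {J : Type*} {d : ℕ} (e : J → (Fin d → ℝ)) (c : J → ℝ) (H : Finset J) :
    Fin d → ℝ := -∑ n ∈ H, c n • e n

lemma pt_zero {J : Type*} [DecidableEq J] {d : ℕ} (A : J → (Fin d → ℝ)) (e : J → (Fin d → ℝ))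
    (c : J → ℝ) (H : Finset J)
    (hdual : ∀ n ∈ H, ∀ n' ∈ H, A n ⬝ᵥ e n' = if n = n' then 1 else 0) :
    ∀ n ∈ H, aff A c n (pt e c H) = 0 := by
  intro n hn
  have h1 : lin A n (∑ m ∈ H, c m • e m) = c n := by
    rw [map_sum, Finset.sum_eq_single n]
    · rw [map_smul]
      show c n • (A n ⬝ᵥ e n) = c n
      rw [hdual n hn n hn, if_pos rfl, smul_eq_mul, mul_one]
    · intro m hm hmn
      rw [map_smul]
      show c m • (A n ⬝ᵥ e m) = 0
      rw [hdual n hn m hm, if_neg (Ne.symm hmn), smul_zero]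
    · intro h; exact absurd hn h
  unfold aff pt
  rw [dotProduct_neg]
  have h2 : A n ⬝ᵥ (∑ m ∈ H, c m • e m) = c n := h1
  rw [h2]; ring

theorem exists_bounds {J : Type*} [Fintype J] [DecidableEq J] {d : ℕ} (A : J → (Fin d → ℝ))
    (c0 c1 : J → ℝ) (HH : Finset (Finset J)) (e : Finset J → J → (Fin d → ℝ))
    (hnz : ∀ H ∈ HH, ∀ j, j ∉ H → aff A c0 j (pt (e H) c0 H) ≠ 0) :
    ∃ M h : ℝ, 0 ≤ M ∧ 0 < h ∧ h ≤ 1 ∧ ∀ᶠ δ in 𝓝 (0:ℝ), ∀ H ∈ HH, ∀ j, j ∉ H →
      (∀ n ∈ H, |A j ⬝ᵥ e H n| ≤ M) ∧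
      |aff A (c0 + δ • c1) j (pt (e H) (c0 + δ • c1) H)| ≤ M ∧
      h ≤ |aff A (c0 + δ • c1) j (pt (e H) (c0 + δ • c1) H)| := by
  set g : Finset J → J → ℝ → ℝ := fun H j δ =>
    |aff A (c0 + δ • c1) j (pt (e H) (c0 + δ • c1) H)| with hg
  have hgc : ∀ H j, Continuous (g H j) := by
    intro H j
    simp only [hg, aff, pt]
    refine Continuous.abs ?_
    refine Continuous.add ?_ ?_
    · simp only [Pi.add_apply, Pi.smul_apply, smul_eq_mul]
      fun_prop
    · have : Continuous (fun x : Fin d → ℝ => A j ⬝ᵥ x) := by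
        unfold dotProduct
        exact continuous_finsetSum _ (fun i _ => continuous_const.mul (continuous_apply i))
      refine this.comp ?_
      refine Continuous.neg ?_
      refine continuous_finsetSum _ (fun n _ => ?_)
      simp only [Pi.add_apply, Pi.smul_apply, smul_eq_mul]
      fun_prop
  have hg0 : ∀ H ∈ HH, ∀ j, j ∉ H → 0 < g H j 0 := by
    intro H hH j hj
    simp only [hg, zero_smul, add_zero]
    exact abs_pos.mpr (hnz H hH j hj)
  have hgn : ∀ H j, 0 ≤ g H j 0 := fun H j => abs_nonneg _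
  set M : ℝ := 1 + ∑ H ∈ HH, ∑ j, (g H j 0 + ∑ n, |A j ⬝ᵥ e H n|) with hM
  set R : ℝ := 1 + ∑ H ∈ HH, ∑ j, (g H j 0)⁻¹ with hR
  have hR1 : 1 ≤ R := by
    have : 0 ≤ ∑ H ∈ HH, ∑ j, (g H j 0)⁻¹ :=
      Finset.sum_nonneg (fun H _ => Finset.sum_nonneg (fun j _ => inv_nonneg.mpr (hgn H j)))
    linarith
  have hMt : ∀ H ∈ HH, ∀ j, g H j 0 + ∑ n, |A j ⬝ᵥ e H n| < M := by
    intro H hH j
    have h1 : ∀ H j, 0 ≤ g H j 0 + ∑ n, |A j ⬝ᵥ e H n| := fun H j =>
      add_nonneg (hgn H j) (Finset.sum_nonneg (fun n _ => abs_nonneg _))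
    have h2 : g H j 0 + ∑ n, |A j ⬝ᵥ e H n| ≤ ∑ j, (g H j 0 + ∑ n, |A j ⬝ᵥ e H n|) :=
      Finset.single_le_sum (f := fun j => g H j 0 + ∑ n, |A j ⬝ᵥ e H n|)
        (fun j _ => h1 H j) (Finset.mem_univ j)
    have h3 : ∑ j, (g H j 0 + ∑ n, |A j ⬝ᵥ e H n|)
        ≤ ∑ H ∈ HH, ∑ j, (g H j 0 + ∑ n, |A j ⬝ᵥ e H n|) :=
      Finset.single_le_sum (f := fun H => ∑ j, (g H j 0 + ∑ n, |A j ⬝ᵥ e H n|))
        (fun H _ => Finset.sum_nonneg (fun j _ => h1 H j)) hH
    rw [hM]; linarith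
  refine ⟨M, R⁻¹, ?_, inv_pos.mpr (by linarith), inv_le_one_of_one_le₀ hR1, ?_⟩
  · have : 0 ≤ ∑ H ∈ HH, ∑ j, (g H j 0 + ∑ n, |A j ⬝ᵥ e H n|) :=
      Finset.sum_nonneg (fun H _ => Finset.sum_nonneg (fun j _ => 
        add_nonneg (hgn H j) (Finset.sum_nonneg (fun n _ => abs_nonneg _))))
    rw [hM]; linarith
  rw [Filter.eventually_all_finset]
  intro H hH
  rw [Filter.eventually_all]
  intro j
  by_cases hj : j ∈ H
  · exact Filter.Eventually.of_forall (fun δ h => absurd hj h)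
  have hup : g H j 0 < M := lt_of_le_of_lt (le_add_of_nonneg_right
    (Finset.sum_nonneg (fun n _ => abs_nonneg _))) (hMt H hH j)
  have hlow : R⁻¹ < g H j 0 := by
    have h0 := hg0 H hH j hj
    rw [inv_lt_comm₀ (by linarith) h0]
    have h2 : (g H j 0)⁻¹ ≤ ∑ j, (g H j 0)⁻¹ :=
      Finset.single_le_sum (f := fun j => (g H j 0)⁻¹)
        (fun j _ => inv_nonneg.mpr (hgn H j)) (Finset.mem_univ j)
    have h3 : ∑ j, (g H j 0)⁻¹ ≤ ∑ H ∈ HH, ∑ j, (g H j 0)⁻¹ :=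
      Finset.single_le_sum (f := fun H => ∑ j, (g H j 0)⁻¹)
        (fun H _ => Finset.sum_nonneg (fun j _ => inv_nonneg.mpr (hgn H j))) hH
    rw [hR]; linarith
  have e1 := (hgc H j).continuousAt.eventually_lt (continuousAt_const (y := M)) hup
  have e2 := (continuousAt_const (y := R⁻¹)).eventually_lt (hgc H j).continuousAt hlow
  filter_upwards [e1, e2] with δ h1 h2 _
  refine ⟨?_, h1.le, h2.le⟩
  intro n _
  have h4 : |A j ⬝ᵥ e H n| ≤ ∑ n, |A j ⬝ᵥ e H n| :=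
    Finset.single_le_sum (f := fun n => |A j ⬝ᵥ e H n|) (fun n _ => abs_nonneg _)
      (Finset.mem_univ n)
  have h5 := hMt H hH j
  have h6 := hgn H j
  linarith

/-- the held functionals of a type -/
def HS {k d : ℕ} (s : Sym (Fin k) d) : Finset (Fin k × Fin d) :=
  Finset.univ.filter (fun j => j.2.val < (s : Multiset (Fin k)).count j.1)

lemma mem_HS {k d : ℕ} (s : Sym (Fin k) d) (i : Fin k) (j : Fin d) :
    (i, j) ∈ HS s ↔ j.val < (s : Multiset (Fin k)).count i := by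
  simp [HS]

lemma HS_card {k d : ℕ} (s : Sym (Fin k) d) : (HS s).card = d := by
  have h1 : (HS s).card = ∑ i : Fin k, ((HS s).filter (fun j => j.1 = i)).card := by
    rw [Finset.card_eq_sum_card_fiberwise (f := Prod.fst) (t := Finset.univ)]
    intro x _; simp
  have h2 : ∀ i : Fin k, ((HS s).filter (fun j => j.1 = i)).card
      = (s : Multiset (Fin k)).count i := by
    intro i
    have hle : (s : Multiset (Fin k)).count i ≤ d := by
      have := Multiset.count_le_card i (s : Multiset (Fin k))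
      rwa [Sym.card_coe] at this
    have : (HS s).filter (fun j => j.1 = i)
        = ((Finset.univ : Finset (Fin d)).filter
          (fun j => j.val < (s : Multiset (Fin k)).count i)).map ⟨fun j => (i, j), fun a b h => by
            simpa using h⟩ := by
      ext ⟨i', j⟩
      simp only [Finset.mem_filter, mem_HS, Finset.mem_map, Finset.mem_univ, true_and]
      constructor
      · rintro ⟨h, rfl⟩; exact ⟨j, h, rfl⟩
      · rintro ⟨j', h, heq⟩
        have heq' : (i, j') = (i', j) := heq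
        obtain ⟨rfl, rfl⟩ := Prod.mk.inj heq'
        exact ⟨h, rfl⟩
    rw [this, Finset.card_map, Fin.card_filter_val_lt]
    exact min_eq_right hle
  rw [h1, Finset.sum_congr rfl (fun i _ => h2 i)]
  have h3 : ∑ i : Fin k, (s : Multiset (Fin k)).count i = Multiset.card (s : Multiset (Fin k)) := by
    rw [Multiset.sum_count_eq_card]
    intro a _; exact Finset.mem_univ a
  rw [h3, Sym.card_coe]

lemma HS_injective {k d : ℕ} : Function.Injective (HS : Sym (Fin k) d → _) := by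
  intro s t hst
  apply Sym.coe_injective
  ext i
  have hle : ∀ s : Sym (Fin k) d, (s : Multiset (Fin k)).count i ≤ d := by
    intro s
    have := Multiset.count_le_card i (s : Multiset (Fin k))
    rwa [Sym.card_coe] at this
  have key : ∀ s t : Sym (Fin k) d, HS s = HS t →
      (s : Multiset (Fin k)).count i ≤ (t : Multiset (Fin k)).count i := by
    intro s t hst
    by_contra hcon
    push Not at hcon
    have hlt : (t : Multiset (Fin k)).count i < d := lt_of_lt_of_le hcon (hle s)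
    have h1 : (i, (⟨_, hlt⟩ : Fin d)) ∈ HS s := by rw [mem_HS]; exact hcon
    rw [hst, mem_HS] at h1
    exact lt_irrefl _ h1
  exact le_antisymm (key s t hst) (key t s hst.symm)

/-- One mode for every type in `T`. -/
theorem modes_family (k d : ℕ) (hk : 1 ≤ k) (hd : 1 ≤ d) (A : Fin k × Fin d → (Fin d → ℝ))
    (c0 c1 : Fin k × Fin d → ℝ)
    (hgp : ∀ H : Finset (Fin k × Fin d), H.card = d →
      ∀ v : Fin d → ℝ, (∀ n ∈ H, A n ⬝ᵥ v = 0) → v = 0)
    (T : Finset (Sym (Fin k) d))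
    (hnz : ∀ s ∈ T, ∀ x, (∀ n ∈ HS s, aff A c0 n x = 0) →
      ∀ j, j ∉ HS s → aff A c0 j x ≠ 0) :
    ∃ K L h : ℝ, 1 ≤ L ∧ 1 ≤ K ∧ 0 < h ∧ h ≤ 1 ∧ ∀ᶠ δ in 𝓝 (0:ℝ),
      ∀ lam : Fin k × Fin d → ℝ, (∀ j, L ≤ lam j) →
      (∀ i (j j' : Fin d), j < j' → Real.exp (K * lam (i, j')) ≤ lam (i, j)) →
      ∀ s ∈ T, ∃ x, (∀ n ∈ HS s, |aff A (c0 + δ • c1) n x| < h / 2) ∧
        (∀ j, j ∉ HS s → h / 2 ≤ |aff A (c0 + δ • c1) j x|) ∧
        ∀ᶠ y in 𝓝[≠] x, ∑ i, Real.exp (-(qf Prod.fst lam (aff A (c0 + δ • c1)) i y))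
          < ∑ i, Real.exp (-(qf Prod.fst lam (aff A (c0 + δ • c1)) i x)) := by
  have hdual : ∀ H : Finset (Fin k × Fin d), ∃ e : Fin k × Fin d → (Fin d → ℝ), H.card = d →
      (∀ n ∈ H, ∀ n' ∈ H, A n ⬝ᵥ e n' = if n = n' then 1 else 0) ∧
      ∀ v, v = ∑ n ∈ H, (A n ⬝ᵥ v) • e n := by
    intro H
    by_cases hH : H.card = d
    · obtain ⟨e, he⟩ := exists_dual A H hH (hgp H hH)
      exact ⟨e, fun _ => he⟩
    · exact ⟨0, fun h => absurd h hH⟩
  choose e he using hdual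
  obtain ⟨M, h, hM, hh, hh1, hev⟩ := exists_bounds A c0 c1 (T.image HS) e (by
    intro H hH j hj
    obtain ⟨s, hs, rfl⟩ := Finset.mem_image.mp hH
    exact hnz s hs _ (pt_zero A (e (HS s)) c0 (HS s) (he (HS s) (HS_card s)).1) j hj)
  obtain ⟨K, L, hL, hK, hGT⟩ := GT k d hk hd M h hM hh
  refine ⟨K, L, h, hL, hK, hh, hh1, ?_⟩
  filter_upwards [hev] with δ hδ lam hlamL tower s hs
  have hH := hδ (HS s) (Finset.mem_image_of_mem _ hs)
  have hes := he (HS s) (HS_card s)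
  have hlam0 : ∀ j, 1 ≤ lam j := fun j => hL.trans (hlamL j)
  refine hGT lam hlamL (aff A (c0 + δ • c1)) (lin A) (fun j x v => aff_add A _ j x v)
    (fun j => aff_cont A _ j) (fun i => (s : Multiset (Fin k)).count i) (HS s)
    (fun i j => mem_HS s i j) (e (HS s)) hes.1 hes.2 (pt (e (HS s)) (c0 + δ • c1) (HS s))
    (pt_zero A _ _ _ hes.1) (fun j hj => (hH j hj).1) (fun j hj => (hH j hj).2.1)
    (fun j hj => (hH j hj).2.2) ?_ ?_
  · intro i j j' hj hj'
    apply tower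
    rw [mem_HS] at hj hj'
    exact Fin.lt_def.mpr (lt_of_lt_of_le hj (not_lt.mp hj'))
  · intro i j j' _ hjj'
    rcases eq_or_lt_of_le hjj' with rfl | hlt
    · exact le_rfl
    · refine le_trans ?_ (tower i j j' hlt)
      have h1 := Real.add_one_le_exp (K * lam (i, j'))
      have h2 := hlam0 (i, j')
      nlinarith

end Pool.Agent.Helper794.Modes
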