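import Pool.Agent.Helper794.Modes.Num

namespace Pool.Agent.Helper794.Modes

lemma cs2 (a b c x p : ℝ) (ha : 0 ≤ a) (hc : 0 ≤ c) (hb : b ^ 2 ≤ a * c) :
    (b + x * p) ^ 2 ≤ (a + x ^ 2) * (c + p ^ 2) := by
  have key : 2 * (b * (x * p)) ≤ a * p ^ 2 + c * x ^ 2 := by
    rcases eq_or_lt_of_le ha with h0 | hpos
    · have hb0 : b = 0 := by
        have : b ^ 2 ≤ 0 := by rw [← h0, zero_mul] at hb; exact hb
        exact pow_eq_zero_iff (two_ne_zero) |>.mp (le_antisymm this (sq_nonneg b))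
      rw [hb0, ← h0]
      nlinarith [mul_nonneg hc (sq_nonneg x)]
    · by_contra hcon
      push Not at hcon
      have h1 : a * (a * p ^ 2 + c * x ^ 2) < a * (2 * (b * (x * p))) :=
        mul_lt_mul_of_pos_left hcon hpos
      nlinarith [sq_nonneg (a * p - b * x), mul_nonneg (sub_nonneg.mpr hb) (sq_nonneg x)]
  nlinarith [key]

lemma small_term (y q : ℝ) (hy : |y| ≤ 3/10) :
    Real.exp (-(y^2/2)) * ((y * q)^2 - q^2) ≤ -(86/100) * q^2 := by
  have h1 : y^2 ≤ 9/100 := by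
    rw [← sq_abs]; nlinarith [abs_nonneg y]
  have h2 : (95/100:ℝ) ≤ Real.exp (-(y^2/2)) :=
    exp_small.trans (Real.exp_le_exp.mpr (by linarith))
  have h3 : (95/100:ℝ) * (91/100) ≤ Real.exp (-(y^2/2)) * (1 - y^2) :=
    mul_le_mul h2 (by linarith) (by norm_num) (Real.exp_pos _).le
  have h4 := mul_le_mul_of_nonneg_right h3 (sq_nonneg q)
  nlinarith [sq_nonneg q]

lemma big_term (y q : ℝ) (hy : 237/100 ≤ y) :
    Real.exp (-(y^2/2)) * ((y * q)^2 - q^2) ≤ 3/10 * q^2 := by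
  have h1 := curv y hy
  have h2 := mul_le_mul_of_nonneg_right h1 (sq_nonneg q)
  have h3 := Real.exp_pos (-(y^2/2))
  nlinarith [mul_nonneg (mul_nonneg h3.le (sq_nonneg y)) (sq_nonneg q)]

lemma ki_alpha (a b c x y t p q s : ℝ) (ha : 0 ≤ a) (ha' : a ≤ 1/1000) (hc : 0 ≤ c)
    (hb : b ^ 2 ≤ a * c) (hx : 237/100 ≤ x) (hy : |y| ≤ 3/10) (ht : |t| ≤ 3/10)
    (hp : p + q + s = 0) (hne : 0 < c ∨ q ≠ 0 ∨ s ≠ 0) :
    Real.exp (-((a + x^2)/2)) * ((b + x * p)^2 - (c + p^2))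
      + Real.exp (-(y^2/2)) * ((y * q)^2 - q^2)
      + Real.exp (-(t^2/2)) * ((t * s)^2 - s^2) < 0 := by
  set w := Real.exp (-((a + x^2)/2)) with hw
  have hwpos : 0 < w := Real.exp_pos _
  have hwle : w ≤ Real.exp (-(x^2/2)) := Real.exp_le_exp.mpr (by linarith)
  have h1 : (b + x * p)^2 ≤ 101/100 * (x^2 * p^2) + 101 * b^2 := by
    nlinarith [sq_nonneg (x * p - 100 * b)]
  have h2 : 101 * b^2 ≤ c / 2 := by nlinarith [mul_nonneg hc (sub_nonneg.mpr ha')]
  have h3 : w * ((b + x * p)^2 - (c + p^2)) ≤ w * ((101/100 * x^2 - 1) * p^2) - w * (c / 2) := by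
    nlinarith
  have h4 : w * ((101/100 * x^2 - 1) * p^2) ≤ 3/10 * p^2 := by
    have h5 := curv x hx
    have h6 : 0 ≤ 101/100 * x^2 - 1 := by nlinarith
    have h7 : w * (101/100 * x^2 - 1) ≤ 3/10 := (mul_le_mul_of_nonneg_right hwle h6).trans h5
    have h8 := mul_le_mul_of_nonneg_right h7 (sq_nonneg p)
    linarith
  have h9 := small_term y q hy
  have h10 := small_term t s ht
  have h11 : p^2 ≤ 2 * (q^2 + s^2) := by
    have : p = -(q + s) := by linarith
    rw [this]; nlinarith [sq_nonneg (q - s)]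
  rcases hne with h | h | h
  · have : 0 < w * (c / 2) := by positivity
    nlinarith [sq_nonneg q, sq_nonneg s]
  · have : 0 < q^2 := by positivity
    nlinarith [sq_nonneg s, mul_nonneg hwpos.le hc]
  · have : 0 < s^2 := by positivity
    nlinarith [sq_nonneg q, mul_nonneg hwpos.le hc]

lemma ki_beta (a b c x y t p q s : ℝ) (ha : 0 ≤ a) (ha' : a ≤ 1/1000) (hc : 0 ≤ c)
    (hb : b ^ 2 ≤ a * c) (hx : |x| ≤ 3/10) (hy : 237/100 ≤ y) (ht : |t| ≤ 3/10)
    (hp : p + q + s = 0) (hne : 0 < c ∨ q ≠ 0 ∨ s ≠ 0) :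
    Real.exp (-((a + x^2)/2)) * ((b + x * p)^2 - (c + p^2))
      + Real.exp (-(y^2/2)) * ((y * q)^2 - q^2)
      + Real.exp (-(t^2/2)) * ((t * s)^2 - s^2) < 0 := by
  set w := Real.exp (-((a + x^2)/2)) with hw
  have hx2 : x^2 ≤ 9/100 := by
    rw [← sq_abs]; nlinarith [abs_nonneg x]
  have hwge : 95/100 ≤ w := exp_small.trans (Real.exp_le_exp.mpr (by linarith))
  have h1 := cs2 a b c x p ha hc hb
  have h2 : (b + x * p)^2 - (c + p^2) ≤ -(909/1000) * (c + p^2) := by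
    nlinarith [mul_nonneg (by linarith : (0:ℝ) ≤ 91/1000 - (a + x^2)) (add_nonneg hc (sq_nonneg p))]
  have h3 : w * ((b + x * p)^2 - (c + p^2)) ≤ -(86/100) * (c + p^2) := by
    have h4 : w * ((b + x * p)^2 - (c + p^2)) ≤ w * (-(909/1000) * (c + p^2)) :=
      mul_le_mul_of_nonneg_left h2 (by linarith)
    nlinarith [mul_nonneg (sub_nonneg.mpr hwge) (add_nonneg hc (sq_nonneg p)), sq_nonneg p]
  have h9 := big_term y q hy
  have h10 := small_term t s ht
  have h11 : q^2 ≤ 2 * (p^2 + s^2) := by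
    have : q = -(p + s) := by linarith
    rw [this]; nlinarith [sq_nonneg (p - s)]
  have h12 : 0 < c ∨ p ≠ 0 ∨ s ≠ 0 := by
    rcases hne with h | h | h
    · exact Or.inl h
    · right
      by_contra hcon
      push Not at hcon
      exact h (by linarith [hcon.1, hcon.2])
    · exact Or.inr (Or.inr h)
  rcases h12 with h | h | h
  · nlinarith [sq_nonneg p, sq_nonneg s]
  · have : 0 < p^2 := by positivity
    nlinarith [sq_nonneg s]
  · have : 0 < s^2 := by positivity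
    nlinarith [sq_nonneg p]

lemma ki_centre (a b c x y t p q s : ℝ) (ha : 0 ≤ a) (ha' : a ≤ 1/1000) (hc : 0 ≤ c)
    (hb : b ^ 2 ≤ a * c) (hx : |x - 99/100| ≤ 1/1000) (hy : |y - 99/100| ≤ 1/1000)
    (ht : |t - 99/100| ≤ 1/1000) (hne : 0 < c ∨ q ≠ 0 ∨ s ≠ 0) :
    Real.exp (-((a + x^2)/2)) * ((b + x * p)^2 - (c + p^2))
      + Real.exp (-(y^2/2)) * ((y * q)^2 - q^2)
      + Real.exp (-(t^2/2)) * ((t * s)^2 - s^2) < 0 := by
  have aux : ∀ u : ℝ, |u - 99/100| ≤ 1/1000 → u^2 ≤ 99/100 := by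
    intro u hu
    rw [abs_le] at hu
    nlinarith [hu.1, hu.2]
  have hx2 := aux x hx
  have hy2 := aux y hy
  have ht2 := aux t ht
  set w := Real.exp (-((a + x^2)/2)) with hw
  have hwpos : 0 < w := Real.exp_pos _
  have hypos := Real.exp_pos (-(y^2/2))
  have htpos := Real.exp_pos (-(t^2/2))
  have h1 := cs2 a b c x p ha hc hb
  have h2 : (b + x * p)^2 - (c + p^2) ≤ -(1/1000) * (c + p^2) := by
    have : x^2 ≤ 983/1000 := by
      rw [abs_le] at hx
      nlinarith [hx.1, hx.2]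
    nlinarith [mul_nonneg (by linarith : (0:ℝ) ≤ 999/1000 - (a + x^2)) (add_nonneg hc (sq_nonneg p))]
  have h3 : w * ((b + x * p)^2 - (c + p^2)) ≤ w * (-(1/1000) * (c + p^2)) :=
    mul_le_mul_of_nonneg_left h2 hwpos.le
  have h4 : Real.exp (-(y^2/2)) * ((y * q)^2 - q^2) ≤ -(Real.exp (-(y^2/2)) * (1/100 * q^2)) := by
    nlinarith [mul_nonneg hypos.le (mul_nonneg (sub_nonneg.mpr hy2) (sq_nonneg q))]
  have h5 : Real.exp (-(t^2/2)) * ((t * s)^2 - s^2) ≤ -(Real.exp (-(t^2/2)) * (1/100 * s^2)) := by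
    nlinarith [mul_nonneg htpos.le (mul_nonneg (sub_nonneg.mpr ht2) (sq_nonneg s))]
  have e1 : 0 ≤ w * (1/1000 * (c + p^2)) := by positivity
  have e2 : 0 ≤ Real.exp (-(y^2/2)) * (1/100 * q^2) := by positivity
  have e3 : 0 ≤ Real.exp (-(t^2/2)) * (1/100 * s^2) := by positivity
  rcases hne with h | h | h
  · have : 0 < w * (1/1000 * (c + p^2)) := by positivity
    linarith
  · have : 0 < Real.exp (-(y^2/2)) * (1/100 * q^2) := by positivity
    linarith
  · have : 0 < Real.exp (-(t^2/2)) * (1/100 * s^2) := by positivity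
    linarith

/-- the limit function -/
noncomputable def G (a x y t : ℝ) : ℝ :=
  Real.exp (-((a + x^2)/2)) + Real.exp (-(y^2/2)) + Real.exp (-(t^2/2))

lemma G_tau (a x y t : ℝ) (ha : 0 < a) : G a x y t < G 0 x y t := by
  unfold G
  have : Real.exp (-((a + x^2)/2)) < Real.exp (-((0 + x^2)/2)) := Real.exp_lt_exp.mpr (by linarith)
  linarith

lemma gain' (q : ℝ) (hq : |q| = 3/10) : (430/10000:ℝ) ≤ 1 - Real.exp (-(q^2/2)) := by
  have : q^2 = (3/10)^2 := by rw [← sq_abs, hq]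
  rw [this]; exact gain

lemma G_alpha (a x q t : ℝ) (ha : 0 ≤ a) (hx : 237/100 ≤ x) (hq : |q| = 3/10) :
    G a x q t < G a (x + q) 0 t := by
  unfold G
  have h1 := loss x q hx hq
  have h2 := gain' q hq
  have e1 : Real.exp (-((a + x^2)/2)) = Real.exp (-(a/2)) * Real.exp (-(x^2/2)) := by
    rw [← Real.exp_add]; congr 1; ring
  have e2 : Real.exp (-((a + (x+q)^2)/2)) = Real.exp (-(a/2)) * Real.exp (-((x+q)^2/2)) := by
    rw [← Real.exp_add]; congr 1; ring
  have e3 : Real.exp (-((0:ℝ)^2/2)) = 1 := by norm_num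
  have h3 : Real.exp (-(a/2)) ≤ 1 := Real.exp_le_one_iff.mpr (by linarith)
  have h4 := Real.exp_pos (-(a/2))
  rw [e1, e2, e3]
  have h5 : Real.exp (-(a/2)) * (Real.exp (-(x^2/2)) - Real.exp (-((x+q)^2/2))) ≤ 415/10000 := by
    calc Real.exp (-(a/2)) * (Real.exp (-(x^2/2)) - Real.exp (-((x+q)^2/2)))
        ≤ Real.exp (-(a/2)) * (415/10000) := mul_le_mul_of_nonneg_left h1 h4.le
      _ ≤ 1 * (415/10000) := mul_le_mul_of_nonneg_right h3 (by norm_num)
      _ = 415/10000 := one_mul _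
  nlinarith

lemma G_swap (a x y t : ℝ) : G a x y t = G a x t y := by unfold G; ring

lemma G_beta_alpha (a q y t : ℝ) (ha' : a ≤ 1/1000) (hy : 237/100 ≤ y)
    (hq : |q| = 3/10) : G a q y t < G a 0 (y + q) t := by
  unfold G
  have h1 := loss y q hy hq
  have h2 := gain' q hq
  have e1 : Real.exp (-((a + q^2)/2)) = Real.exp (-(a/2)) * Real.exp (-(q^2/2)) := by
    rw [← Real.exp_add]; congr 1; ring
  have e2 : Real.exp (-((a + (0:ℝ)^2)/2)) = Real.exp (-(a/2)) := by congr 1; ring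
  have h3 : (999/1000:ℝ) ≤ Real.exp (-(a/2)) := by
    have := Real.add_one_le_exp (-(a/2))
    linarith
  rw [e1, e2]
  have h5 : (999/1000:ℝ) * (430/10000) ≤ Real.exp (-(a/2)) * (1 - Real.exp (-(q^2/2))) :=
    mul_le_mul h3 h2 (by norm_num) (Real.exp_pos _).le
  nlinarith

lemma G_beta_gamma (a x y q : ℝ) (hy : 237/100 ≤ y) (hq : |q| = 3/10) :
    G a x y q < G a x (y + q) 0 := by
  unfold G
  have h1 := loss y q hy hq
  have h2 := gain' q hq
  have e3 : Real.exp (-((0:ℝ)^2/2)) = 1 := by norm_num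
  rw [e3]
  linarith

/-- tangent line inequality -/
lemma tangent (h : ℝ) (hh : |h| ≤ 1/1000) :
    Real.exp (-((99/100 + h)^2/2)) ≤ Real.exp (-((99/100)^2/2)) * (1 - 99/100 * h) ∧
    (h ≠ 0 → Real.exp (-((99/100 + h)^2/2)) < Real.exp (-((99/100)^2/2)) * (1 - 99/100 * h)) := by
  set X := 99/100 * h + h^2/2 with hX
  have e : Real.exp (-((99/100 + h)^2/2)) = Real.exp (-((99/100)^2/2)) * Real.exp (-X) := by
    rw [← Real.exp_add]; congr 1; rw [hX]; ring
  have hpos := Real.exp_pos (-((99/100:ℝ)^2/2))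
  have hh' := abs_le.mp hh
  have hXe : X = h * (99/100 + h/2) := by rw [hX]; ring
  have hX2 : X^2 ≤ 982/1000 * h^2 := by
    rw [hXe, mul_pow]
    have : (99/100 + h/2)^2 ≤ 982/1000 := by nlinarith [hh'.1, hh'.2]
    nlinarith [sq_nonneg h]
  have hXa : |X| ≤ 1/1000 := by
    rw [hXe, abs_mul]
    have h1 : |99/100 + h/2| ≤ 1 := by rw [abs_le]; constructor <;> linarith [hh'.1, hh'.2]
    calc |h| * |99/100 + h/2| ≤ (1/1000) * 1 := mul_le_mul hh h1 (abs_nonneg _) (by norm_num)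
      _ = 1/1000 := mul_one _
  have hb : Real.exp (-X) ≤ 1 - X + X^2/2 + (2/9) * |X|^3 := by
    have h1 := Real.exp_bound (x := -X) (by rw [abs_neg]; linarith) (n := 3) (by norm_num)
    rw [abs_le] at h1
    have h2 := h1.2
    norm_num [Finset.sum_range_succ, Nat.factorial] at h2
    linarith
  have hc : |X|^3 ≤ (1/1000) * X^2 := by
    have : |X|^3 = |X| * X^2 := by rw [← sq_abs X]; ring
    rw [this]; exact mul_le_mul_of_nonneg_right hXa (sq_nonneg X)
  have hd : Real.exp (-X) ≤ 1 - 99/100 * h - 1/1000 * h^2 := by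
    have : X = 99/100 * h + h^2/2 := hX
    nlinarith [sq_nonneg h]
  rw [e]
  refine ⟨mul_le_mul_of_nonneg_left (by nlinarith [sq_nonneg h]) hpos.le, fun hne => ?_⟩
  have : 0 < h^2 := by positivity
  exact mul_lt_mul_of_pos_left (by linarith) hpos

lemma G_centre (a x y t : ℝ) (ha : 0 ≤ a) (hx : |x - 99/100| ≤ 1/1000)
    (hy : |y - 99/100| ≤ 1/1000) (ht : |t - 99/100| ≤ 1/1000) (hs : x + y + t = 3 * (99/100))
    (hne : 0 < a ∨ x ≠ 99/100 ∨ y ≠ 99/100 ∨ t ≠ 99/100) :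
    G a x y t < G 0 (99/100) (99/100) (99/100) := by
  have e1 := tangent (x - 99/100) hx
  have e2 := tangent (y - 99/100) hy
  have e3 := tangent (t - 99/100) ht
  rw [add_sub_cancel] at e1 e2 e3
  have h1 : Real.exp (-((a + x^2)/2)) ≤ Real.exp (-(x^2/2)) := Real.exp_le_exp.mpr (by linarith)
  have h2 : 0 < a → Real.exp (-((a + x^2)/2)) < Real.exp (-(x^2/2)) := fun h =>
    Real.exp_lt_exp.mpr (by linarith)
  unfold G
  have e0 : Real.exp (-((0 + (99/100:ℝ)^2)/2)) = Real.exp (-((99/100)^2/2)) := by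
    congr 1; ring
  rw [e0]
  set ψ := Real.exp (-((99/100:ℝ)^2/2))
  have hsum : ψ * (1 - 99/100 * (x - 99/100)) + ψ * (1 - 99/100 * (y - 99/100))
      + ψ * (1 - 99/100 * (t - 99/100)) = ψ + ψ + ψ := by
    have : x = 3 * (99/100) - y - t := by linarith
    rw [this]; ring
  rcases hne with h | h | h | h
  · linarith [h2 h, e1.1, e2.1, e3.1]
  · linarith [e1.2 (sub_ne_zero.mpr h), e2.1, e3.1]
  · linarith [e1.1, e2.2 (sub_ne_zero.mpr h), e3.1]
  · linarith [e1.1, e2.1, e3.2 (sub_ne_zero.mpr h)]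

end Pool.Agent.Helper794.Modes
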