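import Pool.Agent.Helper794.Modes.Stab
import Pool.Agent.Helper794.Modes.Num2
import Pool.Agent.Helper794.Modes.Fam

open Finset Filter Topology Matrix

namespace Pool.Agent.Helper794.Modes

lemma own_sum {k d : ℕ} (i : Fin k) (f : Fin k × Fin d → ℝ) :
    ∑ j ∈ own_set Prod.fst i, f j = ∑ j : Fin d, f (i, j) := by
  symm
  refine Finset.sum_bij (fun j _ => (i, j)) ?_ ?_ ?_ ?_
  · intro j _; simp [own_set]
  · intro j _ j' _ h; simpa using h
  · rintro ⟨i', j⟩ h
    have : i' = i := by simpa [own_set] using h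
    subst this
    exact ⟨j, Finset.mem_univ _, rfl⟩
  · intro j _; rfl

/-- the sum of exponentials of a system -/
noncomputable def Fs {k d : ℕ} (p : (Fin k × Fin d → (Fin d → ℝ)) × (Fin k × Fin d → ℝ))
    (w : Fin d → ℝ) : ℝ := ∑ i, Real.exp (-(qf Prod.fst 1 (aff p.1 p.2) i w))

lemma dot_cont {X : Type*} [TopologicalSpace X] {d : ℕ} {f g : X → (Fin d → ℝ)}
    (hf : Continuous f) (hg : Continuous g) : Continuous (fun x => f x ⬝ᵥ g x) := by
  unfold dotProduct
  exact continuous_finsetSum _ (fun i _ =>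
    ((continuous_apply i).comp hf).mul ((continuous_apply i).comp hg))

/-- stability for systems -/
theorem stab_sys {k d : ℕ} (p0 : (Fin k × Fin d → (Fin d → ℝ)) × (Fin k × Fin d → ℝ))
    (B U : Set (Fin d → ℝ)) (hBc : IsCompact B) (hBconv : Convex ℝ B) (hne : B.Nonempty)
    (hU : IsOpen U)
    (KI0 : ∀ z ∈ B, ∀ v : Fin d → ℝ, v ≠ 0 →
      ∑ i, Real.exp (-(qf Prod.fst 1 (aff p0.1 p0.2) i z)) *
        ((∑ j : Fin d, aff p0.1 p0.2 (i, j) z * (p0.1 (i, j) ⬝ᵥ v)) ^ 2
          - ∑ j : Fin d, (p0.1 (i, j) ⬝ᵥ v) ^ 2) < 0)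
    (reset0 : ∀ x ∈ B, x ∉ U → ∃ x' ∈ B, Fs p0 x < Fs p0 x') :
    ∀ᶠ p in 𝓝 p0, ∃ x ∈ B, x ∈ U ∧ ∀ y ∈ B, y ≠ x → Fs p y < Fs p x := by
  have hac : ∀ j : Fin k × Fin d, Continuous
      (fun z : ((Fin k × Fin d → (Fin d → ℝ)) × (Fin k × Fin d → ℝ)) × (Fin d → ℝ) =>
        aff z.1.1 z.1.2 j z.2) := by
    intro j
    unfold aff
    refine Continuous.add ?_ ?_
    · exact (continuous_apply j).comp (continuous_snd.comp continuous_fst)
    · exact dot_cont ((continuous_apply j).comp (continuous_fst.comp continuous_fst))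
        continuous_snd
  have hlc : ∀ j : Fin k × Fin d, Continuous
      (fun z : ((Fin k × Fin d → (Fin d → ℝ)) × (Fin k × Fin d → ℝ)) × (Fin d → ℝ) =>
        z.1.1 j ⬝ᵥ z.2) := by
    intro j
    exact dot_cont ((continuous_apply j).comp (continuous_fst.comp continuous_fst))
        continuous_snd
  have key := stab (V := Fin d → ℝ) (ι := Fin k)
    (P := (Fin k × Fin d → (Fin d → ℝ)) × (Fin k × Fin d → ℝ))
    (fun p i => qf Prod.fst 1 (aff p.1 p.2) i)
    (fun p i => Df Prod.fst 1 (aff p.1 p.2) (lin p.1) i)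
    (fun p i => Cf Prod.fst 1 (lin p.1) i)
    (fun p i x v s => qf_line _ _ _ _ (fun j x v => aff_add p.1 p.2 j x v) i x v s)
    (fun p i x v s => Df_line _ _ _ _ (fun j x v => aff_add p.1 p.2 j x v) i x v s)
    ?_ ?_ ?_ ?_ ?_ p0 B U hBc hBconv hne hU ?_ reset0
  · exact key
  · intro i
    unfold qf
    refine continuous_finsetSum _ (fun j _ => ?_)
    exact (continuous_const.mul ((hac j).pow 2)).div_const 2
  · intro i
    unfold Df
    refine continuous_finsetSum _ (fun j _ => ?_)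
    refine (continuous_const.mul ((hac j).comp
      (continuous_fst.prodMk (continuous_fst.comp continuous_snd)))).mul ?_
    exact (hlc j).comp (continuous_fst.prodMk (continuous_snd.comp continuous_snd))
  · intro i
    unfold Cf
    refine continuous_finsetSum _ (fun j _ => ?_)
    exact continuous_const.mul ((hlc j).pow 2)
  · intro p i x v s
    unfold Df
    rw [Finset.mul_sum]
    refine Finset.sum_congr rfl (fun j _ => ?_)
    rw [map_smul, smul_eq_mul]; ring
  · intro p i v s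
    unfold Cf
    rw [Finset.mul_sum]
    refine Finset.sum_congr rfl (fun j _ => ?_)
    rw [map_smul, smul_eq_mul]; ring
  · intro z hz v hv
    refine lt_of_eq_of_lt ?_ (KI0 z hz v hv)
    refine Finset.sum_congr rfl (fun i _ => ?_)
    unfold Df Cf
    rw [own_sum, own_sum]
    congr 2
    · congr 1
      refine Finset.sum_congr rfl (fun j _ => ?_)
      show (1:ℝ) * _ * _ = _
      rw [one_mul]; rfl
    · refine Finset.sum_congr rfl (fun j _ => ?_)
      show (1:ℝ) * _ = _
      rw [one_mul]; rfl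

/-! ### The base system -/

section
variable {m : ℕ}

/-- indices of the deep coordinates -/
def tj (j : Fin m) : Fin (m + 2) := j.castSucc.castSucc
/-- index of the coordinate of `β` -/
def mu : Fin (m + 2) := (Fin.last m).castSucc
/-- index of the coordinate of `γ` -/
def nu : Fin (m + 2) := Fin.last (m + 1)

lemma sum_split (f : Fin (m + 2) → ℝ) : ∑ j, f j = ∑ j : Fin m, f (tj j) + f mu + f nu := by
  rw [Fin.sum_univ_castSucc, Fin.sum_univ_castSucc]; rfl

noncomputable def av (w : Fin (m + 2) → ℝ) : ℝ := ∑ j : Fin m, (w (tj j)) ^ 2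
noncomputable def ua (w : Fin (m + 2) → ℝ) : ℝ := 99/100 - w mu - w nu
noncomputable def ub (w : Fin (m + 2) → ℝ) : ℝ := 99/100 + w mu
noncomputable def uc (w : Fin (m + 2) → ℝ) : ℝ := 99/100 + w nu

lemma u_sum (w : Fin (m + 2) → ℝ) : ua w + ub w + uc w = 3 * (99/100) := by
  unfold ua ub uc; ring

lemma av_nonneg (w : Fin (m + 2) → ℝ) : 0 ≤ av w := Finset.sum_nonneg (fun j _ => sq_nonneg _)

/-- build a point from deep coordinates and the values of `ub`, `uc` -/
noncomputable def mkp (f : Fin m → ℝ) (y t : ℝ) : Fin (m + 2) → ℝ :=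
  Fin.snoc (Fin.snoc f (y - 99/100) : Fin (m + 1) → ℝ) (t - 99/100)

@[simp] lemma mkp_tj (f : Fin m → ℝ) (y t : ℝ) (j : Fin m) : mkp f y t (tj j) = f j := by
  unfold mkp tj; rw [Fin.snoc_castSucc, Fin.snoc_castSucc]
@[simp] lemma mkp_mu (f : Fin m → ℝ) (y t : ℝ) : mkp f y t mu = y - 99/100 := by
  unfold mkp mu; rw [Fin.snoc_castSucc, Fin.snoc_last]
@[simp] lemma mkp_nu (f : Fin m → ℝ) (y t : ℝ) : mkp f y t nu = t - 99/100 := by
  unfold mkp nu; rw [Fin.snoc_last]

lemma mkp_av (f : Fin m → ℝ) (y t : ℝ) : av (mkp f y t) = ∑ j, (f j) ^ 2 := by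
  unfold av; simp
lemma mkp_ub (f : Fin m → ℝ) (y t : ℝ) : ub (mkp f y t) = y := by unfold ub; simp
lemma mkp_uc (f : Fin m → ℝ) (y t : ℝ) : uc (mkp f y t) = t := by unfold uc; simp
lemma mkp_ua (f : Fin m → ℝ) (y t : ℝ) : ua (mkp f y t) = 3 * (99/100) - y - t := by
  unfold ua; simp; ring

lemma cont_av : Continuous (av : (Fin (m + 2) → ℝ) → ℝ) := by unfold av; fun_prop
lemma cont_ua : Continuous (ua : (Fin (m + 2) → ℝ) → ℝ) := by unfold ua; fun_prop
lemma cont_ub : Continuous (ub : (Fin (m + 2) → ℝ) → ℝ) := by unfold ub; fun_prop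
lemma cont_uc : Continuous (uc : (Fin (m + 2) → ℝ) → ℝ) := by unfold uc; fun_prop

/-- the boxes -/
def BB (c e1 e2 e3 : ℝ) : Set (Fin (m + 2) → ℝ) :=
  {w | av w ≤ 1/1000 ∧ |ua w - c| ≤ e1 ∧ |ub w - c| ≤ e2 ∧ |uc w - c| ≤ e3}

def UU (c e1 e2 e3 : ℝ) : Set (Fin (m + 2) → ℝ) :=
  {w | av w < 1/1000 ∧ |ua w - c| < e1 ∧ |ub w - c| < e2 ∧ |uc w - c| < e3}

lemma UU_sub (c e1 e2 e3 : ℝ) : UU (m := m) c e1 e2 e3 ⊆ BB c e1 e2 e3 :=
  fun _ hw => ⟨hw.1.le, hw.2.1.le, hw.2.2.1.le, hw.2.2.2.le⟩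

lemma UU_open (c e1 e2 e3 : ℝ) : IsOpen (UU (m := m) c e1 e2 e3) := by
  refine (isOpen_lt cont_av continuous_const).inter
    ((isOpen_lt (cont_ua.sub continuous_const).abs continuous_const).inter
    ((isOpen_lt (cont_ub.sub continuous_const).abs continuous_const).inter
    (isOpen_lt (cont_uc.sub continuous_const).abs continuous_const)))

lemma BB_closed (c e1 e2 e3 : ℝ) : IsClosed (BB (m := m) c e1 e2 e3) := by
  refine (isClosed_le cont_av continuous_const).inter
    ((isClosed_le (cont_ua.sub continuous_const).abs continuous_const).inter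
    ((isClosed_le (cont_ub.sub continuous_const).abs continuous_const).inter
    (isClosed_le (cont_uc.sub continuous_const).abs continuous_const)))

lemma fin_cases' (P : Fin (m + 2) → Prop) (h1 : ∀ j : Fin m, P (tj j)) (h2 : P mu) (h3 : P nu) :
    ∀ l, P l := by
  intro l
  refine Fin.lastCases h3 (fun l => ?_) l
  exact Fin.lastCases h2 (fun l => h1 l) l

lemma BB_bdd (c e1 e2 e3 : ℝ) (w : Fin (m + 2) → ℝ) (hw : w ∈ BB c e1 e2 e3) :
    ∀ l, |w l| ≤ |c| + |e2| + |e3| + 1 := by
  apply fin_cases' (P := fun l => |w l| ≤ |c| + |e2| + |e3| + 1)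
  · intro j
    have h1 : (w (tj j)) ^ 2 ≤ av w :=
      Finset.single_le_sum (f := fun j => (w (tj j)) ^ 2) (fun _ _ => sq_nonneg _)
        (Finset.mem_univ j)
    have h2 : (w (tj j)) ^ 2 ≤ 1 := by linarith [hw.1]
    have h3 : |w (tj j)| ≤ 1 := by
      rw [← sq_abs] at h2
      nlinarith [abs_nonneg (w (tj j))]
    have := abs_nonneg c
    have := abs_nonneg e2
    have := abs_nonneg e3
    linarith
  · have h1 := hw.2.2.1
    unfold ub at h1
    have h2 : |w mu| ≤ |99/100 + w mu - c| + |c| + 99/100 := by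
      have e : w mu = (99/100 + w mu - c) + c + (-(99/100)) := by ring
      calc |w mu| = |(99/100 + w mu - c) + c + (-(99/100))| := by rw [← e]
        _ ≤ |(99/100 + w mu - c) + c| + |(-(99/100:ℝ))| := abs_add_le _ _
        _ ≤ |99/100 + w mu - c| + |c| + |(-(99/100:ℝ))| := by
            linarith [abs_add_le (99/100 + w mu - c) c]
        _ = _ := by norm_num
    have := le_abs_self e2
    have := abs_nonneg e3
    linarith
  · have h1 := hw.2.2.2
    unfold uc at h1
    have h2 : |w nu| ≤ |99/100 + w nu - c| + |c| + 99/100 := by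
      have e : w nu = (99/100 + w nu - c) + c + (-(99/100)) := by ring
      calc |w nu| = |(99/100 + w nu - c) + c + (-(99/100))| := by rw [← e]
        _ ≤ |(99/100 + w nu - c) + c| + |(-(99/100:ℝ))| := abs_add_le _ _
        _ ≤ |99/100 + w nu - c| + |c| + |(-(99/100:ℝ))| := by
            linarith [abs_add_le (99/100 + w nu - c) c]
        _ = _ := by norm_num
    have := le_abs_self e3
    have := abs_nonneg e2
    linarith

lemma BB_compact (c e1 e2 e3 : ℝ) : IsCompact (BB (m := m) c e1 e2 e3) := by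
  have hsub : BB (m := m) c e1 e2 e3 ⊆ Set.Icc (fun _ => -(|c| + |e2| + |e3| + 1))
      (fun _ => |c| + |e2| + |e3| + 1) := by
    intro w hw
    have hall := BB_bdd c e1 e2 e3 w hw
    exact ⟨fun l => (abs_le.mp (hall l)).1, fun l => (abs_le.mp (hall l)).2⟩
  exact isCompact_Icc.of_isClosed_subset (BB_closed c e1 e2 e3) hsub

lemma abs_conv (a b x y c e : ℝ) (ha : 0 ≤ a) (hb : 0 ≤ b) (hab : a + b = 1) (hx : |x - c| ≤ e)
    (hy : |y - c| ≤ e) : |a * x + b * y - c| ≤ e := by
  have e1 : a * x + b * y - c = a * (x - c) + b * (y - c) := by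
    have : c = a * c + b * c := by rw [← add_mul, hab, one_mul]
    linarith
  rw [e1]
  calc |a * (x - c) + b * (y - c)| ≤ |a * (x - c)| + |b * (y - c)| := abs_add_le _ _
    _ = a * |x - c| + b * |y - c| := by rw [abs_mul, abs_mul, abs_of_nonneg ha, abs_of_nonneg hb]
    _ ≤ a * e + b * e := add_le_add (mul_le_mul_of_nonneg_left hx ha) (mul_le_mul_of_nonneg_left hy hb)
    _ = e := by rw [← add_mul, hab, one_mul]

lemma BB_convex (c e1 e2 e3 : ℝ) : Convex ℝ (BB (m := m) c e1 e2 e3) := by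
  intro x hx y hy a b ha hb hab
  have hb' : b = 1 - a := by linarith
  refine ⟨?_, ?_, ?_, ?_⟩
  · have h1 : av (a • x + b • y) ≤ a * av x + b * av y := by
      unfold av
      rw [Finset.mul_sum, Finset.mul_sum, ← Finset.sum_add_distrib]
      refine Finset.sum_le_sum (fun j _ => ?_)
      simp only [Pi.add_apply, Pi.smul_apply, smul_eq_mul]
      subst hb'
      nlinarith [mul_nonneg (mul_nonneg ha hb) (sq_nonneg (x (tj j) - y (tj j)))]
    calc av (a • x + b • y) ≤ a * av x + b * av y := h1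
      _ ≤ a * (1/1000) + b * (1/1000) :=
        add_le_add (mul_le_mul_of_nonneg_left hx.1 ha) (mul_le_mul_of_nonneg_left hy.1 hb)
      _ = 1/1000 := by rw [← add_mul, hab, one_mul]
  · have : ua (a • x + b • y) = a * ua x + b * ua y := by
      unfold ua; simp only [Pi.add_apply, Pi.smul_apply, smul_eq_mul]; subst hb'; ring
    rw [this]; exact abs_conv _ _ _ _ _ _ ha hb hab hx.2.1 hy.2.1
  · have : ub (a • x + b • y) = a * ub x + b * ub y := by
      unfold ub; simp only [Pi.add_apply, Pi.smul_apply, smul_eq_mul]; subst hb'; ring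
    rw [this]; exact abs_conv _ _ _ _ _ _ ha hb hab hx.2.2.1 hy.2.2.1
  · have : uc (a • x + b • y) = a * uc x + b * uc y := by
      unfold uc; simp only [Pi.add_apply, Pi.smul_apply, smul_eq_mul]; subst hb'; ring
    rw [this]; exact abs_conv _ _ _ _ _ _ ha hb hab hx.2.2.2 hy.2.2.2

end

end Pool.Agent.Helper794.Modes
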