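import Pool.Agent.Helper794.Modes.Base

open Finset Filter Topology Matrix

namespace Pool.Agent.Helper794.Modes

variable {k m : ℕ}

lemma sum3 (f : Fin (k+3) → ℝ) : ∑ i, f i
    = f 0 + (f (Fin.succ 0) + (f (Fin.succ (Fin.succ 0)) + ∑ i : Fin k, f i.succ.succ.succ)) := by
  rw [Fin.sum_univ_succ, Fin.sum_univ_succ, Fin.sum_univ_succ]

/-- the limit system -/
structure IsBase
    (p : (Fin (k+3) × Fin (m+2) → (Fin (m+2) → ℝ)) × (Fin (k+3) × Fin (m+2) → ℝ)) (Λ : ℝ) :
    Prop where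
  A0t : ∀ (j : Fin m) v, p.1 (0, tj j) ⬝ᵥ v = v (tj j)
  C0t : ∀ j : Fin m, p.2 (0, tj j) = 0
  A0m : ∀ v, p.1 (0, mu) ⬝ᵥ v = -(v mu + v nu)
  C0m : p.2 (0, mu) = 99/100
  A0n : ∀ v, p.1 (0, nu) ⬝ᵥ v = 0
  C0n : (p.2 (0, nu))^2 = Λ
  A10 : ∀ v, p.1 (Fin.succ 0, 0) ⬝ᵥ v = v mu
  C10 : p.2 (Fin.succ 0, 0) = 99/100
  A1s : ∀ (j : Fin (m+1)) v, p.1 (Fin.succ 0, j.succ) ⬝ᵥ v = 0
  C1s : ∑ j : Fin (m+1), (p.2 (Fin.succ 0, j.succ))^2 = Λ
  A20 : ∀ v, p.1 (Fin.succ (Fin.succ 0), 0) ⬝ᵥ v = v nu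
  C20 : p.2 (Fin.succ (Fin.succ 0), 0) = 99/100
  A2s : ∀ (j : Fin (m+1)) v, p.1 (Fin.succ (Fin.succ 0), j.succ) ⬝ᵥ v = 0
  C2s : ∑ j : Fin (m+1), (p.2 (Fin.succ (Fin.succ 0), j.succ))^2 = Λ
  Ai : ∀ (i : Fin k) j v, p.1 (i.succ.succ.succ, j) ⬝ᵥ v = 0

variable {p : (Fin (k+3) × Fin (m+2) → (Fin (m+2) → ℝ)) × (Fin (k+3) × Fin (m+2) → ℝ)} {Λ : ℝ}

lemma base_q0 (hb : IsBase p Λ) (w : Fin (m+2) → ℝ) :
    qf Prod.fst 1 (aff p.1 p.2) 0 w = (av w + (ua w)^2)/2 + Λ/2 := by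
  unfold qf
  rw [own_sum, sum_split]
  simp only [aff, hb.A0t, hb.C0t, hb.A0m, hb.C0m, hb.A0n, Pi.one_apply, zero_add, add_zero, one_mul,
    hb.C0n]
  rw [← Finset.sum_div]
  unfold av ua
  ring

lemma base_q1 (hb : IsBase p Λ) (w : Fin (m+2) → ℝ) :
    qf Prod.fst 1 (aff p.1 p.2) (Fin.succ 0) w = (ub w)^2/2 + Λ/2 := by
  unfold qf
  rw [own_sum, Fin.sum_univ_succ]
  simp only [aff, hb.A10, hb.C10, hb.A1s, Pi.one_apply, add_zero, one_mul]
  rw [← Finset.sum_div, hb.C1s]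
  unfold ub
  ring

lemma base_q2 (hb : IsBase p Λ) (w : Fin (m+2) → ℝ) :
    qf Prod.fst 1 (aff p.1 p.2) (Fin.succ (Fin.succ 0)) w = (uc w)^2/2 + Λ/2 := by
  unfold qf
  rw [own_sum, Fin.sum_univ_succ]
  simp only [aff, hb.A20, hb.C20, hb.A2s, Pi.one_apply, add_zero, one_mul]
  rw [← Finset.sum_div, hb.C2s]
  unfold uc
  ring

lemma base_qi (hb : IsBase p Λ) (i : Fin k) (w : Fin (m+2) → ℝ) :
    qf Prod.fst 1 (aff p.1 p.2) i.succ.succ.succ w
      = qf Prod.fst 1 (aff p.1 p.2) i.succ.succ.succ 0 := by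
  unfold qf
  rw [own_sum, own_sum]
  refine Finset.sum_congr rfl (fun j _ => ?_)
  simp only [aff, hb.Ai]

lemma base_F (hb : IsBase p Λ) (w : Fin (m+2) → ℝ) :
    Fs p w = Real.exp (-(Λ/2)) * G (av w) (ua w) (ub w) (uc w)
      + ∑ i : Fin k, Real.exp (-(qf Prod.fst 1 (aff p.1 p.2) i.succ.succ.succ 0)) := by
  unfold Fs
  rw [Fin.sum_univ_succ, Fin.sum_univ_succ, Fin.sum_univ_succ, base_q0 hb, base_q1 hb, base_q2 hb]
  simp only [base_qi hb _ w]
  unfold G
  have e1 : Real.exp (-((av w + (ua w)^2)/2 + Λ/2))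
      = Real.exp (-(Λ/2)) * Real.exp (-((av w + (ua w)^2)/2)) := by
    rw [← Real.exp_add]; congr 1; ring
  have e2 : ∀ u : ℝ, Real.exp (-(u^2/2 + Λ/2)) = Real.exp (-(Λ/2)) * Real.exp (-(u^2/2)) := by
    intro u; rw [← Real.exp_add]; congr 1; ring
  rw [e1, e2, e2]
  ring

theorem base_box (hb : IsBase p Λ) (c e1 e2 e3 : ℝ)
    (hne : (BB (m := m) c e1 e2 e3).Nonempty)
    (hKI : ∀ z ∈ BB (m := m) c e1 e2 e3, ∀ b cc P Q S : ℝ, 0 ≤ cc → b^2 ≤ av z * cc →
      P + Q + S = 0 → (0 < cc ∨ Q ≠ 0 ∨ S ≠ 0) →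
      Real.exp (-((av z + (ua z)^2)/2)) * ((b + ua z * P)^2 - (cc + P^2))
      + Real.exp (-((ub z)^2/2)) * ((ub z * Q)^2 - Q^2)
      + Real.exp (-((uc z)^2/2)) * ((uc z * S)^2 - S^2) < 0)
    (hreset : ∀ x ∈ BB (m := m) c e1 e2 e3, x ∉ UU c e1 e2 e3 →
      ∃ x' ∈ BB (m := m) c e1 e2 e3, G (av x) (ua x) (ub x) (uc x) < G (av x') (ua x') (ub x') (uc x')) :
    ∀ᶠ p' in 𝓝 p, ∃ x ∈ BB (m := m) c e1 e2 e3, x ∈ UU c e1 e2 e3 ∧
      ∀ y ∈ BB (m := m) c e1 e2 e3, y ≠ x → Fs p' y < Fs p' x := by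
  refine stab_sys p _ _ (BB_compact c e1 e2 e3) (BB_convex c e1 e2 e3) hne (UU_open c e1 e2 e3) ?_ ?_
  · intro z hz v hv
    refine lt_of_eq_of_lt (sum3 _) ?_
    rw [base_q0 hb, base_q1 hb, base_q2 hb]
    have hrest : ∑ i : Fin k, Real.exp (-(qf Prod.fst 1 (aff p.1 p.2) i.succ.succ.succ z)) *
        ((∑ j, aff p.1 p.2 (i.succ.succ.succ, j) z * (p.1 (i.succ.succ.succ, j) ⬝ᵥ v)) ^ 2
          - ∑ j, (p.1 (i.succ.succ.succ, j) ⬝ᵥ v) ^ 2) = 0 := by
      refine Finset.sum_eq_zero (fun i _ => ?_)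
      simp [hb.Ai]
    rw [hrest, add_zero]
    have d0 : ∑ j, aff p.1 p.2 (0, j) z * (p.1 (0, j) ⬝ᵥ v)
        = ∑ j : Fin m, z (tj j) * v (tj j) + ua z * (-(v mu + v nu)) := by
      rw [sum_split]
      simp only [aff, hb.A0t, hb.C0t, hb.A0m, hb.C0m, hb.A0n, zero_add, mul_zero, add_zero]
      unfold ua; ring
    have c0 : ∑ j, (p.1 (0, j) ⬝ᵥ v) ^ 2 = av v + (-(v mu + v nu))^2 := by
      rw [sum_split]
      simp only [hb.A0t, hb.A0m, hb.A0n]
      unfold av; ring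
    have d1 : ∑ j, aff p.1 p.2 (Fin.succ 0, j) z * (p.1 (Fin.succ 0, j) ⬝ᵥ v) = ub z * v mu := by
      rw [Fin.sum_univ_succ]
      simp only [aff, hb.A10, hb.C10, hb.A1s, mul_zero, Finset.sum_const_zero, add_zero]
      unfold ub; ring
    have c1 : ∑ j, (p.1 (Fin.succ 0, j) ⬝ᵥ v) ^ 2 = (v mu)^2 := by
      rw [Fin.sum_univ_succ]
      simp only [hb.A10, hb.A1s]
      simp
    have d2 : ∑ j, aff p.1 p.2 (Fin.succ (Fin.succ 0), j) z * (p.1 (Fin.succ (Fin.succ 0), j) ⬝ᵥ v)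
        = uc z * v nu := by
      rw [Fin.sum_univ_succ]
      simp only [aff, hb.A20, hb.C20, hb.A2s, mul_zero, Finset.sum_const_zero, add_zero]
      unfold uc; ring
    have c2 : ∑ j, (p.1 (Fin.succ (Fin.succ 0), j) ⬝ᵥ v) ^ 2 = (v nu)^2 := by
      rw [Fin.sum_univ_succ]
      simp only [hb.A20, hb.A2s]
      simp
    rw [d0, c0, d1, c1, d2, c2]
    have hcs : (∑ j : Fin m, z (tj j) * v (tj j))^2 ≤ av z * av v := by
      unfold av
      exact Finset.sum_mul_sq_le_sq_mul_sq _ _ _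
    have hnz : 0 < av v ∨ v mu ≠ 0 ∨ v nu ≠ 0 := by
      by_contra hcon
      push Not at hcon
      obtain ⟨h1, h2, h3⟩ := hcon
      apply hv
      have h0 : av v = 0 := le_antisymm h1 (av_nonneg v)
      unfold av at h0
      rw [Finset.sum_eq_zero_iff_of_nonneg (fun j _ => sq_nonneg _)] at h0
      funext l
      refine fin_cases' (P := fun l => v l = 0) ?_ h2 h3 l
      intro j
      exact pow_eq_zero_iff (two_ne_zero) |>.mp (h0 j (Finset.mem_univ j))
    have key := hKI z hz (∑ j : Fin m, z (tj j) * v (tj j)) (av v) (-(v mu + v nu)) (v mu) (v nu)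
      (av_nonneg v) hcs (by ring) hnz
    have hE := Real.exp_pos (-(Λ/2))
    have e1 : Real.exp (-((av z + (ua z)^2)/2 + Λ/2))
        = Real.exp (-(Λ/2)) * Real.exp (-((av z + (ua z)^2)/2)) := by
      rw [← Real.exp_add]; congr 1; ring
    have e2 : ∀ u : ℝ, Real.exp (-(u^2/2 + Λ/2)) = Real.exp (-(Λ/2)) * Real.exp (-(u^2/2)) := by
      intro u; rw [← Real.exp_add]; congr 1; ring
    rw [e1, e2, e2]
    have := mul_neg_of_pos_of_neg hE key
    refine lt_of_eq_of_lt ?_ this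
    ring
  · intro x hx hxU
    obtain ⟨x', hx', hlt⟩ := hreset x hx hxU
    refine ⟨x', hx', ?_⟩
    rw [base_F hb, base_F hb]
    have := mul_lt_mul_of_pos_left hlt (Real.exp_pos (-(Λ/2)))
    linarith

/-- the four maxima of the limit system, and of all nearby systems -/
theorem base_four (hb : IsBase p Λ) :
    ∀ᶠ p' in 𝓝 p,
      (∃ x ∈ UU (m := m) (99/100) (1/1000) (1/1000) (1/1000),
        ∀ y ∈ BB (m := m) (99/100) (1/1000) (1/1000) (1/1000), y ≠ x → Fs p' y < Fs p' x) ∧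
      (∃ x ∈ UU (m := m) 0 100 (3/10) (3/10),
        ∀ y ∈ BB (m := m) 0 100 (3/10) (3/10), y ≠ x → Fs p' y < Fs p' x) ∧
      (∃ x ∈ UU (m := m) 0 (3/10) 100 (3/10),
        ∀ y ∈ BB (m := m) 0 (3/10) 100 (3/10), y ≠ x → Fs p' y < Fs p' x) ∧
      (∃ x ∈ UU (m := m) 0 (3/10) (3/10) 100,
        ∀ y ∈ BB (m := m) 0 (3/10) (3/10) 100, y ≠ x → Fs p' y < Fs p' x) := by
  have hc := base_box hb (99/100) (1/1000) (1/1000) (1/1000)
    ⟨mkp 0 (99/100) (99/100), by rw [mkp_av]; norm_num,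
      by rw [mkp_ua]; norm_num, by rw [mkp_ub]; norm_num, by rw [mkp_uc]; norm_num⟩
    (by
      intro z hz b cc P Q S hcc hb hPQS hne
      exact ki_centre _ b cc _ _ _ P Q S (av_nonneg z) hz.1 hcc hb hz.2.1 hz.2.2.1 hz.2.2.2 hne)
    (by
      intro x hx hxU
      refine ⟨mkp 0 (99/100) (99/100), ⟨by rw [mkp_av]; norm_num,
        by rw [mkp_ua]; norm_num, by rw [mkp_ub]; norm_num, by rw [mkp_uc]; norm_num⟩, ?_⟩
      rw [mkp_av, mkp_ua, mkp_ub, mkp_uc]
      have e0 : ∑ j : Fin m, ((0 : Fin m → ℝ) j)^2 = 0 := by simp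
      have e1 : (3 * (99/100) - 99/100 - 99/100 : ℝ) = 99/100 := by norm_num
      rw [e0, e1]
      refine G_centre _ _ _ _ (av_nonneg x) hx.2.1 hx.2.2.1 hx.2.2.2 (u_sum x) ?_
      by_contra hcon
      push Not at hcon
      obtain ⟨h1, h2, h3, h4⟩ := hcon
      apply hxU
      refine ⟨by linarith, ?_, ?_, ?_⟩
      · rw [h2]; norm_num
      · rw [h3]; norm_num
      · rw [h4]; norm_num)
  have hα := base_box hb 0 100 (3/10) (3/10)
    ⟨mkp 0 0 0, by rw [mkp_av]; norm_num,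
      by rw [mkp_ua]; norm_num [abs_le], by rw [mkp_ub]; norm_num, by rw [mkp_uc]; norm_num⟩
    (by
      intro z hz b cc P Q S hcc hb hPQS hne
      have h1 := hz.2.2.1
      have h2 := hz.2.2.2
      rw [sub_zero] at h1 h2
      have h3 := u_sum z
      exact ki_alpha _ b cc _ _ _ P Q S (av_nonneg z) hz.1 hcc hb
        (by linarith [(abs_le.mp h1).2, (abs_le.mp h2).2]) h1 h2 hPQS hne)
    (by
      intro x hx hxU
      obtain ⟨ha, _, h1, h2⟩ := hx
      rw [sub_zero] at h1 h2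
      have h3 := u_sum x
      have hua : 237/100 ≤ ua x := by linarith [(abs_le.mp h1).2, (abs_le.mp h2).2]
      by_cases c1 : av x < 1/1000
      · by_cases c2 : |ub x| < 3/10
        · by_cases c3 : |uc x| < 3/10
          · exfalso
            apply hxU
            refine ⟨c1, ?_, by rw [sub_zero]; exact c2, by rw [sub_zero]; exact c3⟩
            rw [sub_zero, abs_lt]
            constructor <;> linarith [(abs_le.mp h1).1, (abs_le.mp h2).1, (abs_le.mp h1).2, (abs_le.mp h2).2]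
          · have hq : |uc x| = 3/10 := le_antisymm h2 (not_lt.mp c3)
            refine ⟨mkp (fun j => x (tj j)) (ub x) 0, ⟨by rw [mkp_av]; exact ha, ?_,
              by rw [mkp_ub, sub_zero]; exact h1, by rw [mkp_uc]; norm_num⟩, ?_⟩
            · rw [mkp_ua, sub_zero, abs_le]
              constructor <;> linarith [(abs_le.mp h1).1, (abs_le.mp h1).2]
            · rw [mkp_av, mkp_ua, mkp_ub, mkp_uc]
              have e : 3 * (99/100) - ub x - 0 = ua x + uc x := by linarith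
              rw [e, G_swap (av x), G_swap _ (ua x + uc x)]
              exact G_alpha _ _ _ _ (av_nonneg x) hua hq
        · have hq : |ub x| = 3/10 := le_antisymm h1 (not_lt.mp c2)
          refine ⟨mkp (fun j => x (tj j)) 0 (uc x), ⟨by rw [mkp_av]; exact ha, ?_,
              by rw [mkp_ub]; norm_num, by rw [mkp_uc, sub_zero]; exact h2⟩, ?_⟩
          · rw [mkp_ua, sub_zero, abs_le]
            constructor <;> linarith [(abs_le.mp h2).1, (abs_le.mp h2).2]
          · rw [mkp_av, mkp_ua, mkp_ub, mkp_uc]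
            have e : 3 * (99/100) - 0 - uc x = ua x + ub x := by linarith
            rw [e]
            exact G_alpha _ _ _ _ (av_nonneg x) hua hq
      · refine ⟨mkp 0 (ub x) (uc x), ⟨by rw [mkp_av]; norm_num, ?_,
              by rw [mkp_ub, sub_zero]; exact h1, by rw [mkp_uc, sub_zero]; exact h2⟩, ?_⟩
        · rw [mkp_ua, sub_zero, abs_le]
          constructor <;> linarith [(abs_le.mp h1).1, (abs_le.mp h2).1, (abs_le.mp h1).2, (abs_le.mp h2).2]
        · rw [mkp_av, mkp_ua, mkp_ub, mkp_uc]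
          have e : 3 * (99/100) - ub x - uc x = ua x := by linarith
          have e0 : ∑ j : Fin m, ((0 : Fin m → ℝ) j)^2 = 0 := by simp
          rw [e, e0]
          exact G_tau _ _ _ _ (by linarith))
  have hβ := base_box hb 0 (3/10) 100 (3/10)
    ⟨mkp 0 (3 * (99/100)) 0, by rw [mkp_av]; norm_num,
      by rw [mkp_ua]; norm_num, by rw [mkp_ub]; norm_num [abs_le], by rw [mkp_uc]; norm_num⟩
    (by
      intro z hz b cc P Q S hcc hb hPQS hne
      have h1 := hz.2.1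
      have h2 := hz.2.2.2
      rw [sub_zero] at h1 h2
      have h3 := u_sum z
      exact ki_beta _ b cc _ _ _ P Q S (av_nonneg z) hz.1 hcc hb h1
        (by linarith [(abs_le.mp h1).2, (abs_le.mp h2).2]) h2 hPQS hne)
    (by
      intro x hx hxU
      obtain ⟨ha, h1, _, h2⟩ := hx
      rw [sub_zero] at h1 h2
      have h3 := u_sum x
      have hub : 237/100 ≤ ub x := by linarith [(abs_le.mp h1).2, (abs_le.mp h2).2]
      by_cases c1 : av x < 1/1000
      · by_cases c2 : |ua x| < 3/10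
        · by_cases c3 : |uc x| < 3/10
          · exfalso
            apply hxU
            refine ⟨c1, by rw [sub_zero]; exact c2, ?_, by rw [sub_zero]; exact c3⟩
            rw [sub_zero, abs_lt]
            constructor <;> linarith [(abs_le.mp h1).1, (abs_le.mp h2).1, (abs_le.mp h1).2, (abs_le.mp h2).2]
          · have hq : |uc x| = 3/10 := le_antisymm h2 (not_lt.mp c3)
            refine ⟨mkp (fun j => x (tj j)) (ub x + uc x) 0, ⟨by rw [mkp_av]; exact ha, ?_,
              ?_, by rw [mkp_uc]; norm_num⟩, ?_⟩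
            · rw [mkp_ua, sub_zero, abs_le]
              constructor <;> linarith [(abs_le.mp h1).1, (abs_le.mp h1).2]
            · rw [mkp_ub, sub_zero, abs_le]
              constructor <;> linarith [(abs_le.mp h1).1, (abs_le.mp h1).2]
            · rw [mkp_av, mkp_ua, mkp_ub, mkp_uc]
              have e : 3 * (99/100) - (ub x + uc x) - 0 = ua x := by linarith
              rw [e]
              exact G_beta_gamma _ _ _ _ hub hq
        · have hq : |ua x| = 3/10 := le_antisymm h1 (not_lt.mp c2)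
          refine ⟨mkp (fun j => x (tj j)) (ub x + ua x) (uc x), ⟨by rw [mkp_av]; exact ha, ?_,
              ?_, by rw [mkp_uc, sub_zero]; exact h2⟩, ?_⟩
          · rw [mkp_ua, sub_zero, abs_le]
            constructor <;> linarith [(abs_le.mp h2).1, (abs_le.mp h2).2]
          · rw [mkp_ub, sub_zero, abs_le]
            constructor <;> linarith [(abs_le.mp h2).1, (abs_le.mp h2).2]
          · rw [mkp_av, mkp_ua, mkp_ub, mkp_uc]
            have e : 3 * (99/100) - (ub x + ua x) - uc x = 0 := by linarith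
            rw [e]
            exact G_beta_alpha _ _ _ _ ha hub hq
      · refine ⟨mkp 0 (ub x) (uc x), ⟨by rw [mkp_av]; norm_num, ?_,
              ?_, by rw [mkp_uc, sub_zero]; exact h2⟩, ?_⟩
        · rw [mkp_ua, sub_zero, abs_le]
          constructor <;> linarith [(abs_le.mp h1).1, (abs_le.mp h2).1, (abs_le.mp h1).2, (abs_le.mp h2).2]
        · rw [mkp_ub, sub_zero, abs_le]
          constructor <;> linarith [(abs_le.mp h1).1, (abs_le.mp h2).1, (abs_le.mp h1).2, (abs_le.mp h2).2]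
        · rw [mkp_av, mkp_ua, mkp_ub, mkp_uc]
          have e : 3 * (99/100) - ub x - uc x = ua x := by linarith
          have e0 : ∑ j : Fin m, ((0 : Fin m → ℝ) j)^2 = 0 := by simp
          rw [e, e0]
          exact G_tau _ _ _ _ (by linarith))
  have hγ := base_box hb 0 (3/10) (3/10) 100
    ⟨mkp 0 0 (3 * (99/100)), by rw [mkp_av]; norm_num,
      by rw [mkp_ua]; norm_num, by rw [mkp_ub]; norm_num, by rw [mkp_uc]; norm_num [abs_le]⟩
    (by
      intro z hz b cc P Q S hcc hb hPQS hne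
      have h1 := hz.2.1
      have h2 := hz.2.2.1
      rw [sub_zero] at h1 h2
      have h3 := u_sum z
      have hne' : 0 < cc ∨ S ≠ 0 ∨ Q ≠ 0 := by tauto
      have := ki_beta _ b cc _ (uc z) (ub z) P S Q (av_nonneg z) hz.1 hcc hb h1
        (by linarith [(abs_le.mp h1).2, (abs_le.mp h2).2]) h2 (by linarith) hne'
      linarith)
    (by
      intro x hx hxU
      obtain ⟨ha, h1, h2, _⟩ := hx
      rw [sub_zero] at h1 h2
      have h3 := u_sum x
      have huc : 237/100 ≤ uc x := by linarith [(abs_le.mp h1).2, (abs_le.mp h2).2]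
      by_cases c1 : av x < 1/1000
      · by_cases c2 : |ua x| < 3/10
        · by_cases c3 : |ub x| < 3/10
          · exfalso
            apply hxU
            refine ⟨c1, by rw [sub_zero]; exact c2, by rw [sub_zero]; exact c3, ?_⟩
            rw [sub_zero, abs_lt]
            constructor <;> linarith [(abs_le.mp h1).1, (abs_le.mp h2).1, (abs_le.mp h1).2, (abs_le.mp h2).2]
          · have hq : |ub x| = 3/10 := le_antisymm h2 (not_lt.mp c3)
            refine ⟨mkp (fun j => x (tj j)) 0 (uc x + ub x), ⟨by rw [mkp_av]; exact ha, ?_,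
              by rw [mkp_ub]; norm_num, ?_⟩, ?_⟩
            · rw [mkp_ua, sub_zero, abs_le]
              constructor <;> linarith [(abs_le.mp h1).1, (abs_le.mp h1).2]
            · rw [mkp_uc, sub_zero, abs_le]
              constructor <;> linarith [(abs_le.mp h1).1, (abs_le.mp h1).2]
            · rw [mkp_av, mkp_ua, mkp_ub, mkp_uc]
              have e : 3 * (99/100) - 0 - (uc x + ub x) = ua x := by linarith
              rw [e, G_swap _ _ (ub x), G_swap _ _ 0]
              exact G_beta_gamma _ _ _ _ huc hq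
        · have hq : |ua x| = 3/10 := le_antisymm h1 (not_lt.mp c2)
          refine ⟨mkp (fun j => x (tj j)) (ub x) (uc x + ua x), ⟨by rw [mkp_av]; exact ha, ?_,
              by rw [mkp_ub, sub_zero]; exact h2, ?_⟩, ?_⟩
          · rw [mkp_ua, sub_zero, abs_le]
            constructor <;> linarith [(abs_le.mp h2).1, (abs_le.mp h2).2]
          · rw [mkp_uc, sub_zero, abs_le]
            constructor <;> linarith [(abs_le.mp h2).1, (abs_le.mp h2).2]
          · rw [mkp_av, mkp_ua, mkp_ub, mkp_uc]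
            have e : 3 * (99/100) - ub x - (uc x + ua x) = 0 := by linarith
            rw [e, G_swap _ _ (ub x), G_swap _ _ (ub x)]
            exact G_beta_alpha _ _ _ _ ha huc hq
      · refine ⟨mkp 0 (ub x) (uc x), ⟨by rw [mkp_av]; norm_num, ?_,
              by rw [mkp_ub, sub_zero]; exact h2, ?_⟩, ?_⟩
        · rw [mkp_ua, sub_zero, abs_le]
          constructor <;> linarith [(abs_le.mp h1).1, (abs_le.mp h2).1, (abs_le.mp h1).2, (abs_le.mp h2).2]
        · rw [mkp_uc, sub_zero, abs_le]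
          constructor <;> linarith [(abs_le.mp h1).1, (abs_le.mp h2).1, (abs_le.mp h1).2, (abs_le.mp h2).2]
        · rw [mkp_av, mkp_ua, mkp_ub, mkp_uc]
          have e : 3 * (99/100) - ub x - uc x = ua x := by linarith
          have e0 : ∑ j : Fin m, ((0 : Fin m → ℝ) j)^2 = 0 := by simp
          rw [e, e0]
          exact G_tau _ _ _ _ (by linarith))
  filter_upwards [hc, hα, hβ, hγ] with p' h1 h2 h3 h4
  obtain ⟨x1, _, hx1, hm1⟩ := h1
  obtain ⟨x2, _, hx2, hm2⟩ := h2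
  obtain ⟨x3, _, hx3, hm3⟩ := h3
  obtain ⟨x4, _, hx4, hm4⟩ := h4
  exact ⟨⟨x1, hx1, hm1⟩, ⟨x2, hx2, hm2⟩, ⟨x3, hx3, hm3⟩, ⟨x4, hx4, hm4⟩⟩

end Pool.Agent.Helper794.Modes
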