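import Pool.Agent.Helper794.Modes.Lower

open Finset Filter Topology Matrix Polynomial

namespace Pool.Agent.Helper794.Modes

/-- the constants: `0` on the special functionals, `1` on the others -/
noncomputable def cz {J : Type*} [DecidableEq J] (Sp : Finset J) : J → ℝ :=
  fun n => if n ∈ Sp then 0 else 1

section
variable {J : Type*} [Fintype J] [DecidableEq J] (Sp : Finset J)

noncomputable def nd (n : J) : ℝ :=
  if n ∈ Sp then 1 / (((Fintype.equivFin J n).val : ℝ) + 1) else ((Fintype.equivFin J n).val : ℝ) + 2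

lemma nd_pos (n : J) : 0 < nd Sp n := by
  unfold nd; split_ifs <;> positivity

lemma nd_le (n : J) (hn : n ∈ Sp) : nd Sp n ≤ 1 := by
  unfold nd; rw [if_pos hn, div_le_one (by positivity)]
  have : (0:ℝ) ≤ ((Fintype.equivFin J n).val : ℝ) := by positivity
  linarith

lemma nd_ge (n : J) (hn : n ∉ Sp) : 2 ≤ nd Sp n := by
  unfold nd; rw [if_neg hn]
  have : (0:ℝ) ≤ ((Fintype.equivFin J n).val : ℝ) := by positivity
  linarith

lemma nd_inj : Function.Injective (nd Sp) := by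
  intro a b hab
  have key : ((Fintype.equivFin J a).val : ℝ) = ((Fintype.equivFin J b).val : ℝ) → a = b := by
    intro h
    have h2 : (Fintype.equivFin J a).val = (Fintype.equivFin J b).val := by exact_mod_cast h
    exact (Fintype.equivFin J).injective (Fin.ext h2)
  by_cases ha : a ∈ Sp
  · by_cases hb : b ∈ Sp
    · unfold nd at hab
      rw [if_pos ha, if_pos hb, div_eq_div_iff (by positivity) (by positivity)] at hab
      exact key (by linarith)
    · have h1 := nd_le Sp a ha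
      have h2 := nd_ge Sp b hb
      linarith
  · by_cases hb : b ∈ Sp
    · have h1 := nd_le Sp b hb
      have h2 := nd_ge Sp a ha
      linarith
    · unfold nd at hab
      rw [if_neg ha, if_neg hb] at hab
      exact key (by linarith)

/-- node vectors -/
noncomputable def nv (d : ℕ) (n : J) : Fin d → ℝ := fun l => nd Sp n ^ (l.val + 1)

lemma nv_dot (d : ℕ) (n : J) (v : Fin d → ℝ) :
    nv Sp d n ⬝ᵥ v = nd Sp n * ∑ i : Fin d, nd Sp n ^ (i : ℕ) * v i := by
  unfold nv dotProduct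
  rw [Finset.mul_sum]
  refine Finset.sum_congr rfl (fun i _ => ?_)
  ring

lemma nv_gp (d : ℕ) (H : Finset J) (hH : H.card = d) (v : Fin d → ℝ)
    (h : ∀ n ∈ H, nv Sp d n ⬝ᵥ v = 0) : v = 0 := by
  refine vand (nd Sp) (nd_inj Sp) H hH v ?_
  intro j hj
  have := h j hj
  rw [nv_dot, mul_eq_zero] at this
  rcases this with h1 | h1
  · exact absurd h1 (nd_pos Sp j).ne'
  · exact h1

/-- the relation between the special vectors -/
lemma exists_rel (d : ℕ) (hSp : Sp.card = d + 1) :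
    ∃ g : J → ℝ, (∀ n ∈ Sp, g n ≠ 0) ∧ ∑ n ∈ Sp, g n • nv Sp d n = 0 := by
  have hne : Sp.Nonempty := by
    rw [← Finset.card_pos, hSp]; omega
  obtain ⟨α, hα⟩ := hne
  have hcard : (Sp.erase α).card = d := by rw [Finset.card_erase_of_mem hα, hSp]; rfl
  obtain ⟨e, he, hspan⟩ := exists_dual (nv Sp d) (Sp.erase α) hcard (nv_gp Sp d _ hcard)
  refine ⟨fun n => if n = α then -1 else nv Sp d α ⬝ᵥ e n, ?_, ?_⟩
  · intro n hn
    by_cases hnα : n = α
    · simp [hnα]
    · simp only [hnα, if_false]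
      intro h0
      have hnE : n ∈ Sp.erase α := Finset.mem_erase.mpr ⟨hnα, hn⟩
      have hcn : (Sp.erase n).card = d := by rw [Finset.card_erase_of_mem hn, hSp]; rfl
      have hz : e n = 0 := by
        apply nv_gp Sp d (Sp.erase n) hcn
        intro n' hn'
        obtain ⟨h1, h2⟩ := Finset.mem_erase.mp hn'
        by_cases h3 : n' = α
        · rw [h3]; exact h0
        · rw [he n' (Finset.mem_erase.mpr ⟨h3, h2⟩) n hnE, if_neg h1]
      have := he n hnE n hnE
      rw [hz, if_pos rfl] at this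
      simp at this
  · have hsum : ∑ n ∈ Sp.erase α, (nv Sp d α ⬝ᵥ e n) • nv Sp d n = nv Sp d α := by
      have h1 : ∀ v : Fin d → ℝ, (∑ n ∈ Sp.erase α, (nv Sp d α ⬝ᵥ e n) • nv Sp d n) ⬝ᵥ v
          = nv Sp d α ⬝ᵥ v := by
        intro v
        conv_rhs => rw [hspan v]
        rw [sum_dotProduct, dotProduct_sum]
        refine Finset.sum_congr rfl (fun n _ => ?_)
        rw [smul_dotProduct, dotProduct_smul, smul_eq_mul, smul_eq_mul]
        ring
      funext l
      have := h1 (Pi.single l 1)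
      rwa [dotProduct_single, dotProduct_single, mul_one, mul_one] at this
    rw [← Finset.add_sum_erase Sp _ hα]
    simp only [if_true]
    have h2 : ∑ x ∈ Sp.erase α, (if x = α then (-1:ℝ) else nv Sp d α ⬝ᵥ e x) • nv Sp d x
        = ∑ n ∈ Sp.erase α, (nv Sp d α ⬝ᵥ e n) • nv Sp d n := by
      refine Finset.sum_congr rfl (fun n hn => ?_)
      rw [if_neg (Finset.mem_erase.mp hn).1]
    rw [h2, hsum]
    simp

lemma phi_ne (n : J) (hn : n ∉ Sp) : ∏ n' ∈ Sp, (nd Sp n - nd Sp n') ≠ 0 := by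
  rw [Finset.prod_ne_zero_iff]
  intro n' hn'
  rw [sub_ne_zero]
  intro h
  have := nd_inj Sp h
  rw [this] at hn
  exact hn hn'

/-- product comparison -/
lemma prod_lt (S : Finset J) (hcard : S.card = Sp.card) (hne : ¬ S ⊆ Sp) :
    ∏ n ∈ Sp, nd Sp n < ∏ n ∈ S, nd Sp n := by
  have h1 : ∏ n ∈ Sp, nd Sp n = (∏ n ∈ Sp \ S, nd Sp n) * ∏ n ∈ Sp ∩ S, nd Sp n := by
    rw [mul_comm]; exact (Finset.prod_inter_mul_prod_sdiff _ _ _).symm
  have h2 : ∏ n ∈ S, nd Sp n = (∏ n ∈ S \ Sp, nd Sp n) * ∏ n ∈ Sp ∩ S, nd Sp n := by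
    rw [mul_comm, Finset.inter_comm]; exact (Finset.prod_inter_mul_prod_sdiff _ _ _).symm
  rw [h1, h2]
  have hpos : 0 < ∏ n ∈ Sp ∩ S, nd Sp n := Finset.prod_pos (fun n _ => nd_pos Sp n)
  refine mul_lt_mul_of_pos_right ?_ hpos
  have h3 : ∏ n ∈ Sp \ S, nd Sp n ≤ 1 :=
    Finset.prod_le_one (fun n _ => (nd_pos Sp n).le)
      (fun n hn => nd_le Sp n (Finset.mem_sdiff.mp hn).1)
  have h4 : 1 < ∏ n ∈ S \ Sp, nd Sp n := by
    obtain ⟨n0, hn0, hn0'⟩ := Finset.not_subset.mp hne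
    have hmem : n0 ∈ S \ Sp := Finset.mem_sdiff.mpr ⟨hn0, hn0'⟩
    rw [← Finset.mul_prod_erase _ _ hmem]
    have h5 : 1 ≤ ∏ n ∈ (S \ Sp).erase n0, nd Sp n := by
      apply Finset.one_le_prod
      intro n hn
      have := nd_ge Sp n (Finset.mem_sdiff.mp (Finset.mem_erase.mp hn).2).2
      linarith
    have h6 := nd_ge Sp n0 hn0'
    nlinarith
  linarith

lemma prod_neg_nd (S : Finset J) : ∏ n ∈ S, (0 - nd Sp n) = (-1) ^ S.card * ∏ n ∈ S, nd Sp n := by
  rw [← Finset.prod_const, ← Finset.prod_mul_distrib]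
  exact Finset.prod_congr rfl (fun n _ => by ring)

lemma deg_prod (S : Finset J) :
    (∏ n ∈ S, (X - C (nd Sp n)) : ℝ[X]).degree = ((S.card : ℕ) : WithBot ℕ) := by
  have hm : (∏ n ∈ S, (X - C (nd Sp n))).Monic := monic_prod_X_sub_C (nd Sp) S
  rw [Polynomial.degree_eq_natDegree hm.ne_zero,
    Polynomial.natDegree_prod_of_monic _ _ (fun n _ => monic_X_sub_C _)]
  simp

/-- The polynomial argument: if the values of `x ↦ ∑ x_l t^(l+1)` agree with `∏ (t - t_n')` at
`d+1` nodes, these are the special ones. -/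
lemma poly_arg (d : ℕ) (hSp : Sp.card = d + 1) (S : Finset J) (hS : S.card = d + 1)
    (hne : ¬ S ⊆ Sp) (x : Fin d → ℝ)
    (h : ∀ n ∈ S, nv Sp d n ⬝ᵥ x = ∏ n' ∈ Sp, (nd Sp n - nd Sp n')) : False := by
  set f : ℝ[X] := ∏ n ∈ Sp, (X - C (nd Sp n)) with hf
  set θ : ℝ[X] := ∏ n ∈ S, (X - C (nd Sp n)) with hθ
  set P : ℝ[X] := ∑ i : Fin (d + 1), C ((Fin.cons 0 x : Fin (d + 1) → ℝ) i) * X ^ (i : ℕ) with hP
  have hPeval : ∀ t : ℝ, P.eval t = ∑ i : Fin d, t ^ ((i : ℕ) + 1) * x i := by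
    intro t
    rw [hP, eval_finsetSum, Fin.sum_univ_succ]
    simp only [eval_mul, eval_C, eval_pow, eval_X, Fin.cons_zero, zero_mul, zero_add, Fin.cons_succ,
      Fin.val_succ]
    exact Finset.sum_congr rfl (fun i _ => by ring)
  have hPdeg : P.degree < ((d + 1 : ℕ) : WithBot ℕ) := degree_sum_fin_lt _
  have hfm : f.Monic := monic_prod_X_sub_C (nd Sp) Sp
  have hθm : θ.Monic := monic_prod_X_sub_C (nd Sp) S
  have hfd : f.degree = ((d + 1 : ℕ) : WithBot ℕ) := by rw [hf, deg_prod, hSp]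
  have hθd : θ.degree = ((d + 1 : ℕ) : WithBot ℕ) := by rw [hθ, deg_prod, hS]
  have h1 : (f - θ).degree < ((d + 1 : ℕ) : WithBot ℕ) := by
    rw [← hfd]
    exact degree_sub_lt_left (by rw [hfd, hθd]) hfm.ne_zero (by rw [hfm.leadingCoeff, hθm.leadingCoeff])
  have h2 : ((f - P) - θ).degree < ((d + 1 : ℕ) : WithBot ℕ) := by
    have : (f - P) - θ = (f - θ) - P := by ring
    rw [this]
    exact lt_of_le_of_lt (degree_sub_le _ _) (max_lt h1 hPdeg)
  have hcard : (S.image (nd Sp)).card = d + 1 := by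
    rw [Finset.card_image_of_injective _ (nd_inj Sp), hS]
  have heq : f - P = θ := by
    refine eq_of_degree_sub_lt_of_eval_finset_eq (S.image (nd Sp)) ?_ ?_
    · rw [hcard]; exact h2
    · intro t ht
      obtain ⟨n, hn, rfl⟩ := Finset.mem_image.mp ht
      have e1 : θ.eval (nd Sp n) = 0 := by
        rw [hθ, eval_prod]
        refine Finset.prod_eq_zero hn ?_
        simp
      have e2 : f.eval (nd Sp n) = ∏ n' ∈ Sp, (nd Sp n - nd Sp n') := by
        rw [hf, eval_prod]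
        simp
      rw [eval_sub, e1, e2, hPeval, ← h n hn, sub_eq_zero]
      rfl
  have h0 := congrArg (eval 0) heq
  have e1 : f.eval 0 = ∏ n ∈ Sp, (0 - nd Sp n) := by rw [hf, eval_prod]; simp
  have e2 : θ.eval 0 = ∏ n ∈ S, (0 - nd Sp n) := by rw [hθ, eval_prod]; simp
  have e3 : P.eval 0 = 0 := by
    rw [hPeval]
    refine Finset.sum_eq_zero (fun i _ => ?_)
    rw [zero_pow (Nat.succ_ne_zero _), zero_mul]
  rw [eval_sub, e1, e2, e3, sub_zero, prod_neg_nd, prod_neg_nd, hS, hSp] at h0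
  have h3 : ∏ n ∈ Sp, nd Sp n = ∏ n ∈ S, nd Sp n :=
    mul_left_cancel₀ (pow_ne_zero _ (by norm_num)) h0
  exact absurd h3 (prod_lt Sp S (by rw [hS, hSp]) hne).ne

/-- The configuration. -/
theorem exists_config (d : ℕ) (hSp : Sp.card = d + 1) :
    ∃ A : J → (Fin d → ℝ),
      (∀ H : Finset J, H.card = d → ∀ v : Fin d → ℝ, (∀ n ∈ H, A n ⬝ᵥ v = 0) → v = 0) ∧
      (∑ n ∈ Sp, A n = 0) ∧
      (∀ H : Finset J, H.card = d → ¬ H ⊆ Sp → ∀ x, (∀ n ∈ H, aff A (cz Sp) n x = 0) →
        ∀ j, j ∉ H → aff A (cz Sp) j x ≠ 0) := by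
  obtain ⟨g, hg, hrel⟩ := exists_rel Sp d hSp
  set φ : J → ℝ := fun n => ∏ n' ∈ Sp, (nd Sp n - nd Sp n') with hφ
  set κ : J → ℝ := fun n => if n ∈ Sp then g n else -(φ n)⁻¹ with hκ
  have hκ0 : ∀ n, κ n ≠ 0 := by
    intro n
    simp only [hκ]
    split_ifs with h
    · exact hg n h
    · exact neg_ne_zero.mpr (inv_ne_zero (phi_ne Sp n h))
  refine ⟨fun n => κ n • nv Sp d n, ?_, ?_, ?_⟩
  · intro H hH v hv
    apply nv_gp Sp d H hH v
    intro n hn
    have := hv n hn
    rw [smul_dotProduct, smul_eq_mul, mul_eq_zero] at this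
    exact this.resolve_left (hκ0 n)
  · rw [← hrel]
    refine Finset.sum_congr rfl (fun n hn => ?_)
    simp only [hκ, if_pos hn]
  · intro H hH hne x hx j hj hj0
    refine poly_arg Sp d hSp (insert j H) (by rw [Finset.card_insert_of_notMem hj, hH])
      (fun hsub => hne ((Finset.subset_insert j H).trans hsub)) x ?_
    intro n hn
    have h0 : aff (fun n => κ n • nv Sp d n) (cz Sp) n x = 0 := by
      rcases Finset.mem_insert.mp hn with rfl | hn
      · exact hj0
      · exact hx n hn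
    unfold aff cz at h0
    rw [smul_dotProduct, smul_eq_mul] at h0
    by_cases h : n ∈ Sp
    · rw [if_pos h, zero_add, mul_eq_zero] at h0
      rw [h0.resolve_left (hκ0 n)]
      symm
      exact Finset.prod_eq_zero h (sub_self _)
    · simp only [hκ, if_neg h] at h0
      have h1 := phi_ne Sp n h
      have h2 : nv Sp d n ⬝ᵥ x = φ n := by
        have h3 : φ n ≠ 0 := h1
        field_simp at h0
        linarith
      exact h2

end

end Pool.Agent.Helper794.Modes
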