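import Mathlib

open Finset

namespace Pool.Agent.Helper794.Modes

/-- derivative of the exponential of minus a quadratic -/
lemma hasDerivAt_expq (a b c s : ℝ) :
    HasDerivAt (fun s : ℝ => Real.exp (-(a + s * b + s ^ 2 / 2 * c)))
      (Real.exp (-(a + s * b + s ^ 2 / 2 * c)) * (-(b + s * c))) s := by
  have h : HasDerivAt (fun s : ℝ => -(a + s * b + s ^ 2 / 2 * c)) (-(b + s * c)) s := by
    have h1 : HasDerivAt (fun s : ℝ => s * b) b s := by
      simpa using (hasDerivAt_id s).mul_const b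
    have h2 : HasDerivAt (fun s : ℝ => s ^ 2 / 2 * c) (s * c) s := by
      have := ((hasDerivAt_pow 2 s).div_const 2).mul_const c
      refine this.congr_deriv ?_
      norm_num
    exact (h1.const_add a |>.add h2).neg
  exact h.exp

lemma hasDerivAt_expq' (a b c s : ℝ) :
    HasDerivAt (fun s : ℝ => Real.exp (-(a + s * b + s ^ 2 / 2 * c)) * (-(b + s * c)))
      (Real.exp (-(a + s * b + s ^ 2 / 2 * c)) * ((b + s * c) ^ 2 - c)) s := by
  have h1 := hasDerivAt_expq a b c s
  have h2 : HasDerivAt (fun s : ℝ => -(b + s * c)) (-c) s := by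
    have h3 : HasDerivAt (fun s : ℝ => s * c) c s := by
      simpa using (hasDerivAt_id s).mul_const c
    exact (h3.const_add b).neg
  have h3 := h1.mul h2
  refine h3.congr_deriv ?_
  ring

variable {V : Type*} [NormedAddCommGroup V] [NormedSpace ℝ V] {ι : Type*} [Fintype ι]

/-- strict concavity on a segment -/
lemma seg_strict (a b c : ι → ℝ)
    (hneg : ∀ s ∈ Set.Ioo (0:ℝ) 1,
      ∑ i, Real.exp (-(a i + s * b i + s ^ 2 / 2 * c i)) * ((b i + s * c i) ^ 2 - c i) < 0) :
    StrictConcaveOn ℝ (Set.Icc (0:ℝ) 1)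
      (fun s => ∑ i, Real.exp (-(a i + s * b i + s ^ 2 / 2 * c i))) := by
  have hd1 : ∀ s, HasDerivAt (fun s : ℝ => ∑ i, Real.exp (-(a i + s * b i + s ^ 2 / 2 * c i)))
      (∑ i, Real.exp (-(a i + s * b i + s ^ 2 / 2 * c i)) * (-(b i + s * c i))) s := by
    intro s
    have := HasDerivAt.fun_sum (u := (Finset.univ : Finset ι))
      (A := fun i (s : ℝ) => Real.exp (-(a i + s * b i + s ^ 2 / 2 * c i)))
      (fun i _ => hasDerivAt_expq (a i) (b i) (c i) s)
    exact this
  have hd2 : ∀ s, HasDerivAt (fun s : ℝ =>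
      ∑ i, Real.exp (-(a i + s * b i + s ^ 2 / 2 * c i)) * (-(b i + s * c i)))
      (∑ i, Real.exp (-(a i + s * b i + s ^ 2 / 2 * c i)) * ((b i + s * c i) ^ 2 - c i)) s := by
    intro s
    have := HasDerivAt.fun_sum (u := (Finset.univ : Finset ι))
      (A := fun i (s : ℝ) => Real.exp (-(a i + s * b i + s ^ 2 / 2 * c i)) * (-(b i + s * c i)))
      (fun i _ => hasDerivAt_expq' (a i) (b i) (c i) s)
    exact this
  have e1 : deriv (fun s : ℝ => ∑ i, Real.exp (-(a i + s * b i + s ^ 2 / 2 * c i)))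
      = fun s => ∑ i, Real.exp (-(a i + s * b i + s ^ 2 / 2 * c i)) * (-(b i + s * c i)) := by
    funext s; exact (hd1 s).deriv
  apply strictConcaveOn_of_deriv2_neg (convex_Icc _ _)
  · exact fun s _ => (hd1 s).continuousAt.continuousWithinAt
  · intro s hs
    rw [interior_Icc] at hs
    show deriv^[2] _ s < 0
    rw [Function.iterate_succ, Function.iterate_one, Function.comp, e1, (hd2 s).deriv]
    exact hneg s hs

/-- Core lemma: a sum of exponentials of minus quadratic functions, with negative second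
derivative on a compact convex set `B`, such that every point of `B` outside the open set `U`
can be improved inside `B`, has a strict maximum over `B` which lies in `U`. -/
theorem core (q : ι → V → ℝ) (D : ι → V → V → ℝ) (Cc : ι → V → ℝ)
    (hq : ∀ i x v (s : ℝ), q i (x + s • v) = q i x + s * D i x v + s ^ 2 / 2 * Cc i v)
    (hD : ∀ i x v (s : ℝ), D i (x + s • v) v = D i x v + s * Cc i v)
    (hcont : ∀ i, Continuous (q i)) (B U : Set V) (hBc : IsCompact B) (hBconv : Convex ℝ B)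
    (hne : B.Nonempty)
    (KI : ∀ z ∈ B, ∀ v : V, v ≠ 0 →
      ∑ i, Real.exp (-(q i z)) * ((D i z v) ^ 2 - Cc i v) < 0)
    (reset : ∀ x ∈ B, x ∉ U → ∃ x' ∈ B,
      ∑ i, Real.exp (-(q i x)) < ∑ i, Real.exp (-(q i x'))) :
    ∃ x ∈ B, x ∈ U ∧ ∀ y ∈ B, y ≠ x →
      ∑ i, Real.exp (-(q i y)) < ∑ i, Real.exp (-(q i x)) := by
  have hfc : Continuous (fun x => ∑ i, Real.exp (-(q i x))) :=
    continuous_finsetSum _ (fun i _ => Real.continuous_exp.comp (hcont i).neg)
  obtain ⟨x, hxB, hmax⟩ := hBc.exists_isMaxOn hne hfc.continuousOn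
  have hxU : x ∈ U := by
    by_contra h
    obtain ⟨x', hx'B, hlt⟩ := reset x hxB h
    exact absurd (hmax hx'B) (not_le.mpr hlt)
  refine ⟨x, hxB, hxU, ?_⟩
  intro y hyB hyx
  have hv : y - x ≠ 0 := sub_ne_zero.mpr hyx
  have hsc := seg_strict (fun i => q i x) (fun i => D i x (y - x)) (fun i => Cc i (y - x)) (by
    intro s hs
    have hz : x + s • (y - x) ∈ B := by
      have := hBconv hxB hyB (a := 1 - s) (b := s) (by linarith [hs.2]) hs.1.le (by ring)
      convert this using 1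
      rw [smul_sub, sub_smul, one_smul]; abel
    have := KI _ hz (y - x) hv
    refine lt_of_eq_of_lt ?_ this
    refine Finset.sum_congr rfl ?_
    intro i _
    rw [hq, hD])
  have h01 := hsc.2 (Set.left_mem_Icc.2 zero_le_one) (Set.right_mem_Icc.2 zero_le_one)
    (by norm_num : (0:ℝ) ≠ 1) (by norm_num : (0:ℝ) < 1/2) (by norm_num : (0:ℝ) < 1/2)
    (by norm_num)
  have hmid : x + (1/2 : ℝ) • (y - x) ∈ B := by
    have := hBconv hxB hyB (a := 1/2) (b := 1/2) (by norm_num) (by norm_num) (by norm_num)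
    have e : x + (1/2 : ℝ) • (y - x) = (1/2 : ℝ) • x + (1/2 : ℝ) • y := by module
    rw [e]; exact this
  have hm1 := hmax hmid
  have hm2 := hmax hyB
  change ∑ i, Real.exp (-(q i (x + (1/2 : ℝ) • (y - x)))) ≤ ∑ i, Real.exp (-(q i x)) at hm1
  change ∑ i, Real.exp (-(q i y)) ≤ ∑ i, Real.exp (-(q i x)) at hm2
  have e0 : ∑ i, Real.exp (-(q i x + 0 * D i x (y - x) + 0 ^ 2 / 2 * Cc i (y - x)))
      = ∑ i, Real.exp (-(q i x)) := by
    refine Finset.sum_congr rfl ?_; intro i _; congr 1; ring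
  have e1 : ∑ i, Real.exp (-(q i x + 1 * D i x (y - x) + 1 ^ 2 / 2 * Cc i (y - x)))
      = ∑ i, Real.exp (-(q i y)) := by
    refine Finset.sum_congr rfl ?_; intro i _
    rw [← hq]; congr 3; rw [one_smul]; abel
  have e2 : ∑ i, Real.exp (-(q i (x + (1/2 : ℝ) • (y - x))))
      = ∑ i, Real.exp (-(q i x + (1/2) * D i x (y - x) + (1/2) ^ 2 / 2 * Cc i (y - x))) := by
    refine Finset.sum_congr rfl ?_; intro i _
    rw [hq]
  rw [e2] at hm1
  simp only [smul_eq_mul, mul_zero, zero_add, mul_one] at h01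
  rw [e0, e1] at h01
  linarith

end Pool.Agent.Helper794.Modes
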