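import Mathlib

open Filter Topology Matrix

namespace Pool.Agent.Helper794.Modes

/-- The density at `x` of the normal distribution on `ℝ^d` with mean `μ` and covariance
matrix `S`: `(2π)^(-d/2) (det S)^(-1/2) exp(-(1/2) (x-μ)ᵀ S⁻¹ (x-μ))`. -/
noncomputable def gaussianDensity {d : ℕ} (μ : Fin d → ℝ) (S : Matrix (Fin d) (Fin d) ℝ)
    (x : Fin d → ℝ) : ℝ :=
  (2 * Real.pi) ^ (-(d : ℝ) / 2) * S.det ^ (-(1 : ℝ) / 2) *
    Real.exp (-(1 / 2) * ((x - μ) ⬝ᵥ (S⁻¹ *ᵥ (x - μ))))

/-- The data of a mixture of `k` normal distributions in dimension `d`: positive weights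
summing to `1`, arbitrary means, arbitrary (real symmetric) positive definite covariance
matrices. -/
structure GaussianMixture (d k : ℕ) where
  weight : Fin k → ℝ
  mean : Fin k → (Fin d → ℝ)
  cov : Fin k → Matrix (Fin d) (Fin d) ℝ
  weight_pos : ∀ i, 0 < weight i
  weight_sum : ∑ i, weight i = 1
  cov_posDef : ∀ i, (cov i).PosDef

/-- The density of the mixture. -/
noncomputable def GaussianMixture.density {d k : ℕ} (m : GaussianMixture d k)
    (x : Fin d → ℝ) : ℝ :=
  ∑ i, m.weight i * gaussianDensity (m.mean i) (m.cov i) x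

/-- `x` is a mode of `f`: a point at which `f` has a strict local maximum. -/
def IsMode {d : ℕ} (f : (Fin d → ℝ) → ℝ) (x : Fin d → ℝ) : Prop :=
  ∀ᶠ y in 𝓝[≠] x, f y < f x

/-- `M(d,k)`: the supremum, over all mixtures of `k` normal distributions in dimension `d`,
of the number of modes (a value in `ℕ∞ = {0,1,2,…,∞}`). -/
noncomputable def maxModes (d k : ℕ) : ℕ∞ :=
  ⨆ m : GaussianMixture d k, Set.encard {x | IsMode m.density x}

end Pool.Agent.Helper794.Modes
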