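import Pool.Agent.Helper794.Modes.Strict

open Finset Filter Topology Matrix

namespace Pool.Agent.Helper794.Modes

section
variable {k m : ℕ} (A : JJ k m → (Fin (m+2) → ℝ)) (E : Fin (m+2) → (Fin (m+2) → ℝ)) (K L δ : ℝ)
  (hE : ∀ l l', A (idx l) ⬝ᵥ E l' = if l = l' then 1 else 0)
  (hspan : ∀ v, v = ∑ l, (A (idx l) ⬝ᵥ v) • E l)
  (hlam : ∀ n : JJ k m, 0 < lamf K L δ n)

/-- inverse of the rescaling -/
noncomputable def Ps (x : Fin (m+2) → ℝ) : Fin (m+2) → ℝ :=
  fun l => Real.sqrt (lamf K L δ (idx l : JJ k m)) * (A (idx l) ⬝ᵥ x)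

include hE hlam in
lemma Ps_Th (w : Fin (m+2) → ℝ) : Ps A K L δ (Th (k := k) E K L δ w) = w := by
  funext l
  unfold Ps Th
  rw [dotProduct_sum, Finset.sum_eq_single l]
  · rw [dotProduct_smul, hE, if_pos rfl, smul_eq_mul, mul_one, ← mul_assoc,
      mul_inv_cancel₀ (Real.sqrt_pos.mpr (hlam _)).ne', one_mul]
  · intro l' _ hl'
    rw [dotProduct_smul, hE, if_neg hl'.symm, smul_eq_mul, mul_zero]
  · intro h; exact absurd (Finset.mem_univ l) h

include hspan hlam in
lemma Th_Ps (x : Fin (m+2) → ℝ) : Th (k := k) E K L δ (Ps A K L δ x) = x := by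
  unfold Ps Th
  conv_rhs => rw [hspan x]
  refine Finset.sum_congr rfl (fun l _ => ?_)
  rw [← mul_assoc, inv_mul_cancel₀ (Real.sqrt_pos.mpr (hlam _)).ne', one_mul]

lemma Ps_cont : Continuous (Ps A K L δ) := by
  unfold Ps
  refine continuous_pi (fun l => ?_)
  exact continuous_const.mul (dot_cont continuous_const continuous_id)

include hE hspan hlam in
lemma transfer (c e1 e2 e3 : ℝ) (w0 : Fin (m+2) → ℝ) (hw0 : w0 ∈ UU c e1 e2 e3)
    (hmax : ∀ y ∈ BB c e1 e2 e3, y ≠ w0 → Fs (pd A E K L δ) y < Fs (pd A E K L δ) w0) :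
    ∀ᶠ y in 𝓝[≠] (Th (k := k) E K L δ w0),
      ∑ i, Real.exp (-(qf Prod.fst (lamf K L δ) (aff A (cz (Spc k m) + δ • cp)) i y))
      < ∑ i, Real.exp (-(qf Prod.fst (lamf K L δ) (aff A (cz (Spc k m) + δ • cp)) i
          (Th (k := k) E K L δ w0))) := by
  have h1 : ∀ᶠ y in 𝓝 (Th (k := k) E K L δ w0), Ps A K L δ y ∈ UU c e1 e2 e3 := by
    have hc : Tendsto (Ps A K L δ) (𝓝 (Th (k := k) E K L δ w0)) (𝓝 w0) := by
      have := (Ps_cont A K L δ).tendsto (Th (k := k) E K L δ w0)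
      rwa [Ps_Th A E K L δ hE hlam] at this
    exact hc.eventually ((UU_open c e1 e2 e3).mem_nhds hw0)
  rw [eventually_nhdsWithin_iff]
  filter_upwards [h1] with y hy hyne
  have hne : Ps A K L δ y ≠ w0 := by
    intro h
    apply hyne
    show y = _
    rw [← h, Th_Ps A E K L δ hspan hlam]
  have := hmax _ (UU_sub _ _ _ _ hy) hne
  rw [Fs_pd A E K L δ (fun n => (hlam n).le), Fs_pd A E K L δ (fun n => (hlam n).le),
    Th_Ps A E K L δ hspan hlam] at this
  exact this

lemma far_bound (S : ℝ) (hS : ∀ n : JJ k m, ∑ l, |A n ⬝ᵥ E l| ≤ S) (hδ : 0 < δ) (hδ1 : δ ≤ 1)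
    (hK : 1 ≤ K) (hδS : δ * (408 * S) ≤ 1) (w : Fin (m+2) → ℝ) (hw : ∀ l, |w l| ≤ 102)
    (n : JJ k m) (hn : n ∉ Spc k m) :
    1/2 ≤ |aff A (cz (Spc k m) + δ • cp) n (Th (k := k) E K L δ w)| := by
  have h1 : (cz (Spc k m) + δ • cp : JJ k m → ℝ) n = 1 := by
    show cz (Spc k m) n + δ * cp n = 1
    unfold cz cp
    rw [if_neg hn, if_neg]
    · norm_num
    · rintro (rfl | rfl | rfl)
      · exact hn alf_mem
      · exact hn (by rw [← idx_mu]; exact idx_mem mu)
      · exact hn (by rw [← idx_nu]; exact idx_mem nu)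
  have h2 : |A n ⬝ᵥ Th (k := k) E K L δ w| ≤ 1/2 := by
    unfold Th
    rw [dotProduct_sum]
    calc |∑ l, A n ⬝ᵥ (((Real.sqrt (lamf K L δ (idx l : JJ k m)))⁻¹ * w l) • E l)|
        ≤ ∑ l, |A n ⬝ᵥ (((Real.sqrt (lamf K L δ (idx l : JJ k m)))⁻¹ * w l) • E l)| :=
          Finset.abs_sum_le_sum_abs _ _
      _ ≤ ∑ l, (204 * δ) * |A n ⬝ᵥ E l| := by
          refine Finset.sum_le_sum (fun l _ => ?_)
          rw [dotProduct_smul, smul_eq_mul, abs_mul, abs_mul, abs_of_nonneg (s_nonneg K L δ l)]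
          refine mul_le_mul_of_nonneg_right ?_ (abs_nonneg _)
          calc (Real.sqrt (lamf K L δ (idx l : JJ k m)))⁻¹ * |w l| ≤ (2 * δ) * 102 :=
                mul_le_mul (s_le K L δ hK hδ hδ1 l) (hw l) (abs_nonneg _) (by positivity)
            _ = 204 * δ := by ring
      _ = (204 * δ) * ∑ l, |A n ⬝ᵥ E l| := by rw [Finset.mul_sum]
      _ ≤ (204 * δ) * S := mul_le_mul_of_nonneg_left (hS n) (by positivity)
      _ ≤ 1/2 := by linarith
  unfold aff
  rw [h1]
  have h3 := abs_le.mp h2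
  refine le_trans ?_ (le_abs_self _)
  linarith [h3.1]

end

theorem strict_aux (k m : ℕ) :
    ((((m+2) + (k+3) - 1).choose (m+2) + 1 : ℕ) : ℕ∞) ≤ maxModes (m+2) (k+3) := by
  classical
  obtain ⟨A, hgp, hrel, hnz⟩ := exists_config (Spc k m) (m+2) Spc_card
  obtain ⟨e, he, hspan⟩ := exists_dual A (Finset.univ.image idx) img_card (hgp _ img_card)
  set E : Fin (m+2) → (Fin (m+2) → ℝ) := fun l => e (idx l) with hEdef
  have hE : ∀ l l', A (idx l) ⬝ᵥ E l' = if l = l' then 1 else 0 := by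
    intro l l'
    show A (idx l) ⬝ᵥ e (idx l') = _
    rw [he _ (Finset.mem_image_of_mem _ (Finset.mem_univ l)) _
      (Finset.mem_image_of_mem _ (Finset.mem_univ l'))]
    by_cases h : l = l'
    · rw [if_pos h, if_pos (by rw [h])]
    · rw [if_neg h, if_neg (fun h' => h (idx_inj h'))]
  have hspan' : ∀ v, v = ∑ l, (A (idx l) ⬝ᵥ v) • E l := by
    intro v
    conv_lhs => rw [hspan v]
    rw [Finset.sum_image (fun a _ b _ h => idx_inj h)]
  have hEα : ∀ l, A alf ⬝ᵥ E l = -1 := by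
    intro l
    have h1 : A alf = -∑ n ∈ Finset.univ.image idx, A n := by
      have h2 := hrel
      unfold Spc at h2
      rw [Finset.sum_insert alf_notMem] at h2
      exact eq_neg_of_add_eq_zero_left h2
    rw [h1, neg_dotProduct, Finset.sum_image (fun a _ b _ h => idx_inj h), sum_dotProduct]
    simp only [hE]
    simp
  obtain ⟨K, L, h, hL, hK, hh, hh1, hev⟩ := modes_family (k+3) (m+2) (by omega) (by omega) A
    (cz (Spc k m)) cp hgp (Finset.univ.filter (fun s => ¬ HS s ⊆ Spc k m)) (by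
      intro s hs x hx j hj
      exact hnz (HS s) (HS_card s) (Finset.mem_filter.mp hs).2 x hx j hj)
  have ev1 := hev.filter_mono (nhdsWithin_le_nhds (s := Set.Ioi (0:ℝ)))
  have ev2 := (pd_tendsto A E K L hE hEα hK).eventually (base_four (p0_base A E K L hE hK hL))
  set S : ℝ := ∑ n : JJ k m, ∑ l, |A n ⬝ᵥ E l| with hSdef
  have hS0 : 0 ≤ S := Finset.sum_nonneg (fun n _ => Finset.sum_nonneg (fun l _ => abs_nonneg _))
  have hS : ∀ n : JJ k m, ∑ l, |A n ⬝ᵥ E l| ≤ S := fun n =>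
    Finset.single_le_sum (f := fun n : JJ k m => ∑ l, |A n ⬝ᵥ E l|)
      (fun n _ => Finset.sum_nonneg (fun l _ => abs_nonneg _)) (Finset.mem_univ n)
  set ε := min 1 (min (Real.exp (-(K * LamS m K L)/2)) (1/(408*(S+1)))) with hε
  have hεpos : 0 < ε := by
    rw [hε]
    refine lt_min one_pos (lt_min (Real.exp_pos _) (by positivity))
  have ev3 : ∀ᶠ δ in 𝓝[>] (0:ℝ), δ ∈ Set.Ioo 0 ε := Ioo_mem_nhdsGT hεpos
  obtain ⟨δ, hd1, hd2, hd3⟩ := (ev1.and (ev2.and ev3)).exists
  have hδ : 0 < δ := hd3.1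
  have hδ1 : δ ≤ 1 := hd3.2.le.trans (min_le_left _ _)
  have hδ2 : δ ≤ Real.exp (-(K * LamS m K L)/2) :=
    hd3.2.le.trans ((min_le_right _ _).trans (min_le_left _ _))
  have hδ3 : δ ≤ 1/(408*(S+1)) := hd3.2.le.trans ((min_le_right _ _).trans (min_le_right _ _))
  have hδS : δ * (408 * S) ≤ 1 := by
    rw [le_div_iff₀ (by positivity)] at hδ3
    nlinarith
  have hD : Real.exp (K * LamS m K L) ≤ 1/δ^2 := by
    rw [le_div_iff₀ (by positivity)]
    have h1 : δ^2 ≤ Real.exp (-(K * LamS m K L)) := by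
      calc δ^2 ≤ (Real.exp (-(K * LamS m K L)/2))^2 := pow_le_pow_left₀ hδ.le hδ2 2
        _ = Real.exp (-(K * LamS m K L)) := by
          rw [← Real.exp_nat_mul]; congr 1; push_cast; ring
    calc Real.exp (K * LamS m K L) * δ^2 ≤ Real.exp (K * LamS m K L) * Real.exp (-(K * LamS m K L)) :=
          mul_le_mul_of_nonneg_left h1 (Real.exp_pos _).le
      _ = 1 := by rw [← Real.exp_add, add_neg_cancel, Real.exp_zero]
  have hlamL : ∀ n : JJ k m, L ≤ lamf K L δ n := lamf_ge K L δ hK hL hD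
  have hlam : ∀ n : JJ k m, 0 < lamf K L δ n := fun n => lt_of_lt_of_le (by linarith) (hlamL n)
  have hm := hd1 (lamf K L δ) hlamL (fun i j j' hjj' => lamf_tower K L δ hK hL hD i j j' hjj')
  obtain ⟨⟨w0, hw0, hmax0⟩, ⟨w1, hw1, hmax1⟩, ⟨w2, hw2, hmax2⟩, ⟨w3, hw3, hmax3⟩⟩ := hd2
  -- the four cluster points
  set W : Fin 4 → (Fin (m+2) → ℝ) := ![w0, w1, w2, w3] with hW
  have hWmax : ∀ c, ∀ᶠ y in 𝓝[≠] (Th (k := k) E K L δ (W c)),
      ∑ i, Real.exp (-(qf Prod.fst (lamf K L δ) (aff A (cz (Spc k m) + δ • cp)) i y))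
      < ∑ i, Real.exp (-(qf Prod.fst (lamf K L δ) (aff A (cz (Spc k m) + δ • cp)) i
          (Th (k := k) E K L δ (W c)))) := by
    intro c
    fin_cases c
    · exact transfer A E K L δ hE hspan' hlam _ _ _ _ w0 hw0 hmax0
    · exact transfer A E K L δ hE hspan' hlam _ _ _ _ w1 hw1 hmax1
    · exact transfer A E K L δ hE hspan' hlam _ _ _ _ w2 hw2 hmax2
    · exact transfer A E K L δ hE hspan' hlam _ _ _ _ w3 hw3 hmax3
  have hWb : ∀ c l, |W c l| ≤ 102 := by
    intro c l
    fin_cases c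
    · refine (BB_bdd _ _ _ _ w0 (UU_sub _ _ _ _ hw0) l).trans ?_
      norm_num [abs_of_pos]
    · refine (BB_bdd _ _ _ _ w1 (UU_sub _ _ _ _ hw1) l).trans ?_
      norm_num [abs_of_pos]
    · refine (BB_bdd _ _ _ _ w2 (UU_sub _ _ _ _ hw2) l).trans ?_
      norm_num [abs_of_pos]
    · refine (BB_bdd _ _ _ _ w3 (UU_sub _ _ _ _ hw3) l).trans ?_
      norm_num [abs_of_pos]
  have hWinj : Function.Injective W := by
    have s0 := u_sum w0
    have s1 := u_sum w1
    have s2 := u_sum w2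
    have s3 := u_sum w3
    obtain ⟨_, a0, b0, c0⟩ := hw0
    obtain ⟨_, a1, b1, c1⟩ := hw1
    obtain ⟨_, a2, b2, c2⟩ := hw2
    obtain ⟨_, a3, b3, c3⟩ := hw3
    rw [abs_lt] at a0 b0 c0 a1 b1 c1 a2 b2 c2 a3 b3 c3
    have h01 : w0 ≠ w1 := by rintro rfl; linarith [b0.1, b1.2]
    have h02 : w0 ≠ w2 := by rintro rfl; linarith [a0.1, a2.2]
    have h03 : w0 ≠ w3 := by rintro rfl; linarith [a0.1, a3.2]
    have h12 : w1 ≠ w2 := by rintro rfl; linarith [a2.2, b1.2, c1.2]
    have h13 : w1 ≠ w3 := by rintro rfl; linarith [a3.2, b1.2, c1.2]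
    have h23 : w2 ≠ w3 := by rintro rfl; linarith [b3.2, a2.2, c2.2]
    intro c c' hcc'
    fin_cases c <;> fin_cases c' <;>
      first
        | rfl
        | exact absurd hcc' h01
        | exact absurd hcc' h02
        | exact absurd hcc' h03
        | exact absurd hcc' h12
        | exact absurd hcc' h13
        | exact absurd hcc' h23
        | exact absurd hcc'.symm h01
        | exact absurd hcc'.symm h02
        | exact absurd hcc'.symm h03
        | exact absurd hcc'.symm h12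
        | exact absurd hcc'.symm h13
        | exact absurd hcc'.symm h23
  -- the other points
  set T := Finset.univ.filter (fun s : Sym (Fin (k+3)) (m+2) => ¬ HS s ⊆ Spc k m) with hT
  have hm' : ∀ s : {s // s ∈ T}, _ := fun s => hm s.1 s.2
  choose x hx1 hx2 hx3 using hm'
  have hinj : Function.Injective (Sum.elim x (fun c => Th (k := k) E K L δ (W c))) := by
    have hxx : Function.Injective x := by
      intro s t hst
      apply Subtype.ext
      apply HS_injective
      ext j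
      constructor
      · intro hj
        by_contra hj'
        have e1 := hx1 s j hj
        have e2 := hx2 t j hj'
        rw [hst] at e1
        linarith
      · intro hj
        by_contra hj'
        have e1 := hx1 t j hj
        have e2 := hx2 s j hj'
        rw [hst] at e2
        linarith
    have hxy : ∀ s c, x s ≠ Th (k := k) E K L δ (W c) := by
      intro s c hsc
      obtain ⟨n, hn1, hn2⟩ := Finset.not_subset.mp (Finset.mem_filter.mp s.2).2
      have e1 := hx1 s n hn1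
      have e2 := far_bound A E K L δ S hS hδ hδ1 hK hδS (W c) (hWb c) n hn2
      rw [hsc] at e1
      linarith
    rintro (s | c) (t | c') hst
    · exact congrArg Sum.inl (hxx hst)
    · exact absurd hst (hxy s c')
    · exact absurd hst.symm (hxy t c)
    · have h1 : Th (k := k) E K L δ (W c) = Th (k := k) E K L δ (W c') := hst
      have h2 := congrArg (Ps A K L δ) h1
      rw [Ps_Th A E K L δ hE hlam, Ps_Th A E K L δ hE hlam] at h2
      exact congrArg Sum.inr (hWinj h2)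
  have hown : ∀ i : Fin (k+3), ((Finset.univ : Finset (Fin (m+2))).map
      ⟨fun j => (i, j), fun a b h => by simpa using h⟩).card = m+2 := by
    intro i; simp
  have hμ : ∀ i : Fin (k+3), ∃ μ : Fin (m+2) → ℝ, ∀ j,
      aff A (cz (Spc k m) + δ • cp) (i, j) μ = 0 := by
    intro i
    obtain ⟨e', he', _⟩ := exists_dual A _ (hown i) (hgp _ (hown i))
    exact ⟨_, fun j => pt_zero A e' (cz (Spc k m) + δ • cp) _ he' (i, j)
      (Finset.mem_map.mpr ⟨j, Finset.mem_univ _, rfl⟩)⟩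
  choose μ hμ using hμ
  have hfin := le_maxModes (k+3) (m+2) (by omega) (lamf K L δ) hlam A (cz (Spc k m) + δ • cp) μ hμ
    (by
      intro i v hv
      refine hgp _ (hown i) v ?_
      intro n hn
      obtain ⟨j, _, rfl⟩ := Finset.mem_map.mp hn
      exact hv j) _ hinj (by
      rintro (s | c)
      · exact hx3 s
      · exact hWmax c)
  refine le_trans ?_ hfin
  rw [Fintype.card_sum, Fintype.card_coe, Fintype.card_fin]
  have hcard : (Finset.univ.filter (fun s : Sym (Fin (k+3)) (m+2) => HS s ⊆ Spc k m)).card + T.card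
      = ((m+2) + (k+3) - 1).choose (m+2) := by
    rw [hT, Finset.card_filter_add_card_filter_not, Finset.card_univ, Sym.card_sym_eq_choose,
      Fintype.card_fin, add_comm (k+3) (m+2)]
  have h3 := special_count (k := k) (m := m)
  have : ((m+2) + (k+3) - 1).choose (m+2) + 1 ≤ T.card + 4 := by omega
  exact_mod_cast this

end Pool.Agent.Helper794.Modes
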