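import Pool.Agent.Helper794.Modes.AL

set_option linter.unusedSectionVars false

open Finset Filter Topology

namespace Pool.Agent.Helper794.Modes

lemma sq_exp_bound (c x : ℝ) (hc : 0 < c) (hx : 0 ≤ x) : x ^ 2 * Real.exp (-(c * x)) ≤ 2 / c ^ 2 := by
  have h1 : (c * x) ^ 2 / 2 ≤ Real.exp (c * x) := by
    have := Real.quadratic_le_exp_of_nonneg (mul_nonneg hc.le hx)
    nlinarith [mul_nonneg hc.le hx]
  rw [Real.exp_neg, ← div_eq_mul_inv, div_le_div_iff₀ (Real.exp_pos _) (by positivity)]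
  nlinarith [h1]

set_option maxHeartbeats 4000000 in
theorem GT (k d : ℕ) (hk : 1 ≤ k) (hd : 1 ≤ d) (M h : ℝ) (hM : 0 ≤ M) (hh : 0 < h) :
    ∃ K L : ℝ, 1 ≤ L ∧ 1 ≤ K ∧
    ∀ (lam : Fin k × Fin d → ℝ), (∀ j, L ≤ lam j) →
    ∀ (Y : Fin k × Fin d → (Fin d → ℝ) → ℝ) (l : Fin k × Fin d → (Fin d → ℝ) →ₗ[ℝ] ℝ),
    (∀ j x v, Y j (x + v) = Y j x + l j v) → (∀ j, Continuous (Y j)) →
    ∀ (a : Fin k → ℕ) (H : Finset (Fin k × Fin d)), (∀ i j, (i, j) ∈ H ↔ j.val < a i) →
    ∀ (e : Fin k × Fin d → (Fin d → ℝ)),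
    (∀ n ∈ H, ∀ n' ∈ H, l n (e n') = if n = n' then 1 else 0) →
    (∀ v, v = ∑ n ∈ H, l n v • e n) →
    ∀ (p : Fin d → ℝ), (∀ n ∈ H, Y n p = 0) →
    (∀ j, j ∉ H → ∀ n ∈ H, |l j (e n)| ≤ M) →
    (∀ j, j ∉ H → |Y j p| ≤ M) → (∀ j, j ∉ H → h ≤ |Y j p|) →
    (∀ i j j', (i, j) ∈ H → (i, j') ∉ H → Real.exp (K * lam (i, j')) ≤ lam (i, j)) →
    (∀ i j j', (i, j) ∉ H → j ≤ j' → lam (i, j') ≤ lam (i, j)) →
    ∃ x, (∀ n ∈ H, |Y n x| < h / 2) ∧ (∀ j, j ∉ H → h / 2 ≤ |Y j x|) ∧
      ∀ᶠ y in 𝓝[≠] x, ∑ i, Real.exp (-(qf Prod.fst lam Y i y))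
        < ∑ i, Real.exp (-(qf Prod.fst lam Y i x)) := by
  -- constants
  set N : ℝ := (k : ℝ) * d with hN
  have hN1 : 1 ≤ N := by
    have h1 : (1:ℝ) ≤ k := by exact_mod_cast hk
    have h2 : (1:ℝ) ≤ d := by exact_mod_cast hd
    nlinarith
  set ρ : ℝ := 1 / (2 * N) with hρ
  have hρ0 : 0 < ρ := by positivity
  have hρ1 : ρ ≤ 1 := by
    rw [hρ, div_le_one (by positivity)]; linarith
  have hρN : 4 * N * ρ ^ 2 ≤ 1 := by
    have : 4 * N * ρ ^ 2 = 1 / N := by rw [hρ]; field_simp; norm_num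
    rw [this, div_le_one (by positivity)]; exact hN1
  set M' : ℝ := M + 1 with hM'
  have hM'0 : 0 ≤ M' := by linarith
  set c : ℝ := h ^ 2 / 8 with hc
  have hc0 : 0 < c := by positivity
  set K0 : ℝ := 2 * (d:ℝ) ^ 2 / c ^ 2 with hK0
  have hK00 : 0 ≤ K0 := by positivity
  set Cst : ℝ := 2 * k * K0 * M' * M / ρ + 4 * M' ^ 2 * M ^ 2 * N * (k * K0) + 1 with hCst
  have hCst1 : 1 ≤ Cst := by
    have h1 : 0 ≤ 2 * k * K0 * M' * M / ρ := by positivity
    have h2 : 0 ≤ 4 * M' ^ 2 * M ^ 2 * N * (k * K0) := by positivity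
    linarith
  set L : ℝ := (4 * Cst) ^ 2 + (2 * (M * N) / h + M * N + 1 + 2 / h) ^ 2 with hL
  have hL1 : 1 ≤ L := by
    have : 1 ≤ (4 * Cst) ^ 2 := by nlinarith
    nlinarith [sq_nonneg (2 * (M * N) / h + M * N + 1 + 2 / h)]
  refine ⟨d * M' ^ 2 + 2, L, hL1, ?_, ?_⟩
  · have : 0 ≤ (d:ℝ) * M' ^ 2 := by positivity
    linarith
  intro lam hlamL Y l hY hYc a H hH e hdual hspan p hp hMb hpM hph tower mono
  have hlam1 : ∀ j, 1 ≤ lam j := fun j => hL1.trans (hlamL j)
  have hlam0 : ∀ j, 0 ≤ lam j := fun j => zero_le_one.trans (hlam1 j)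
  have hlampos : ∀ j, 0 < lam j := fun j => lt_of_lt_of_le one_pos (hlam1 j)
  set r : Fin k × Fin d → ℝ := fun n => ρ / Real.sqrt (lam n) with hr
  have hrpos : ∀ n, 0 < r n := fun n => div_pos hρ0 (Real.sqrt_pos.mpr (hlampos n))
  have hcardH : (H.card : ℝ) ≤ N := by
    have h1 : H.card ≤ Fintype.card (Fin k × Fin d) := Finset.card_le_univ H
    rw [Fintype.card_prod, Fintype.card_fin, Fintype.card_fin] at h1
    rw [hN]
    exact_mod_cast h1
  -- sqrt L bounds
  have hsL : 2 * (M * N) / h + M * N + 1 + 2 / h ≤ Real.sqrt L := by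
    apply Real.le_sqrt_of_sq_le
    nlinarith [sq_nonneg (4 * Cst)]
  have hsL2 : 4 * Cst ≤ Real.sqrt L := by
    apply Real.le_sqrt_of_sq_le
    nlinarith [sq_nonneg (2 * (M * N) / h + M * N + 1 + 2 / h)]
  have hsqL : ∀ n, Real.sqrt L ≤ Real.sqrt (lam n) := fun n => Real.sqrt_le_sqrt (hlamL n)
  have hsLpos : 0 < Real.sqrt L := Real.sqrt_pos.mpr (by linarith)
  have hrle : ∀ n, r n ≤ 1 / Real.sqrt L := by
    intro n
    rw [hr]
    exact div_le_div₀ zero_le_one hρ1 hsLpos (hsqL n)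
  have hMN0 : 0 ≤ M * N := by positivity
  have hclose : ∀ x ∈ Box Y H r, ∀ j, j ∉ H → |Y j x - Y j p| ≤ M * N / Real.sqrt L := by
    intro x hx j hj
    have h1 : ∀ n, Y n x - Y n p = l n (x - p) := by
      intro n
      have := hY n p (x - p)
      rw [add_sub_cancel] at this
      linarith
    rw [h1]
    refine (l_bound l H e M hspan hMb j hj (x - p)).trans ?_
    rw [mul_div_assoc]
    refine mul_le_mul_of_nonneg_left ?_ hM
    calc ∑ n ∈ H, |l n (x - p)| ≤ ∑ n ∈ H, 1 / Real.sqrt L := by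
          refine Finset.sum_le_sum ?_
          intro n hn
          rw [← h1 n, hp n hn, sub_zero]
          exact (hx n hn).trans (hrle n)
      _ = H.card * (1 / Real.sqrt L) := by rw [Finset.sum_const, nsmul_eq_mul]
      _ ≤ N * (1 / Real.sqrt L) := mul_le_mul_of_nonneg_right hcardH (by positivity)
      _ = N / Real.sqrt L := by ring
  have hsmall1 : M * N / Real.sqrt L ≤ h / 2 := by
    rw [div_le_iff₀ hsLpos]
    have : 2 * (M * N) / h ≤ Real.sqrt L := by linarith [div_pos two_pos hh]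
    rw [div_le_iff₀ hh] at this
    linarith
  have hsmall2 : M * N / Real.sqrt L ≤ 1 := by
    rw [div_le_one hsLpos]
    have : 0 ≤ 2 * (M * N) / h := by positivity
    linarith [div_pos two_pos hh]
  have hM'b : ∀ x ∈ Box Y H r, ∀ j, j ∉ H → |Y j x| ≤ M' := by
    intro x hx j hj
    have h1 := hclose x hx j hj
    have h2 := hpM j hj
    have h3 : |Y j x| ≤ |Y j x - Y j p| + |Y j p| := by
      have := abs_add_le (Y j x - Y j p) (Y j p)
      rwa [sub_add_cancel] at this
    linarith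
  have hlow : ∀ x ∈ Box Y H r, ∀ j, j ∉ H → h / 2 ≤ |Y j x| := by
    intro x hx j hj
    have h1 := hclose x hx j hj
    have h2 := hph j hj
    have h3 : |Y j p| ≤ |Y j p - Y j x| + |Y j x| := by
      have := abs_add_le (Y j p - Y j x) (Y j x)
      rwa [sub_add_cancel] at this
    rw [abs_sub_comm] at h3
    linarith
  -- tail bounds
  have hown : ∀ i (j : Fin k × Fin d), j ∈ own_set Prod.fst i ↔ j.1 = i := by
    intro i j; simp [own_set]
  have htail : ∀ i, (∀ j, (i, j) ∈ H) ∨ ∃ j0, (i, j0) ∉ H ∧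
      ∀ j ∈ own_set Prod.fst i \ H, lam j ≤ lam (i, j0) := by
    intro i
    by_cases hall : ∀ j, (i, j) ∈ H
    · exact Or.inl hall
    · right
      push Not at hall
      obtain ⟨j1, hj1⟩ := hall
      have hai : a i ≤ j1.val := by
        by_contra hcon
        exact hj1 ((hH i j1).mpr (not_le.mp hcon))
      have hlt : a i < d := lt_of_le_of_lt hai j1.isLt
      refine ⟨⟨a i, hlt⟩, ?_, ?_⟩
      · rw [hH]; simp
      · intro j hj
        obtain ⟨hj1', hj2⟩ := Finset.mem_sdiff.mp hj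
        rw [hown] at hj1'
        obtain ⟨j1', j2'⟩ := j
        simp only at hj1'
        subst hj1'
        apply mono
        · rw [hH]; simp
        · rw [hH] at hj2
          exact Fin.mk_le_of_le_val (not_lt.mp hj2)
  have hcardown : ∀ i, ((own_set (Prod.fst : Fin k × Fin d → Fin k) i \ H).card : ℝ) ≤ d := by
    intro i
    have h1 : (own_set (Prod.fst : Fin k × Fin d → Fin k) i \ H).card ≤ d := by
      calc (own_set (Prod.fst : Fin k × Fin d → Fin k) i \ H).card
          ≤ (own_set (Prod.fst : Fin k × Fin d → Fin k) i).card :=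
            Finset.card_le_card Finset.sdiff_subset
        _ ≤ ((Finset.univ : Finset (Fin d)).image (fun j => (i, j))).card := by
            refine Finset.card_le_card ?_
            intro j hj
            rw [hown] at hj
            rw [Finset.mem_image]
            exact ⟨j.2, Finset.mem_univ _, by rw [← hj]⟩
        _ ≤ d := by
            refine Finset.card_image_le.trans ?_
            simp
    exact_mod_cast h1
  have hS : ∀ i j0, (∀ j ∈ own_set Prod.fst i \ H, lam j ≤ lam (i, j0)) →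
      Sf Prod.fst lam H i ≤ d * lam (i, j0) := by
    intro i j0 hj0
    unfold Sf
    calc ∑ j ∈ own_set Prod.fst i \ H, lam j ≤ ∑ j ∈ own_set Prod.fst i \ H, lam (i, j0) :=
          Finset.sum_le_sum hj0
      _ = (own_set (Prod.fst : Fin k × Fin d → Fin k) i \ H).card * lam (i, j0) := by
          rw [Finset.sum_const, nsmul_eq_mul]
      _ ≤ d * lam (i, j0) := mul_le_mul_of_nonneg_right (hcardown i) (hlam0 _)
  have hS0 : ∀ i, 0 ≤ Sf Prod.fst lam H i := fun i => Finset.sum_nonneg (fun j _ => hlam0 j)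
  have hSempty : ∀ i, (∀ j, (i, j) ∈ H) → Sf Prod.fst lam H i = 0 := by
    intro i hall
    unfold Sf
    refine Finset.sum_eq_zero ?_
    intro j hj
    obtain ⟨h1, h2⟩ := Finset.mem_sdiff.mp hj
    rw [hown] at h1
    exact absurd (by rw [← h1] at hall; exact hall j.2) h2
  have hK2 : ∀ x ∈ Box Y H r, ∀ i,
      Real.exp (-(qf Prod.fst lam Y i x)) * (Sf Prod.fst lam H i) ^ 2 ≤ K0 := by
    intro x hx i
    rcases htail i with hall | ⟨j0, hj0, hj0m⟩
    · rw [hSempty i hall]; simpa using hK00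
    · have h1 := hS i j0 hj0m
      have hq : c * lam (i, j0) ≤ qf Prod.fst lam Y i x := by
        unfold qf
        have hmem : (i, j0) ∈ own_set (Prod.fst : Fin k × Fin d → Fin k) i := by rw [hown]
        refine le_trans ?_ (Finset.single_le_sum
          (f := fun j => lam j * (Y j x) ^ 2 / 2) (fun j _ => ?_) hmem)
        · show c * lam (i, j0) ≤ lam (i, j0) * (Y (i, j0) x) ^ 2 / 2
          have h2 := hlow x hx (i, j0) hj0
          have h3 : (h / 2) ^ 2 ≤ (Y (i, j0) x) ^ 2 := by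
            rw [← sq_abs (Y (i, j0) x)]
            exact pow_le_pow_left₀ (by positivity) h2 2
          have h4 := mul_le_mul_of_nonneg_left h3 (hlam0 (i, j0))
          rw [hc]
          nlinarith [h4]
        · exact div_nonneg (mul_nonneg (hlam0 j) (sq_nonneg _)) (by norm_num)
      have h2 : Real.exp (-(qf Prod.fst lam Y i x)) ≤ Real.exp (-(c * lam (i, j0))) :=
        Real.exp_le_exp.mpr (neg_le_neg hq)
      calc Real.exp (-(qf Prod.fst lam Y i x)) * (Sf Prod.fst lam H i) ^ 2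
          ≤ Real.exp (-(c * lam (i, j0))) * (d * lam (i, j0)) ^ 2 :=
            mul_le_mul h2 (pow_le_pow_left₀ (hS0 i) h1 2) (sq_nonneg _) (Real.exp_pos _).le
        _ = (d:ℝ) ^ 2 * ((lam (i, j0)) ^ 2 * Real.exp (-(c * lam (i, j0)))) := by ring
        _ ≤ (d:ℝ) ^ 2 * (2 / c ^ 2) :=
            mul_le_mul_of_nonneg_left (sq_exp_bound c _ hc0 (hlam0 _)) (by positivity)
        _ = K0 := by rw [hK0]; ring
  have hK1 : ∀ x ∈ Box Y H r, ∀ i,
      Real.exp (-(qf Prod.fst lam Y i x)) * Sf Prod.fst lam H i ≤ K0 := by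
    intro x hx i
    rcases htail i with hall | ⟨j0, hj0, hj0m⟩
    · rw [hSempty i hall]; simpa using hK00
    · refine le_trans ?_ (hK2 x hx i)
      refine mul_le_mul_of_nonneg_left ?_ (Real.exp_pos _).le
      have h1 : 1 ≤ Sf Prod.fst lam H i := by
        unfold Sf
        have hmem : (i, j0) ∈ own_set (Prod.fst : Fin k × Fin d → Fin k) i \ H := by
          rw [Finset.mem_sdiff, hown]; exact ⟨rfl, hj0⟩
        exact (hlam1 (i, j0)).trans (Finset.single_le_sum (fun j _ => hlam0 j) hmem)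
      nlinarith
  -- lower bound for the owner
  have hG : ∀ n ∈ H, ∀ x ∈ Box Y H r,
      Cst < Real.exp (-(qf Prod.fst lam Y n.1 x)) * Real.sqrt (lam n) := by
    rintro ⟨i, j⟩ hn x hx
    have hsplit : qf Prod.fst lam Y i x
        = ∑ j ∈ own_set Prod.fst i ∩ H, lam j * (Y j x) ^ 2 / 2
          + ∑ j ∈ own_set Prod.fst i \ H, lam j * (Y j x) ^ 2 / 2 := by
      unfold qf
      exact (Finset.sum_inter_add_sum_sdiff _ _ _).symm
    have hheld : ∑ j ∈ own_set Prod.fst i ∩ H, lam j * (Y j x) ^ 2 / 2 ≤ 1 / 8 := by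
      calc ∑ j ∈ own_set Prod.fst i ∩ H, lam j * (Y j x) ^ 2 / 2
          ≤ ∑ j ∈ own_set (Prod.fst : Fin k × Fin d → Fin k) i ∩ H, ρ ^ 2 / 2 := by
            refine Finset.sum_le_sum ?_
            intro j hj
            have hjH := (Finset.mem_inter.mp hj).2
            have h1 : (Y j x) ^ 2 ≤ (r j) ^ 2 := by
              rw [← sq_abs]; exact pow_le_pow_left₀ (abs_nonneg _) (hx j hjH) 2
            have h2 : lam j * (r j) ^ 2 = ρ ^ 2 := by
              rw [hr]; simp only [div_pow, Real.sq_sqrt (hlam0 j)]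
              field_simp
              exact div_self (hlampos j).ne'
            have h3 := mul_le_mul_of_nonneg_left h1 (hlam0 j)
            rw [h2] at h3
            linarith
        _ = (own_set (Prod.fst : Fin k × Fin d → Fin k) i ∩ H).card * (ρ ^ 2 / 2) := by
            rw [Finset.sum_const, nsmul_eq_mul]
        _ ≤ N * (ρ ^ 2 / 2) := by
            refine mul_le_mul_of_nonneg_right ?_ (by positivity)
            refine le_trans ?_ hcardH
            exact_mod_cast Finset.card_le_card Finset.inter_subset_right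
        _ ≤ 1 / 8 := by linarith
    rcases htail i with hall | ⟨j0, hj0, hj0m⟩
    · have ht0 : ∑ j ∈ own_set Prod.fst i \ H, lam j * (Y j x) ^ 2 / 2 = 0 := by
        refine Finset.sum_eq_zero ?_
        intro j hj
        obtain ⟨h1, h2⟩ := Finset.mem_sdiff.mp hj
        rw [hown] at h1
        exact absurd (by rw [← h1] at hall; exact hall j.2) h2
      have h1 : qf Prod.fst lam Y i x ≤ 1 / 8 := by rw [hsplit, ht0]; linarith
      have h2 : 7 / 8 ≤ Real.exp (-(qf Prod.fst lam Y i x)) := by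
        have := Real.add_one_le_exp (-(qf Prod.fst lam Y i x))
        linarith
      have h3 : 4 * Cst ≤ Real.sqrt (lam (i, j)) := hsL2.trans (hsqL _)
      show Cst < Real.exp (-(qf Prod.fst lam Y i x)) * Real.sqrt (lam (i, j))
      nlinarith [mul_le_mul h2 h3 (by linarith) (Real.exp_pos _).le]
    · have ht : ∑ j ∈ own_set Prod.fst i \ H, lam j * (Y j x) ^ 2 / 2
          ≤ (d * lam (i, j0)) * (M' ^ 2 / 2) := by
        calc ∑ j ∈ own_set Prod.fst i \ H, lam j * (Y j x) ^ 2 / 2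
            ≤ ∑ j ∈ own_set Prod.fst i \ H, lam j * (M' ^ 2 / 2) := by
              refine Finset.sum_le_sum ?_
              intro j hj
              have hjH := (Finset.mem_sdiff.mp hj).2
              have h1 : (Y j x) ^ 2 ≤ M' ^ 2 := by
                rw [← sq_abs]; exact pow_le_pow_left₀ (abs_nonneg _) (hM'b x hx j hjH) 2
              have h3 := mul_le_mul_of_nonneg_left h1 (hlam0 j)
              linarith
          _ = Sf Prod.fst lam H i * (M' ^ 2 / 2) := by
              unfold Sf; rw [Finset.sum_mul]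
          _ ≤ (d * lam (i, j0)) * (M' ^ 2 / 2) :=
              mul_le_mul_of_nonneg_right (hS i j0 hj0m) (by positivity)
      have htow := tower i j j0 hn hj0
      have hsq : Real.exp ((d * M' ^ 2 + 2) * lam (i, j0) / 2) ≤ Real.sqrt (lam (i, j)) := by
        apply Real.le_sqrt_of_sq_le
        rw [← Real.exp_nat_mul]
        refine le_trans (le_of_eq ?_) htow
        congr 1
        push_cast
        ring
      have h1 : qf Prod.fst lam Y i x ≤ 1 / 8 + (d * lam (i, j0)) * (M' ^ 2 / 2) := by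
        rw [hsplit]; linarith
      show Cst < Real.exp (-(qf Prod.fst lam Y i x)) * Real.sqrt (lam (i, j))
      have h2 : Real.exp (lam (i, j0) - 1 / 8)
          ≤ Real.exp (-(qf Prod.fst lam Y i x)) * Real.sqrt (lam (i, j)) := by
        calc Real.exp (lam (i, j0) - 1 / 8)
            = Real.exp (-(1 / 8 + (d * lam (i, j0)) * (M' ^ 2 / 2)))
                * Real.exp ((d * M' ^ 2 + 2) * lam (i, j0) / 2) := by
              rw [← Real.exp_add]; congr 1; ring
          _ ≤ Real.exp (-(qf Prod.fst lam Y i x)) * Real.sqrt (lam (i, j)) :=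
              mul_le_mul (Real.exp_le_exp.mpr (neg_le_neg h1)) hsq (Real.exp_pos _).le
                (Real.exp_pos _).le
      refine lt_of_lt_of_le ?_ h2
      have h3 := Real.add_one_le_exp (lam (i, j0) - 1 / 8)
      have h4 := hlamL (i, j0)
      have h5 : Cst ≤ L := by rw [hL]; nlinarith [sq_nonneg (2 * (M * N) / h + M * N + 1 + 2 / h)]
      linarith
  have hcardi : (Fintype.card (Fin k) : ℝ) = k := by simp
  obtain ⟨x, hxU, hmax⟩ := AL Prod.fst lam Y l H e r ρ M M' K0 hlam0 hY hYc hdual hspan p hp hM hM'0 hK00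
    hMb hM'b (fun n _ => hrpos n)
    (fun n _ => by
      rw [hr]; simp only [div_pow, Real.sq_sqrt (hlam0 n)]
      field_simp
      exact div_self (hlampos n).ne')
    (by nlinarith [sq_nonneg ρ]) hK1 hK2
    (by
      intro n hn x hx
      have h1 := hG n hn x hx
      have h2 : 2 * k * K0 * M' * M / ρ < Real.exp (-(qf Prod.fst lam Y n.1 x)) * Real.sqrt (lam n) := by
        refine lt_of_le_of_lt ?_ h1
        rw [hCst]
        have : 0 ≤ 4 * M' ^ 2 * M ^ 2 * N * (k * K0) := by positivity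
        linarith
      rw [hcardi, hr]
      have hsq : 0 < Real.sqrt (lam n) := Real.sqrt_pos.mpr (hlampos n)
      have h3 : (k:ℝ) * (K0 * (M' * M * (ρ / Real.sqrt (lam n))))
          = (2 * k * K0 * M' * M / ρ) * (ρ ^ 2 / 2 / Real.sqrt (lam n)) := by
        field_simp
      have h4 : Real.exp (-(qf Prod.fst lam Y n.1 x)) * (ρ ^ 2 / 2)
          = (Real.exp (-(qf Prod.fst lam Y n.1 x)) * Real.sqrt (lam n)) * (ρ ^ 2 / 2 / Real.sqrt (lam n)) := by
        field_simp
      rw [h3, h4]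
      exact mul_lt_mul_of_pos_right h2 (by positivity))
    (by
      intro n hn x hx
      have h1 := hG n hn x hx
      have h2 : 4 * M' ^ 2 * M ^ 2 * N * (k * K0)
          < Real.exp (-(qf Prod.fst lam Y n.1 x)) * Real.sqrt (lam n) := by
        refine lt_of_le_of_lt ?_ h1
        rw [hCst]
        have : 0 ≤ 2 * k * K0 * M' * M / ρ := by positivity
        linarith
      rw [hcardi]
      have h3 : 4 * (M' ^ 2 * M ^ 2 * H.card) * (k * K0) ≤ 4 * M' ^ 2 * M ^ 2 * N * (k * K0) := by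
        have h4 : 0 ≤ 4 * M' ^ 2 * M ^ 2 * (k * K0) := by positivity
        nlinarith [mul_le_mul_of_nonneg_left hcardH h4]
      refine lt_of_le_of_lt h3 (lt_of_lt_of_le h2 ?_)
      refine mul_le_mul_of_nonneg_left ?_ (Real.exp_pos _).le
      rw [Real.sqrt_le_left (hlam0 n)]
      nlinarith [hlam1 n])
  refine ⟨x, ?_, ?_, ?_⟩
  · intro n hn
    refine lt_of_lt_of_le (hxU n hn) ((hrle n).trans ?_)
    rw [div_le_iff₀ hsLpos]
    have h1 : 0 ≤ 2 * (M * N) / h := by positivity
    have h2 : 2 / h ≤ Real.sqrt L := by linarith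
    rw [div_le_iff₀ hh] at h2
    linarith
  · exact hlow x (fun n hn => (hxU n hn).le)
  · have hopen : IsOpen {y | ∀ n ∈ H, |Y n y| < r n} := by
      have : {y | ∀ n ∈ H, |Y n y| < r n} = ⋂ n ∈ H, {y | |Y n y| < r n} := by
        ext y; simp
      rw [this]
      exact isOpen_biInter_finset (fun n _ => isOpen_lt (hYc n).abs continuous_const)
    have hnhds : {y | ∀ n ∈ H, |Y n y| < r n} ∈ 𝓝 x := hopen.mem_nhds hxU
    rw [eventually_nhdsWithin_iff]
    filter_upwards [hnhds] with y hy hyx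
    exact hmax y (fun n hn => (hy n hn).le) hyx

end Pool.Agent.Helper794.Modes
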