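import Pool.Agent.Helper794.Modes.Spec

open Finset Filter Topology Matrix

namespace Pool.Agent.Helper794.Modes

variable {k m : ℕ}

/-- sum of the lower levels -/
noncomputable def LamS (m : ℕ) (K L : ℝ) : ℝ := ∑ j : Fin (m+1), tow K L (m - j.val)

/-- the strengths -/
noncomputable def lamf (K L δ : ℝ) (n : JJ k m) : ℝ :=
  if n ∈ Spc k m then (if n.1 = 0 then tow K (1/δ^2) (m - n.2.val) else 1/δ^2)
  else (if n.1 = 0 then LamS m K L else tow K L (m + 1 - n.2.val))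

lemma tow_le_LamS (m : ℕ) (K L : ℝ) (hK : 1 ≤ K) (hL : 1 ≤ L) {n : ℕ} (hn : n ≤ m) :
    tow K L n ≤ LamS m K L := by
  have h1 : tow K L (m - (⟨m - n, by omega⟩ : Fin (m+1)).val) ≤ LamS m K L := by
    unfold LamS
    refine Finset.single_le_sum (f := fun j : Fin (m+1) => tow K L (m - j.val)) (fun j _ => ?_)
      (Finset.mem_univ _)
    exact (zero_le_one.trans hL).trans (tow_step K L hK hL _).1
  have h2 : m - (m - n) = n := by omega
  simpa [h2] using h1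

lemma L_le_LamS (m : ℕ) (K L : ℝ) (hK : 1 ≤ K) (hL : 1 ≤ L) : L ≤ LamS m K L :=
  tow_le_LamS m K L hK hL (Nat.zero_le m)

section
variable (K L δ : ℝ) (hK : 1 ≤ K) (hL : 1 ≤ L) (hD : Real.exp (K * LamS m K L) ≤ 1/δ^2)
include hK hL hD

lemma D_ge : LamS m K L ≤ 1/δ^2 := by
  have h1 := L_le_LamS m K L hK hL
  have h2 := Real.add_one_le_exp (K * LamS m K L)
  nlinarith

lemma D_ge1 : 1 ≤ 1/δ^2 :=
  hL.trans ((L_le_LamS m K L hK hL).trans (D_ge K L δ hK hL hD))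

lemma lamf_ge (n : JJ k m) : L ≤ lamf K L δ n := by
  have h1 := D_ge K L δ hK hL hD
  have h2 := L_le_LamS m K L hK hL
  have h3 := D_ge1 K L δ hK hL hD
  unfold lamf
  split_ifs
  · exact (h2.trans h1).trans (tow_step K (1/δ^2) hK h3 _).1
  · exact h2.trans h1
  · exact h2
  · exact (tow_step K L hK hL _).1

lemma lamf_tower (i : Fin (k+3)) (j j' : Fin (m+2)) (hjj' : j < j') :
    Real.exp (K * lamf K L δ ((i, j') : JJ k m)) ≤ lamf K L δ ((i, j) : JJ k m) := by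
  have h3 := D_ge1 K L δ hK hL hD
  have hv : j.val < j'.val := hjj'
  have hj' := j'.isLt
  by_cases hi0 : i = 0
  · subst hi0
    have hjn : j ≠ nu := by
      intro h; rw [h, nu_val] at hv; omega
    have hm : ((0, j) : JJ k m) ∈ Spc k m := (mem_Spc 0 j).mpr (Or.inl ⟨rfl, hjn⟩)
    by_cases hj'n : j' = nu
    · have hm' : ((0, j') : JJ k m) ∉ Spc k m := by
        rw [mem_Spc]
        rintro (⟨_, h⟩ | ⟨h, _⟩ | ⟨h, _⟩)
        · exact h hj'n
        · exact s0 h.symm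
        · exact s1 h.symm
      unfold lamf
      rw [if_neg hm', if_pos hm, if_pos rfl, if_pos rfl]
      exact hD.trans (tow_step K (1/δ^2) hK h3 _).1
    · have hm' : ((0, j') : JJ k m) ∈ Spc k m := (mem_Spc 0 j').mpr (Or.inl ⟨rfl, hj'n⟩)
      unfold lamf
      rw [if_pos hm', if_pos hm, if_pos rfl, if_pos rfl]
      apply tow_exp K (1/δ^2) hK h3
      have : j'.val ≠ m + 1 := by
        intro h; exact hj'n (Fin.ext h)
      show m - j'.val < m - j.val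
      omega
  · have hj'0 : j' ≠ 0 := by
      intro h; rw [h] at hv; simp at hv
    have hm' : ((i, j') : JJ k m) ∉ Spc k m := by
      rw [mem_Spc]
      rintro (⟨h, _⟩ | ⟨_, h⟩ | ⟨_, h⟩)
      · exact hi0 h
      · exact hj'0 h
      · exact hj'0 h
    by_cases hm : ((i, j) : JJ k m) ∈ Spc k m
    · unfold lamf
      rw [if_neg hm', if_pos hm, if_neg hi0, if_neg hi0]
      refine le_trans (Real.exp_le_exp.mpr ?_) hD
      refine mul_le_mul_of_nonneg_left ?_ (by linarith)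
      apply tow_le_LamS m K L hK hL
      show m + 1 - j'.val ≤ m
      omega
    · unfold lamf
      rw [if_neg hm', if_neg hm, if_neg hi0, if_neg hi0]
      apply tow_exp K L hK hL
      show m + 1 - j'.val < m + 1 - j.val
      omega

end

lemma lamf_alf (K L δ : ℝ) : lamf K L δ (alf : JJ k m) = 1/δ^2 := by
  unfold lamf
  rw [if_pos alf_mem]
  unfold alf
  rw [if_pos rfl]
  show tow K (1/δ^2) (m - m) = _
  rw [Nat.sub_self]; rfl

lemma lamf_mu (K L δ : ℝ) : lamf K L δ (idx mu : JJ k m) = 1/δ^2 := by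
  unfold lamf
  rw [if_pos (idx_mem mu), idx_mu]
  unfold bet
  rw [if_neg s0]

lemma lamf_nu (K L δ : ℝ) : lamf K L δ (idx nu : JJ k m) = 1/δ^2 := by
  unfold lamf
  rw [if_pos (idx_mem nu), idx_nu]
  unfold gam
  rw [if_neg s1]

lemma lamf_tj (K L δ : ℝ) (j : Fin m) :
    lamf K L δ (idx (tj j) : JJ k m) = tow K (1/δ^2) (m - j.val) := by
  unfold lamf
  rw [if_pos (idx_mem (tj j)), idx_tj, if_pos rfl]
  rfl

lemma lamf_out (K L δ δ' : ℝ) (n : JJ k m) (hn : n ∉ Spc k m) : lamf K L δ n = lamf K L δ' n := by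
  unfold lamf
  rw [if_neg hn, if_neg hn]

lemma sqrt_inv (δ : ℝ) (hδ : 0 < δ) : Real.sqrt (1/δ^2) = 1/δ := by
  rw [Real.sqrt_div zero_le_one, Real.sqrt_one, Real.sqrt_sq hδ.le]

lemma s_mu (K L δ : ℝ) (hδ : 0 < δ) : (Real.sqrt (lamf K L δ (idx mu : JJ k m)))⁻¹ = δ := by
  rw [lamf_mu, sqrt_inv δ hδ, one_div, inv_inv]

lemma s_nu (K L δ : ℝ) (hδ : 0 < δ) : (Real.sqrt (lamf K L δ (idx nu : JJ k m)))⁻¹ = δ := by
  rw [lamf_nu, sqrt_inv δ hδ, one_div, inv_inv]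

lemma s_tj (K L δ : ℝ) (hK : 1 ≤ K) (hδ : 0 < δ) (hδ1 : δ ≤ 1) (j : Fin m) :
    (Real.sqrt (lamf K L δ (idx (tj j) : JJ k m)))⁻¹ ≤ 2 * δ^2 := by
  have h1 : 1 ≤ 1/δ^2 := by
    rw [le_div_iff₀ (by positivity)]; nlinarith
  have h2 : Real.exp (K * (1/δ^2)) ≤ tow K (1/δ^2) (m - j.val) := by
    have : 0 < m - j.val := by have := j.isLt; omega
    exact tow_exp K (1/δ^2) hK h1 this
  have h3 : (1/(2*δ^2))^2 ≤ Real.exp (K * (1/δ^2)) := by
    have h4 : Real.exp (1/δ^2) ≤ Real.exp (K * (1/δ^2)) :=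
      Real.exp_le_exp.mpr (by nlinarith)
    refine le_trans ?_ h4
    have h5 := Real.quadratic_le_exp_of_nonneg (x := 1/δ^2) (by positivity)
    have h6 : (1/(2*δ^2))^2 = (1/δ^2)^2/4 := by
      field_simp; norm_num
    rw [h6]
    nlinarith [sq_nonneg (1/δ^2)]
  have h7 : 1/(2*δ^2) ≤ Real.sqrt (lamf K L δ (idx (tj j) : JJ k m)) := by
    rw [lamf_tj]
    exact Real.le_sqrt_of_sq_le (h3.trans h2)
  calc (Real.sqrt (lamf K L δ (idx (tj j) : JJ k m)))⁻¹ ≤ (1/(2*δ^2))⁻¹ :=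
        inv_anti₀ (by positivity) h7
    _ = 2 * δ^2 := by rw [one_div, inv_inv]

lemma s_le (K L δ : ℝ) (hK : 1 ≤ K) (hδ : 0 < δ) (hδ1 : δ ≤ 1) (l : Fin (m+2)) :
    (Real.sqrt (lamf K L δ (idx l : JJ k m)))⁻¹ ≤ 2 * δ := by
  refine fin_cases' (P := fun l => (Real.sqrt (lamf K L δ (idx l : JJ k m)))⁻¹ ≤ 2 * δ) ?_ ?_ ?_ l
  · intro j
    refine (s_tj K L δ hK hδ hδ1 j).trans ?_
    nlinarith
  · rw [s_mu K L δ hδ]; linarith
  · rw [s_nu K L δ hδ]; linarith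

lemma s_nonneg (K L δ : ℝ) (l : Fin (m+2)) :
    0 ≤ (Real.sqrt (lamf K L δ (idx l : JJ k m)))⁻¹ := inv_nonneg.mpr (Real.sqrt_nonneg _)

end Pool.Agent.Helper794.Modes
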