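import Pool.Agent.Helper794.Modes.Fam

open Finset Filter Topology Matrix

namespace Pool.Agent.Helper794.Modes

lemma vand {J : Type*} [DecidableEq J] (t : J → ℝ) (ht : Function.Injective t) (H : Finset J) {n : ℕ}
    (hcard : H.card = n) (v : Fin n → ℝ) (h : ∀ j ∈ H, ∑ i : Fin n, t j ^ (i : ℕ) * v i = 0) :
    v = 0 := by
  let E := H.equivFinOfCardEq hcard
  refine eq_zero_of_forall_index_sum_pow_mul_eq_zero (f := fun i => t (E.symm i).1) ?_ ?_
  · intro a b hab
    have := ht hab
    exact E.symm.injective (Subtype.ext this)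
  · intro i
    exact h _ (E.symm i).2

/-- the nodes -/
noncomputable def node {k d : ℕ} (j : Fin k × Fin d) : ℝ := ((finProdFinEquiv j).val : ℝ) + 1

lemma node_pos {k d : ℕ} (j : Fin k × Fin d) : 0 < node j := by
  unfold node; positivity

lemma node_injective {k d : ℕ} : Function.Injective (node : Fin k × Fin d → ℝ) := by
  intro a b hab
  unfold node at hab
  have : ((finProdFinEquiv a).val : ℝ) = (finProdFinEquiv b).val := by linarith
  have h2 : (finProdFinEquiv a).val = (finProdFinEquiv b).val := by exact_mod_cast this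
  exact finProdFinEquiv.injective (Fin.ext h2)

/-- the linear parts -/
noncomputable def Anode {k d : ℕ} (j : Fin k × Fin d) : Fin d → ℝ := fun l => -(node j) ^ (l.val + 1)

lemma Anode_dot {k d : ℕ} (j : Fin k × Fin d) (v : Fin d → ℝ) :
    Anode j ⬝ᵥ v = -(node j * ∑ i : Fin d, node j ^ (i : ℕ) * v i) := by
  unfold Anode dotProduct
  rw [Finset.mul_sum, ← Finset.sum_neg_distrib]
  refine Finset.sum_congr rfl (fun i _ => ?_)
  show -node j ^ ((i : ℕ) + 1) * v i = _
  ring

lemma Anode_gp {k d : ℕ} (H : Finset (Fin k × Fin d)) (hH : H.card = d) (v : Fin d → ℝ)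
    (h : ∀ n ∈ H, Anode n ⬝ᵥ v = 0) : v = 0 := by
  refine vand node node_injective H hH v ?_
  intro j hj
  have := h j hj
  rw [Anode_dot, neg_eq_zero, mul_eq_zero] at this
  rcases this with h1 | h1
  · exact absurd h1 (node_pos j).ne'
  · exact h1

lemma Anode_nz {k d : ℕ} (H : Finset (Fin k × Fin d)) (hH : H.card = d) (x : Fin d → ℝ)
    (h : ∀ n ∈ H, aff Anode 1 n x = 0) (j : Fin k × Fin d) (hj : j ∉ H) :
    aff Anode 1 j x ≠ 0 := by
  intro hj0
  have hall : ∀ n ∈ insert j H, aff Anode 1 n x = 0 := by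
    intro n hn
    rcases Finset.mem_insert.mp hn with rfl | hn
    · exact hj0
    · exact h n hn
  have hcard : (insert j H).card = d + 1 := by rw [Finset.card_insert_of_notMem hj, hH]
  have := vand node node_injective (insert j H) hcard (Fin.cons (-1) x) (by
    intro n hn
    have h1 := hall n hn
    unfold aff at h1
    rw [Anode_dot, Pi.one_apply] at h1
    rw [Fin.sum_univ_succ]
    simp only [Fin.val_zero, pow_zero, one_mul, Fin.cons_zero, Fin.val_succ, Fin.cons_succ]
    have h2 : ∑ i : Fin d, node n ^ ((i : ℕ) + 1) * x i = node n * ∑ i : Fin d, node n ^ (i : ℕ) * x i := by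
      rw [Finset.mul_sum]
      refine Finset.sum_congr rfl (fun i _ => ?_)
      rw [pow_succ]; ring
    rw [h2]; linarith)
  have h0 := congrFun this 0
  simp at h0

/-- the tower -/
noncomputable def tow (K L : ℝ) : ℕ → ℝ
  | 0 => L
  | n + 1 => Real.exp (K * tow K L n)

lemma tow_step (K L : ℝ) (hK : 1 ≤ K) (hL : 1 ≤ L) (n : ℕ) :
    L ≤ tow K L n ∧ tow K L n ≤ tow K L (n + 1) := by
  have key : ∀ x : ℝ, 1 ≤ x → x ≤ Real.exp (K * x) := by
    intro x hx
    have h1 := Real.add_one_le_exp (K * x)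
    nlinarith
  induction n with
  | zero => exact ⟨le_rfl, key L hL⟩
  | succ n ih =>
    have h1 : L ≤ tow K L (n + 1) := ih.1.trans ih.2
    exact ⟨h1, key _ (hL.trans h1)⟩

lemma tow_mono (K L : ℝ) (hK : 1 ≤ K) (hL : 1 ≤ L) : Monotone (tow K L) :=
  monotone_nat_of_le_succ (fun n => (tow_step K L hK hL n).2)

lemma tow_exp (K L : ℝ) (hK : 1 ≤ K) (hL : 1 ≤ L) {m n : ℕ} (h : m < n) :
    Real.exp (K * tow K L m) ≤ tow K L n := by
  have : tow K L (m + 1) ≤ tow K L n := tow_mono K L hK hL h
  exact this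

/-- Lower bound: `M(d,k) ≥ binom (d+k-1) d`. -/
theorem lower (d k : ℕ) (hd : 1 ≤ d) (hk : 1 ≤ k) :
    ((d + k - 1).choose d : ℕ∞) ≤ maxModes d k := by
  obtain ⟨K, L, h, hL, hK, hh, _, hev⟩ := modes_family k d hk hd Anode 1 0 Anode_gp Finset.univ
    (fun s _ x hx j hj => Anode_nz (HS s) (HS_card s) x hx j hj)
  have h0 := hev.self_of_nhds
  have hlamL : ∀ j : Fin k × Fin d, L ≤ tow K L (d - 1 - j.2.val) :=
    fun j => (tow_step K L hK hL _).1
  have hm := h0 (fun j => tow K L (d - 1 - j.2.val)) hlamL (by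
    intro i j j' hjj'
    apply tow_exp K L hK hL
    have h1 := j'.isLt
    have h2 : j.val < j'.val := hjj'
    show d - 1 - j'.val < d - 1 - j.val
    omega)
  simp only [smul_zero, add_zero, Finset.mem_univ, true_implies] at hm
  choose x hx1 hx2 hx3 using hm
  have hinj : Function.Injective x := by
    intro s t hst
    apply HS_injective
    ext j
    constructor
    · intro hj
      by_contra hj'
      have e1 := hx1 s j hj
      have e2 := hx2 t j hj'
      rw [hst] at e1
      linarith
    · intro hj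
      by_contra hj'
      have e1 := hx1 t j hj
      have e2 := hx2 s j hj'
      rw [hst] at e2
      linarith
  have hown : ∀ i : Fin k, ((Finset.univ : Finset (Fin d)).map
      ⟨fun j => (i, j), fun a b h => by simpa using h⟩).card = d := by
    intro i; simp
  have hμ : ∀ i : Fin k, ∃ μ : Fin d → ℝ, ∀ j, aff Anode 1 (i, j) μ = 0 := by
    intro i
    obtain ⟨e, he, _⟩ := exists_dual (Anode (k := k) (d := d)) _ (hown i) (Anode_gp _ (hown i))
    exact ⟨_, fun j => pt_zero Anode e 1 _ he (i, j)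
      (Finset.mem_map.mpr ⟨j, Finset.mem_univ _, rfl⟩)⟩
  choose μ hμ using hμ
  have hfin := le_maxModes k d hk (fun j => tow K L (d - 1 - j.2.val))
    (fun j => lt_of_lt_of_le one_pos (hL.trans (hlamL j))) Anode 1 μ hμ (by
      intro i v hv
      refine Anode_gp _ (hown i) v ?_
      intro n hn
      obtain ⟨j, _, rfl⟩ := Finset.mem_map.mp hn
      exact hv j) x hinj hx3
  rwa [Sym.card_sym_eq_choose, Fintype.card_fin, add_comm k d] at hfin

end Pool.Agent.Helper794.Modes
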