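import Pool.Agent.Helper794.Modes.GT
import Pool.Agent.Helper794.Modes.Defs

open Finset Filter Topology Matrix

namespace Pool.Agent.Helper794.Modes

/-- the affine functional with constant term `c j` and linear part `A j` -/
noncomputable def aff {d : ℕ} {J : Type*} (A : J → (Fin d → ℝ)) (c : J → ℝ) (j : J)
    (x : Fin d → ℝ) : ℝ := c j + A j ⬝ᵥ x

/-- the linear part -/
noncomputable def lin {d : ℕ} {J : Type*} (A : J → (Fin d → ℝ)) (j : J) :
    (Fin d → ℝ) →ₗ[ℝ] ℝ where
  toFun v := A j ⬝ᵥ v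
  map_add' := fun x y => dotProduct_add _ _ _
  map_smul' := fun r x => by simp

lemma aff_add {d : ℕ} {J : Type*} (A : J → (Fin d → ℝ)) (c : J → ℝ) (j : J) (x v : Fin d → ℝ) :
    aff A c j (x + v) = aff A c j x + lin A j v := by
  simp only [aff, lin, LinearMap.coe_mk, AddHom.coe_mk, dotProduct_add]
  ring

lemma aff_cont {d : ℕ} {J : Type*} (A : J → (Fin d → ℝ)) (c : J → ℝ) (j : J) :
    Continuous (aff A c j) := by
  unfold aff
  refine continuous_const.add ?_
  unfold dotProduct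
  exact continuous_finsetSum _ (fun i _ => continuous_const.mul (continuous_apply i))

/-- Every sum of exponentials of minus such quadratic functions is, up to a positive factor,
the density of a Gaussian mixture. -/
theorem exists_mixture (k d : ℕ) (hk : 1 ≤ k) (lam : Fin k × Fin d → ℝ) (hlam : ∀ j, 0 < lam j)
    (A : Fin k × Fin d → (Fin d → ℝ)) (c : Fin k × Fin d → ℝ)
    (μ : Fin k → (Fin d → ℝ)) (hμ : ∀ i j, aff A c (i, j) (μ i) = 0)
    (hinj : ∀ i (v : Fin d → ℝ), (∀ j, A (i, j) ⬝ᵥ v = 0) → v = 0) :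
    ∃ m : GaussianMixture d k, ∃ Z : ℝ, 0 < Z ∧
      ∀ x, m.density x = Z * ∑ i, Real.exp (-(qf Prod.fst lam (aff A c) i x)) := by
  classical
  have : Nonempty (Fin k) := ⟨⟨0, hk⟩⟩
  -- the square roots of the precision matrices
  set B : Fin k → Matrix (Fin d) (Fin d) ℝ :=
    fun i => Matrix.of (fun j l => Real.sqrt (lam (i, j)) * A (i, j) l) with hB
  have hBv : ∀ i v j, (B i *ᵥ v) j = Real.sqrt (lam (i, j)) * (A (i, j) ⬝ᵥ v) := by
    intro i v j
    simp only [hB, mulVec, dotProduct, Matrix.of_apply, Finset.mul_sum]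
    exact Finset.sum_congr rfl (fun l _ => by ring)
  have hBinj : ∀ i, Function.Injective (B i).mulVec := by
    intro i u v huv
    have : u - v = 0 := by
      apply hinj i
      intro j
      have h1 : (B i *ᵥ (u - v)) j = 0 := by
        rw [mulVec_sub]
        have : B i *ᵥ u = B i *ᵥ v := huv
        rw [this]; simp
      rw [hBv] at h1
      rcases mul_eq_zero.mp h1 with h2 | h2
      · exact absurd h2 (Real.sqrt_pos.mpr (hlam _)).ne'
      · exact h2
    exact sub_eq_zero.mp this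
  have hQ : ∀ i, ((B i)ᴴ * B i).PosDef := fun i => PosDef.conjTranspose_mul_self _ (hBinj i)
  set S : Fin k → Matrix (Fin d) (Fin d) ℝ := fun i => ((B i)ᴴ * B i)⁻¹ with hS
  have hSpos : ∀ i, (S i).PosDef := fun i => (hQ i).inv
  have hSinv : ∀ i, (S i)⁻¹ = (B i)ᴴ * B i := by
    intro i
    rw [hS]
    exact nonsing_inv_nonsing_inv _ ((Matrix.isUnit_iff_isUnit_det _).mp (hQ i).isUnit)
  set a : Fin k → ℝ := fun i =>
    (2 * Real.pi) ^ (-(d : ℝ) / 2) * (S i).det ^ (-(1 : ℝ) / 2) with ha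
  have hapos : ∀ i, 0 < a i := fun i =>
    mul_pos (Real.rpow_pos_of_pos (by positivity) _) (Real.rpow_pos_of_pos (hSpos i).det_pos _)
  set T : ℝ := ∑ i, (a i)⁻¹ with hT
  have hTpos : 0 < T := Finset.sum_pos (fun i _ => inv_pos.mpr (hapos i)) Finset.univ_nonempty
  refine ⟨⟨fun i => (a i)⁻¹ / T, μ, S, fun i => div_pos (inv_pos.mpr (hapos i)) hTpos, ?_, hSpos⟩,
    T⁻¹, inv_pos.mpr hTpos, ?_⟩
  · rw [← Finset.sum_div, ← hT, div_self hTpos.ne']
  intro x
  unfold GaussianMixture.density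
  rw [Finset.mul_sum]
  refine Finset.sum_congr rfl ?_
  intro i _
  show (a i)⁻¹ / T * gaussianDensity (μ i) (S i) x = _
  have hquad : (x - μ i) ⬝ᵥ ((S i)⁻¹ *ᵥ (x - μ i)) = ∑ j, lam (i, j) * (aff A c (i, j) x) ^ 2 := by
    rw [hSinv, ← mulVec_mulVec, dotProduct_mulVec, conjTranspose_eq_transpose_of_trivial,
      vecMul_transpose]
    unfold dotProduct
    refine Finset.sum_congr rfl ?_
    intro j _
    rw [hBv]
    have h1 : A (i, j) ⬝ᵥ (x - μ i) = aff A c (i, j) x := by
      have h2 := hμ i j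
      unfold aff at h2 ⊢
      rw [dotProduct_sub]
      linarith
    rw [h1]
    have h3 := Real.mul_self_sqrt (hlam (i, j)).le
    calc _ = (Real.sqrt (lam (i, j)) * Real.sqrt (lam (i, j))) * (aff A c (i, j) x) ^ 2 := by ring
      _ = _ := by rw [h3]
  have hqf : qf Prod.fst lam (aff A c) i x = (1 / 2) * ∑ j, lam (i, j) * (aff A c (i, j) x) ^ 2 := by
    unfold qf
    rw [Finset.mul_sum]
    symm
    refine Finset.sum_bij (fun j _ => (i, j)) ?_ ?_ ?_ ?_
    · intro j _; simp [own_set]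
    · intro j _ j' _ h; simpa using h
    · rintro ⟨i', j⟩ h
      have : i' = i := by simpa [own_set] using h
      subst this
      exact ⟨j, Finset.mem_univ _, rfl⟩
    · intro j _; ring
  unfold gaussianDensity
  rw [hquad, hqf]
  have : (2 * Real.pi) ^ (-(d : ℝ) / 2) * (S i).det ^ (-(1 : ℝ) / 2) = a i := rfl
  rw [this]
  have hai := (hapos i).ne'
  have e1 : -(1 / 2) * ∑ j, lam (i, j) * (aff A c (i, j) x) ^ 2
      = -((1 / 2) * ∑ j, lam (i, j) * (aff A c (i, j) x) ^ 2) := by ring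
  rw [e1]
  field_simp

/-- modes of the sum of exponentials are modes of the mixture -/
theorem le_maxModes (k d : ℕ) (hk : 1 ≤ k) (lam : Fin k × Fin d → ℝ) (hlam : ∀ j, 0 < lam j)
    (A : Fin k × Fin d → (Fin d → ℝ)) (c : Fin k × Fin d → ℝ)
    (μ : Fin k → (Fin d → ℝ)) (hμ : ∀ i j, aff A c (i, j) (μ i) = 0)
    (hinj : ∀ i (v : Fin d → ℝ), (∀ j, A (i, j) ⬝ᵥ v = 0) → v = 0)
    {ι : Type*} [Fintype ι] (x : ι → (Fin d → ℝ)) (hx : Function.Injective x)
    (hmax : ∀ s, ∀ᶠ y in 𝓝[≠] (x s), ∑ i, Real.exp (-(qf Prod.fst lam (aff A c) i y))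
        < ∑ i, Real.exp (-(qf Prod.fst lam (aff A c) i (x s)))) :
    (Fintype.card ι : ℕ∞) ≤ maxModes d k := by
  obtain ⟨m, Z, hZ, hm⟩ := exists_mixture k d hk lam hlam A c μ hμ hinj
  have h1 : (Set.range x) ⊆ {y | IsMode m.density y} := by
    rintro _ ⟨s, rfl⟩
    show IsMode m.density (x s)
    unfold IsMode
    filter_upwards [hmax s] with y hy
    rw [hm, hm]
    exact mul_lt_mul_of_pos_left hy hZ
  have h2 : (Set.range x).encard = (Fintype.card ι : ℕ∞) := by
    rw [← Set.image_univ, hx.encard_image, Set.encard_univ]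
    simp
  calc (Fintype.card ι : ℕ∞) = (Set.range x).encard := h2.symm
    _ ≤ Set.encard {y | IsMode m.density y} := Set.encard_le_encard h1
    _ ≤ maxModes d k := le_iSup (fun m : GaussianMixture d k =>
        Set.encard {x | IsMode m.density x}) m

end Pool.Agent.Helper794.Modes
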