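import Mathlib

namespace Pool.Agent.Helper794.Modes

/-- lower bound for the exponential -/
lemma exp28 : (16:ℝ) ≤ Real.exp (28/10) := by
  have h := Real.sum_le_exp_of_nonneg (x := (28/10:ℝ)) (by norm_num) 9
  refine le_trans ?_ h
  norm_num [Finset.sum_range_succ, Nat.factorial]

/-- curvature bound for the far component -/
lemma curv (U : ℝ) (hU : 237/100 ≤ U) :
    Real.exp (-(U^2/2)) * (101/100 * U^2 - 1) ≤ 3/10 := by
  have h1 : (28/10:ℝ) ≤ U^2/2 := by nlinarith
  have h2 : Real.exp (28/10) * (1 + (U^2/2 - 28/10)) ≤ Real.exp (U^2/2) := by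
    have e : Real.exp (U^2/2) = Real.exp (28/10) * Real.exp (U^2/2 - 28/10) := by
      rw [← Real.exp_add]; congr 1; ring
    rw [e]
    refine mul_le_mul_of_nonneg_left ?_ (Real.exp_pos _).le
    linarith [Real.add_one_le_exp (U^2/2 - 28/10)]
  have h3 : 16 * (1 + (U^2/2 - 28/10)) ≤ Real.exp (U^2/2) :=
    le_trans (mul_le_mul_of_nonneg_right exp28 (by linarith)) h2
  rw [Real.exp_neg, inv_mul_le_iff₀ (Real.exp_pos _)]
  nlinarith

lemma exp_small : (95/100:ℝ) ≤ Real.exp (-(91/2000)) := by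
  have := Real.add_one_le_exp (-(91/2000):ℝ)
  linarith

/-- gain -/
lemma gain : (430/10000:ℝ) ≤ 1 - Real.exp (-((3/10)^2/2)) := by
  have h1 : (1 + (45/1000:ℝ)) ≤ Real.exp (45/1000) := by
    linarith [Real.add_one_le_exp (45/1000:ℝ)]
  have h2 : Real.exp (-((3/10:ℝ)^2/2)) = (Real.exp (45/1000))⁻¹ := by
    rw [← Real.exp_neg]; congr 1; norm_num
  rw [h2]
  have h3 : (Real.exp (45/1000:ℝ))⁻¹ ≤ (1045/1000:ℝ)⁻¹ := by
    apply inv_anti₀ (by norm_num)
    linarith
  have h4 : ((1045/1000:ℝ))⁻¹ ≤ 957/1000 := by norm_num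
  linarith

lemma exp338 : Real.exp (-(338/100:ℝ)) ≤ 36/1000 := by
  have h := Real.sum_le_exp_of_nonneg (x := (338/100:ℝ)) (by norm_num) 10
  have h2 : (28:ℝ) ≤ Real.exp (338/100) := by
    refine le_trans ?_ h
    norm_num [Finset.sum_range_succ, Nat.factorial]
  rw [Real.exp_neg]
  calc (Real.exp (338/100:ℝ))⁻¹ ≤ (28:ℝ)⁻¹ := inv_anti₀ (by norm_num) h2
    _ ≤ 36/1000 := by norm_num

/-- loss of the far component when a coordinate is reset -/
lemma loss (U q : ℝ) (hU : 237/100 ≤ U) (hq : |q| = 3/10) :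
    Real.exp (-(U^2/2)) - Real.exp (-((U+q)^2/2)) ≤ 415/10000 := by
  rcases abs_eq (by norm_num : (0:ℝ) ≤ 3/10) |>.mp hq with rfl | rfl
  · by_cases h : 26/10 ≤ U
    · have h1 : Real.exp (-(U^2/2)) ≤ 36/1000 := by
        refine le_trans (Real.exp_le_exp.mpr ?_) exp338
        nlinarith
      have := Real.exp_pos (-((U+3/10)^2/2))
      linarith
    · push Not at h
      have e : Real.exp (-((U+3/10)^2/2)) = Real.exp (-(U^2/2)) * (Real.exp (-((3/10)*U/2 + 9/400)))^2 := by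
        rw [← Real.exp_nat_mul, ← Real.exp_add]; congr 1; push_cast; ring
      have h2 : (5875/10000:ℝ) ≤ Real.exp (-((3/10)*U/2 + 9/400)) := by
        have := Real.add_one_le_exp (-((3/10)*U/2 + 9/400))
        linarith
      have h3 : (5875/10000:ℝ)^2 ≤ (Real.exp (-((3/10)*U/2 + 9/400)))^2 :=
        pow_le_pow_left₀ (by norm_num) h2 2
      have h4 : Real.exp (-(U^2/2)) ≤ 625/10000 := by
        have h5 : Real.exp (-(U^2/2)) ≤ Real.exp (-(28/10)) := Real.exp_le_exp.mpr (by nlinarith)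
        refine h5.trans ?_
        rw [Real.exp_neg]
        calc (Real.exp (28/10:ℝ))⁻¹ ≤ (16:ℝ)⁻¹ := inv_anti₀ (by norm_num) exp28
          _ ≤ 625/10000 := by norm_num
      rw [e]
      have h6 := Real.exp_pos (-(U^2/2))
      nlinarith [mul_le_mul_of_nonneg_left h3 h6.le]
  · have : Real.exp (-(U^2/2)) ≤ Real.exp (-((U + -(3/10))^2/2)) := Real.exp_le_exp.mpr (by nlinarith)
    linarith

end Pool.Agent.Helper794.Modes
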