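import Pool.Agent.Helper794.Modes.Conf
import Pool.Agent.Helper794.Modes.Base2

open Finset Filter Topology Matrix

namespace Pool.Agent.Helper794.Modes

abbrev JJ (k m : ℕ) := Fin (k+3) × Fin (m+2)

variable {k m : ℕ}

def alf : JJ k m := (0, mu)
def bet : JJ k m := (Fin.succ 0, 0)
def gam : JJ k m := (Fin.succ (Fin.succ 0), 0)

def idx (l : Fin (m+2)) : JJ k m :=
  Fin.snoc (α := fun _ => JJ k m) (Fin.snoc (α := fun _ => JJ k m)
    (fun j : Fin m => ((0, tj j) : JJ k m)) bet) gam l

lemma idx_tj (j : Fin m) : (idx (tj j) : JJ k m) = (0, tj j) := by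
  unfold idx tj; rw [Fin.snoc_castSucc, Fin.snoc_castSucc]
lemma idx_mu : (idx mu : JJ k m) = bet := by
  unfold idx mu; rw [Fin.snoc_castSucc, Fin.snoc_last]
lemma idx_nu : (idx nu : JJ k m) = gam := by
  unfold idx nu; rw [Fin.snoc_last]

lemma tj_val (j : Fin m) : (tj j).val = j.val := rfl
lemma mu_val : (mu : Fin (m+2)).val = m := rfl
lemma nu_val : (nu : Fin (m+2)).val = m + 1 := rfl

lemma tj_inj {j j' : Fin m} (h : tj j = tj j') : j = j' := by
  have := congrArg Fin.val h
  rw [tj_val, tj_val] at this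
  exact Fin.ext this

lemma tj_ne_mu (j : Fin m) : tj j ≠ mu := by
  intro h
  have := congrArg Fin.val h
  rw [tj_val, mu_val] at this
  have := j.isLt; omega
lemma tj_ne_nu (j : Fin m) : tj j ≠ nu := by
  intro h
  have := congrArg Fin.val h
  rw [tj_val, nu_val] at this
  have := j.isLt; omega
lemma mu_ne_nu : (mu : Fin (m+2)) ≠ nu := by
  intro h
  have := congrArg Fin.val h
  rw [mu_val, nu_val] at this
  omega

lemma s0 : (Fin.succ 0 : Fin (k+3)) ≠ 0 := Fin.succ_ne_zero _
lemma s1 : (Fin.succ (Fin.succ 0) : Fin (k+3)) ≠ 0 := Fin.succ_ne_zero _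
lemma s2 : (Fin.succ (Fin.succ 0) : Fin (k+3)) ≠ Fin.succ 0 := by
  intro h
  exact Fin.succ_ne_zero _ (Fin.succ_injective _ h)

lemma idx_inj : Function.Injective (idx : Fin (m+2) → JJ k m) := by
  intro a b
  refine fin_cases' (P := fun a => idx a = (idx b : JJ k m) → a = b) ?_ ?_ ?_ a
  · intro j
    refine fin_cases' (P := fun b => idx (tj j) = (idx b : JJ k m) → tj j = b) ?_ ?_ ?_ b
    · intro j' h
      rw [idx_tj, idx_tj] at h
      exact (Prod.mk.inj h).2
    · intro h
      rw [idx_tj, idx_mu] at h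
      exact absurd (Prod.mk.inj h).1.symm s0
    · intro h
      rw [idx_tj, idx_nu] at h
      exact absurd (Prod.mk.inj h).1.symm s1
  · refine fin_cases' (P := fun b => idx mu = (idx b : JJ k m) → mu = b) ?_ ?_ ?_ b
    · intro j' h
      rw [idx_tj, idx_mu] at h
      exact absurd (Prod.mk.inj h).1 s0
    · intro _; rfl
    · intro h
      rw [idx_mu, idx_nu] at h
      exact absurd (Prod.mk.inj h).1.symm s2
  · refine fin_cases' (P := fun b => idx nu = (idx b : JJ k m) → nu = b) ?_ ?_ ?_ b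
    · intro j' h
      rw [idx_tj, idx_nu] at h
      exact absurd (Prod.mk.inj h).1 s1
    · intro h
      rw [idx_mu, idx_nu] at h
      exact absurd (Prod.mk.inj h).1 s2
    · intro _; rfl

/-- the special set -/
def Spc (k m : ℕ) : Finset (JJ k m) := insert alf (Finset.univ.image idx)

lemma idx_mem (l : Fin (m+2)) : idx l ∈ Spc k m :=
  Finset.mem_insert_of_mem (Finset.mem_image_of_mem _ (Finset.mem_univ l))

lemma alf_mem : alf ∈ Spc k m := Finset.mem_insert_self _ _

lemma alf_ne_idx (l : Fin (m+2)) : (alf : JJ k m) ≠ idx l := by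
  refine fin_cases' (P := fun l => (alf : JJ k m) ≠ idx l) ?_ ?_ ?_ l
  · intro j h
    rw [idx_tj] at h
    exact tj_ne_mu j (Prod.mk.inj h).2.symm
  · intro h
    rw [idx_mu] at h
    exact absurd (Prod.mk.inj h).1.symm s0
  · intro h
    rw [idx_nu] at h
    exact absurd (Prod.mk.inj h).1.symm s1

lemma img_card : (Finset.univ.image (idx : Fin (m+2) → JJ k m)).card = m + 2 := by
  rw [Finset.card_image_of_injective _ idx_inj]; simp

lemma alf_notMem : alf ∉ Finset.univ.image (idx : Fin (m+2) → JJ k m) := by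
  rw [Finset.mem_image]
  rintro ⟨l, _, h⟩
  exact alf_ne_idx l h.symm

lemma Spc_card : (Spc k m).card = (m + 2) + 1 := by
  unfold Spc
  rw [Finset.card_insert_of_notMem alf_notMem, img_card]

lemma mem_Spc (i : Fin (k+3)) (j : Fin (m+2)) : (i, j) ∈ Spc k m ↔
    (i = 0 ∧ j ≠ nu) ∨ (i = Fin.succ 0 ∧ j = 0) ∨ (i = Fin.succ (Fin.succ 0) ∧ j = 0) := by
  unfold Spc
  rw [Finset.mem_insert, Finset.mem_image]
  constructor
  · rintro (h | ⟨l, _, h⟩)
    · obtain ⟨rfl, rfl⟩ := Prod.mk.inj h
      exact Or.inl ⟨rfl, mu_ne_nu⟩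
    · revert h
      refine fin_cases' (P := fun l => idx l = (i, j) → _) ?_ ?_ ?_ l
      · intro j' h
        rw [idx_tj] at h
        obtain ⟨rfl, rfl⟩ := Prod.mk.inj h
        exact Or.inl ⟨rfl, tj_ne_nu j'⟩
      · intro h
        rw [idx_mu] at h
        obtain ⟨rfl, rfl⟩ := Prod.mk.inj h
        exact Or.inr (Or.inl ⟨rfl, rfl⟩)
      · intro h
        rw [idx_nu] at h
        obtain ⟨rfl, rfl⟩ := Prod.mk.inj h
        exact Or.inr (Or.inr ⟨rfl, rfl⟩)
  · rintro (⟨rfl, h⟩ | ⟨rfl, rfl⟩ | ⟨rfl, rfl⟩)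
    · revert h
      refine fin_cases' (P := fun j => j ≠ nu → (((0, j) : JJ k m) = alf ∨ ∃ a ∈ univ, idx a = ((0, j) : JJ k m)))
        ?_ ?_ ?_ j
      · intro j' _
        exact Or.inr ⟨tj j', Finset.mem_univ _, idx_tj j'⟩
      · intro _; exact Or.inl rfl
      · intro h; exact absurd rfl h
    · exact Or.inr ⟨mu, Finset.mem_univ _, idx_mu⟩
    · exact Or.inr ⟨nu, Finset.mem_univ _, idx_nu⟩

/-- the special types -/
lemma special_types (s : Sym (Fin (k+3)) (m+2)) (hs : HS s ⊆ Spc k m) :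
    HS s = (Spc k m).erase alf ∨ HS s = (Spc k m).erase bet ∨ HS s = (Spc k m).erase gam := by
  have h1 : (Spc k m \ HS s).card = 1 := by
    rw [Finset.card_sdiff_of_subset hs, Spc_card, HS_card]; omega
  obtain ⟨n, hn⟩ := Finset.card_eq_one.mp h1
  have hnm : n ∈ Spc k m \ HS s := by rw [hn]; exact Finset.mem_singleton_self n
  obtain ⟨hnS, hnH⟩ := Finset.mem_sdiff.mp hnm
  have heq : HS s = (Spc k m).erase n := by
    refine Finset.eq_of_subset_of_card_le ?_ ?_
    · intro a ha
      refine Finset.mem_erase.mpr ⟨?_, hs ha⟩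
      rintro rfl
      exact hnH ha
    · rw [Finset.card_erase_of_mem hnS, Spc_card, HS_card]; omega
  have hn2 := hnS
  unfold Spc at hn2
  rcases Finset.mem_insert.mp hn2 with h | h
  · left; rw [heq, h]
  · obtain ⟨l, _, hl⟩ := Finset.mem_image.mp h
    revert hl
    refine fin_cases' (P := fun l => idx l = n → _) ?_ ?_ ?_ l
    · intro j hj
      exfalso
      rw [idx_tj] at hj
      have h2 : (alf : JJ k m) ∈ HS s := by
        rw [heq]
        refine Finset.mem_erase.mpr ⟨?_, alf_mem⟩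
        rw [← hj]
        intro h
        exact tj_ne_mu j (Prod.mk.inj h).2.symm
      have h3 : ((0, tj j) : JJ k m) ∈ HS s := by
        unfold alf at h2
        rw [mem_HS] at h2 ⊢
        rw [mu_val] at h2
        rw [tj_val]
        exact lt_trans j.isLt h2
      rw [hj] at h3
      exact hnH h3
    · intro hj
      rw [idx_mu] at hj
      right; left; rw [heq, hj]
    · intro hj
      rw [idx_nu] at hj
      right; right; rw [heq, hj]

lemma special_count :
    (Finset.univ.filter (fun s : Sym (Fin (k+3)) (m+2) => HS s ⊆ Spc k m)).card ≤ 3 := by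
  have h1 : (Finset.univ.filter (fun s : Sym (Fin (k+3)) (m+2) => HS s ⊆ Spc k m)).image HS
      ⊆ {(Spc k m).erase alf, (Spc k m).erase bet, (Spc k m).erase gam} := by
    intro H hH
    obtain ⟨s, hs, rfl⟩ := Finset.mem_image.mp hH
    have := special_types s (Finset.mem_filter.mp hs).2
    simpa using this
  have h2 := Finset.card_le_card h1
  rw [Finset.card_image_of_injective _ HS_injective] at h2
  exact h2.trans (Finset.card_le_three)

end Pool.Agent.Helper794.Modes
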