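import Pool.Agent.Helper794.Modes.Core

open Finset Filter Topology

namespace Pool.Agent.Helper794.Modes

/-- Stability of strict maxima: if the hypotheses of `core` hold at `p0` they hold near `p0`. -/
theorem stab {V : Type*} [NormedAddCommGroup V] [NormedSpace ℝ V] [ProperSpace V]
    {ι : Type*} [Fintype ι] {P : Type*} [TopologicalSpace P]
    (q : P → ι → V → ℝ) (D : P → ι → V → V → ℝ) (Cc : P → ι → V → ℝ)
    (hq : ∀ p i x v (s : ℝ), q p i (x + s • v) = q p i x + s * D p i x v + s ^ 2 / 2 * Cc p i v)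
    (hD : ∀ p i x v (s : ℝ), D p i (x + s • v) v = D p i x v + s * Cc p i v)
    (hqc : ∀ i, Continuous (fun z : P × V => q z.1 i z.2))
    (hDc : ∀ i, Continuous (fun z : P × (V × V) => D z.1 i z.2.1 z.2.2))
    (hCc : ∀ i, Continuous (fun z : P × V => Cc z.1 i z.2))
    (hDs : ∀ p i x v (s : ℝ), D p i x (s • v) = s * D p i x v)
    (hCs : ∀ p i v (s : ℝ), Cc p i (s • v) = s ^ 2 * Cc p i v)
    (p0 : P) (B U : Set V) (hBc : IsCompact B) (hBconv : Convex ℝ B) (hne : B.Nonempty)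
    (hU : IsOpen U)
    (KI0 : ∀ z ∈ B, ∀ v : V, v ≠ 0 →
      ∑ i, Real.exp (-(q p0 i z)) * ((D p0 i z v) ^ 2 - Cc p0 i v) < 0)
    (reset0 : ∀ x ∈ B, x ∉ U → ∃ x' ∈ B,
      ∑ i, Real.exp (-(q p0 i x)) < ∑ i, Real.exp (-(q p0 i x'))) :
    ∀ᶠ p in 𝓝 p0, ∃ x ∈ B, x ∈ U ∧ ∀ y ∈ B, y ≠ x →
      ∑ i, Real.exp (-(q p i y)) < ∑ i, Real.exp (-(q p i x)) := by
  -- negativity of the second derivative
  have hKcont : Continuous (fun z : P × (V × V) =>
      ∑ i, Real.exp (-(q z.1 i z.2.1)) * ((D z.1 i z.2.1 z.2.2) ^ 2 - Cc z.1 i z.2.2)) := by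
    refine continuous_finsetSum _ (fun i _ => ?_)
    refine Continuous.mul ?_ ?_
    · refine Real.continuous_exp.comp (Continuous.neg ?_)
      exact (hqc i).comp (continuous_fst.prodMk (continuous_fst.comp continuous_snd))
    · refine Continuous.sub ((hDc i).pow 2) ?_
      exact (hCc i).comp (continuous_fst.prodMk (continuous_snd.comp continuous_snd))
  have hS : IsCompact (Metric.sphere (0:V) 1) := isCompact_sphere 0 1
  have ev1 : ∀ᶠ p in 𝓝 p0, ∀ zv ∈ B ×ˢ (Metric.sphere (0:V) 1),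
      ∑ i, Real.exp (-(q p i zv.1)) * ((D p i zv.1 zv.2) ^ 2 - Cc p i zv.2) < 0 := by
    refine (hBc.prod hS).eventually_forall_of_forall_eventually ?_
    rintro ⟨z, v⟩ ⟨hz, hv⟩
    have hv0 : v ≠ 0 := by
      intro h
      rw [h] at hv
      simp at hv
    have h1 := KI0 z hz v hv0
    exact hKcont.continuousAt.eventually_lt continuousAt_const h1
  have hFcont : Continuous (fun z : P × V => ∑ i, Real.exp (-(q z.1 i z.2))) := by
    refine continuous_finsetSum _ (fun i _ => ?_)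
    exact Real.continuous_exp.comp (hqc i).neg
  have hBU : IsCompact (B \ U) := hBc.diff hU
  have ev2 : ∀ᶠ p in 𝓝 p0, ∀ x ∈ B \ U, ∃ x' ∈ B,
      ∑ i, Real.exp (-(q p i x)) < ∑ i, Real.exp (-(q p i x')) := by
    refine hBU.eventually_forall_of_forall_eventually ?_
    rintro x ⟨hx, hxU⟩
    obtain ⟨x', hx', hlt⟩ := reset0 x hx hxU
    have hc1 : Continuous (fun z : P × V => ∑ i, Real.exp (-(q z.1 i x'))) :=
      hFcont.comp (continuous_fst.prodMk continuous_const)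
    have := hFcont.continuousAt.eventually_lt (hc1.continuousAt (x := (p0, x))) hlt
    filter_upwards [this] with z hz
    exact ⟨x', hx', hz⟩
  filter_upwards [ev1, ev2] with p h1 h2
  refine core (q p) (D p) (Cc p) (hq p) (hD p) ?_ B U hBc hBconv hne ?_ ?_
  · intro i
    exact (hqc i).comp (continuous_const.prodMk continuous_id)
  · intro z hz v hv
    have hvn : 0 < ‖v‖ := norm_pos_iff.mpr hv
    have hsph : (‖v‖⁻¹ • v) ∈ Metric.sphere (0:V) 1 := by
      rw [mem_sphere_zero_iff_norm, norm_smul, norm_inv, norm_norm, inv_mul_cancel₀ hvn.ne']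
    have h3 := h1 (z, ‖v‖⁻¹ • v) ⟨hz, hsph⟩
    simp only [hDs, hCs] at h3
    have h4 : ∑ i, Real.exp (-(q p i z)) * ((‖v‖⁻¹ * D p i z v) ^ 2 - ‖v‖⁻¹ ^ 2 * Cc p i v)
        = ‖v‖⁻¹ ^ 2 * ∑ i, Real.exp (-(q p i z)) * ((D p i z v) ^ 2 - Cc p i v) := by
      rw [Finset.mul_sum]
      exact Finset.sum_congr rfl (fun i _ => by ring)
    rw [h4] at h3
    by_contra hcon
    push Not at hcon
    exact absurd h3 (not_lt.mpr (mul_nonneg (sq_nonneg _) hcon))
  · intro x hx hxU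
    exact h2 x ⟨hx, hxU⟩

end Pool.Agent.Helper794.Modes
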