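import Pool.Agent.Helper794.Modes.Lam

open Finset Filter Topology Matrix

namespace Pool.Agent.Helper794.Modes

variable {k m : ℕ}

/-- perturbation of the constants -/
noncomputable def cp (n : JJ k m) : ℝ := if n = alf ∨ n = bet ∨ n = gam then 99/100 else 0

section
variable (A : JJ k m → (Fin (m+2) → ℝ)) (E : Fin (m+2) → (Fin (m+2) → ℝ)) (K L : ℝ)

/-- the base parameter -/
noncomputable def p0 : (JJ k m → (Fin (m+2) → ℝ)) × (JJ k m → ℝ) :=
  (fun n l => if n ∈ Spc k m then (if n = alf then (if l = mu ∨ l = nu then -1 else 0)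
      else A n ⬝ᵥ E l) else 0,
   fun n => if n ∈ Spc k m then cp n else Real.sqrt (lamf K L 1 n))

/-- the parameter at `δ` -/
noncomputable def pd (δ : ℝ) : (JJ k m → (Fin (m+2) → ℝ)) × (JJ k m → ℝ) :=
  (fun n l => Real.sqrt (lamf K L δ n) * (Real.sqrt (lamf K L δ (idx l : JJ k m)))⁻¹ * (A n ⬝ᵥ E l),
   fun n => Real.sqrt (lamf K L δ n) * ((cz (Spc k m) + δ • cp : JJ k m → ℝ) n))

lemma lamf_idx_pos (δ : ℝ) (hK : 1 ≤ K) (hδ : 0 < δ) (hδ1 : δ ≤ 1) (l : Fin (m+2)) :
    0 < lamf K L δ (idx l : JJ k m) := by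
  have h1 : 1 ≤ 1/δ^2 := by
    rw [le_div_iff₀ (by positivity)]; nlinarith
  refine fin_cases' (P := fun l => 0 < lamf K L δ (idx l : JJ k m)) ?_ ?_ ?_ l
  · intro j
    rw [lamf_tj]
    exact lt_of_lt_of_le (by linarith) (tow_step K (1/δ^2) hK h1 _).1
  · rw [lamf_mu]; linarith
  · rw [lamf_nu]; linarith

lemma tend_of_bound (f : ℝ → ℝ) (a c : ℝ) (h : ∀ δ, 0 < δ → δ ≤ 1 → |f δ - a| ≤ c * δ) :
    Tendsto f (𝓝[>] 0) (𝓝 a) := by
  have h1 : Tendsto (fun δ : ℝ => c * δ) (𝓝[>] 0) (𝓝 0) := by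
    have : Tendsto (fun δ : ℝ => c * δ) (𝓝 0) (𝓝 (c * 0)) :=
      (continuous_const.mul continuous_id).tendsto 0
    rw [mul_zero] at this
    exact this.mono_left nhdsWithin_le_nhds
  rw [tendsto_iff_norm_sub_tendsto_zero]
  refine squeeze_zero' (Eventually.of_forall (fun _ => norm_nonneg _)) ?_ h1
  have h2 : Set.Ioc (0:ℝ) 1 ∈ 𝓝[>] (0:ℝ) := Ioc_mem_nhdsGT one_pos
  filter_upwards [h2] with δ hδ
  exact h δ hδ.1 hδ.2

variable (hE : ∀ l l', A (idx l) ⬝ᵥ E l' = if l = l' then 1 else 0)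
  (hEα : ∀ l, A alf ⬝ᵥ E l = -1) (hK : 1 ≤ K) (hL : 1 ≤ L)

include hE hEα hK in
lemma pd_tendsto :
    Tendsto (pd (k := k) (m := m) A E K L) (𝓝[>] 0) (𝓝 (p0 A E K L)) := by
  have hC : ∀ n : JJ k m, ∀ δ : ℝ, (cz (Spc k m) + δ • cp : JJ k m → ℝ) n = cz (Spc k m) n + δ * cp n :=
    fun n δ => rfl
  refine Tendsto.prodMk_nhds ?_ ?_
  · refine tendsto_pi_nhds.2 (fun n => tendsto_pi_nhds.2 (fun l => ?_))
    by_cases hn : n ∈ Spc k m
    · have hn2 := hn
      unfold Spc at hn2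
      rcases Finset.mem_insert.mp hn2 with h | h
      · -- alf
        subst h
        simp only [if_pos hn, if_true]
        refine tend_of_bound _ _ 2 (fun δ hδ hδ1 => ?_)
        rw [lamf_alf, sqrt_inv δ hδ, hEα]
        refine fin_cases' (P := fun l => |1/δ * (Real.sqrt (lamf K L δ (idx l : JJ k m)))⁻¹ * (-1)
          - (if l = mu ∨ l = nu then (-1:ℝ) else 0)| ≤ 2 * δ) ?_ ?_ ?_ l
        · intro j
          rw [if_neg (by rintro (h | h); exacts [tj_ne_mu j h, tj_ne_nu j h]), sub_zero, abs_mul,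
            abs_neg, abs_one, mul_one, abs_mul, abs_of_pos (by positivity : 0 < 1/δ),
            abs_of_nonneg (s_nonneg K L δ (tj j))]
          have := s_tj (k := k) K L δ hK hδ hδ1 j
          calc 1/δ * (Real.sqrt (lamf K L δ (idx (tj j) : JJ k m)))⁻¹ ≤ 1/δ * (2 * δ^2) :=
                mul_le_mul_of_nonneg_left this (by positivity)
            _ = 2 * δ := by field_simp
        · rw [if_pos (Or.inl rfl), s_mu K L δ hδ]
          have : 1/δ * δ * (-1) - (-1) = 0 := by field_simp; ring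
          rw [this, abs_zero]; positivity
        · rw [if_pos (Or.inr rfl), s_nu K L δ hδ]
          have : 1/δ * δ * (-1) - (-1) = 0 := by field_simp; ring
          rw [this, abs_zero]; positivity
      · obtain ⟨l0, _, rfl⟩ := Finset.mem_image.mp h
        simp only [if_pos hn, if_neg (alf_ne_idx l0).symm]
        refine tend_of_bound _ _ 0 (fun δ hδ hδ1 => ?_)
        rw [zero_mul, hE]
        by_cases hl : l0 = l
        · subst hl
          rw [if_pos rfl]
          have hpos := lamf_idx_pos (k := k) K L δ hK hδ hδ1 l0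
          rw [mul_inv_cancel₀ (Real.sqrt_pos.mpr hpos).ne']
          norm_num
        · rw [if_neg hl, mul_zero, sub_zero, abs_zero]
    · simp only [if_neg hn]
      refine tend_of_bound _ _ (Real.sqrt (lamf K L 1 n) * 2 * |A n ⬝ᵥ E l|) (fun δ hδ hδ1 => ?_)
      rw [lamf_out K L δ 1 n hn, sub_zero, abs_mul, abs_mul, abs_of_nonneg (Real.sqrt_nonneg _),
        abs_of_nonneg (s_nonneg K L δ l)]
      have := s_le (k := k) K L δ hK hδ hδ1 l
      calc Real.sqrt (lamf K L 1 n) * (Real.sqrt (lamf K L δ (idx l : JJ k m)))⁻¹ * |A n ⬝ᵥ E l|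
          ≤ Real.sqrt (lamf K L 1 n) * (2 * δ) * |A n ⬝ᵥ E l| :=
            mul_le_mul_of_nonneg_right (mul_le_mul_of_nonneg_left this (Real.sqrt_nonneg _))
              (abs_nonneg _)
        _ = _ := by ring
  · refine tendsto_pi_nhds.2 (fun n => ?_)
    by_cases hn : n ∈ Spc k m
    · simp only [if_pos hn]
      refine tend_of_bound _ _ 0 (fun δ hδ hδ1 => ?_)
      rw [zero_mul, hC]
      unfold cz
      rw [if_pos hn, zero_add]
      by_cases h : n = alf ∨ n = bet ∨ n = gam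
      · have h1 : lamf K L δ n = 1/δ^2 := by
          rcases h with rfl | rfl | rfl
          · exact lamf_alf K L δ
          · rw [← idx_mu]; exact lamf_mu K L δ
          · rw [← idx_nu]; exact lamf_nu K L δ
        rw [h1, sqrt_inv δ hδ]
        have : 1/δ * (δ * cp n) - cp n = 0 := by field_simp; ring
        rw [this, abs_zero]
      · unfold cp
        rw [if_neg h]; norm_num
    · simp only [if_neg hn]
      refine tend_of_bound _ _ 0 (fun δ hδ hδ1 => ?_)
      rw [zero_mul, hC, lamf_out K L δ 1 n hn]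
      unfold cz cp
      rw [if_neg hn, if_neg]
      · norm_num
      · rintro (rfl | rfl | rfl)
        · exact hn alf_mem
        · exact hn (by rw [← idx_mu]; exact idx_mem mu)
        · exact hn (by rw [← idx_nu]; exact idx_mem nu)

include hE in
lemma p0_idx (l0 : Fin (m+2)) (v : Fin (m+2) → ℝ) : (p0 A E K L).1 (idx l0) ⬝ᵥ v = v l0 := by
  have h : ∀ l, (p0 A E K L).1 (idx l0) l = if l0 = l then 1 else 0 := by
    intro l
    show (if (idx l0 : JJ k m) ∈ Spc k m then (if (idx l0 : JJ k m) = alf then _ else A (idx l0) ⬝ᵥ E l) else 0) = _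
    rw [if_pos (idx_mem l0), if_neg (alf_ne_idx l0).symm, hE]
  unfold dotProduct
  rw [Finset.sum_congr rfl (fun l _ => by rw [h l])]
  simp

lemma p0_out (n : JJ k m) (hn : n ∉ Spc k m) (v : Fin (m+2) → ℝ) :
    (p0 A E K L).1 n ⬝ᵥ v = 0 := by
  have h : (p0 A E K L).1 n = 0 := by
    funext l
    show (if n ∈ Spc k m then _ else (0:ℝ)) = 0
    rw [if_neg hn]
  rw [h, zero_dotProduct]

lemma p0_alf (v : Fin (m+2) → ℝ) : (p0 A E K L).1 alf ⬝ᵥ v = -(v mu + v nu) := by
  have h : ∀ l, (p0 A E K L).1 alf l = if l = mu ∨ l = nu then -1 else 0 := by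
    intro l
    show (if (alf : JJ k m) ∈ Spc k m then (if (alf : JJ k m) = alf then
      (if l = mu ∨ l = nu then (-1:ℝ) else 0) else _) else 0) = _
    rw [if_pos alf_mem, if_pos rfl]
  unfold dotProduct
  rw [sum_split]
  simp only [h, true_or, or_true, if_true]
  have h2 : ∑ j : Fin m, (if tj j = mu ∨ tj j = nu then (-1:ℝ) else 0) * v (tj j) = 0 := by
    refine Finset.sum_eq_zero (fun j _ => ?_)
    rw [if_neg (by rintro (h | h); exacts [tj_ne_mu j h, tj_ne_nu j h]), zero_mul]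
  rw [h2]; ring

lemma p0_c_in (n : JJ k m) (hn : n ∈ Spc k m) : (p0 A E K L).2 n = cp n := by
  show (if n ∈ Spc k m then cp n else _) = _
  rw [if_pos hn]

include hL hK in
lemma p0_c_out (n : JJ k m) (hn : n ∉ Spc k m) :
    ((p0 A E K L).2 n)^2 = if n.1 = 0 then LamS m K L else tow K L (m + 1 - n.2.val) := by
  have h1 : (p0 A E K L).2 n = Real.sqrt (lamf K L 1 n) := by
    show (if n ∈ Spc k m then _ else Real.sqrt (lamf K L 1 n)) = _
    rw [if_neg hn]
  have h2 : lamf K L 1 n = if n.1 = 0 then LamS m K L else tow K L (m + 1 - n.2.val) := by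
    unfold lamf
    rw [if_neg hn]
  have h3 : 0 ≤ lamf K L 1 n := by
    rw [h2]
    split_ifs
    · exact (zero_le_one.trans hL).trans (L_le_LamS m K L hK hL)
    · exact (zero_le_one.trans hL).trans (tow_step K L hK hL _).1
  rw [h1, Real.sq_sqrt h3, h2]

include hE hK hL in
lemma p0_base : IsBase (p0 A E K L) (LamS m K L) := by
  have n0 : ((0, nu) : JJ k m) ∉ Spc k m := by
    rw [mem_Spc]
    rintro (⟨_, h⟩ | ⟨h, _⟩ | ⟨h, _⟩)
    · exact h rfl
    · exact s0 h.symm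
    · exact s1 h.symm
  have n1 : ∀ j : Fin (m+1), ((Fin.succ 0, j.succ) : JJ k m) ∉ Spc k m := by
    intro j
    rw [mem_Spc]
    rintro (⟨h, _⟩ | ⟨_, h⟩ | ⟨_, h⟩)
    · exact s0 h
    · exact Fin.succ_ne_zero _ h
    · exact Fin.succ_ne_zero _ h
  have n2 : ∀ j : Fin (m+1), ((Fin.succ (Fin.succ 0), j.succ) : JJ k m) ∉ Spc k m := by
    intro j
    rw [mem_Spc]
    rintro (⟨h, _⟩ | ⟨_, h⟩ | ⟨_, h⟩)
    · exact s1 h
    · exact Fin.succ_ne_zero _ h
    · exact Fin.succ_ne_zero _ h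
  refine ⟨?_, ?_, ?_, ?_, ?_, ?_, ?_, ?_, ?_, ?_, ?_, ?_, ?_, ?_, ?_⟩
  · intro j v
    rw [← idx_tj]; exact p0_idx A E K L hE _ v
  · intro j
    rw [← idx_tj, p0_c_in _ _ _ _ _ (idx_mem _)]
    unfold cp
    rw [if_neg]
    rintro (h | h | h)
    · exact alf_ne_idx _ h.symm
    · rw [← idx_mu] at h; exact tj_ne_mu j (idx_inj h)
    · rw [← idx_nu] at h; exact tj_ne_nu j (idx_inj h)
  · intro v; exact p0_alf A E K L v
  · show (p0 A E K L).2 alf = _
    rw [p0_c_in _ _ _ _ _ alf_mem]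
    unfold cp; rw [if_pos (Or.inl rfl)]
  · intro v; exact p0_out A E K L _ n0 v
  · rw [p0_c_out A E K L hK hL _ n0, if_pos rfl]
  · intro v
    show (p0 A E K L).1 bet ⬝ᵥ v = _
    rw [← idx_mu]; exact p0_idx A E K L hE _ v
  · show (p0 A E K L).2 bet = _
    rw [p0_c_in _ _ _ _ _ (by rw [← idx_mu]; exact idx_mem mu)]
    unfold cp; rw [if_pos (Or.inr (Or.inl rfl))]
  · intro j v; exact p0_out A E K L _ (n1 j) v
  · unfold LamS
    refine Finset.sum_congr rfl (fun j _ => ?_)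
    rw [p0_c_out A E K L hK hL _ (n1 j), if_neg s0]
    show tow K L (m + 1 - (j.val + 1)) = _
    congr 1; omega
  · intro v
    show (p0 A E K L).1 gam ⬝ᵥ v = _
    rw [← idx_nu]; exact p0_idx A E K L hE _ v
  · show (p0 A E K L).2 gam = _
    rw [p0_c_in _ _ _ _ _ (by rw [← idx_nu]; exact idx_mem nu)]
    unfold cp; rw [if_pos (Or.inr (Or.inr rfl))]
  · intro j v; exact p0_out A E K L _ (n2 j) v
  · unfold LamS
    refine Finset.sum_congr rfl (fun j _ => ?_)
    rw [p0_c_out A E K L hK hL _ (n2 j), if_neg s1]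
    show tow K L (m + 1 - (j.val + 1)) = _
    congr 1; omega
  · intro i j v
    apply p0_out
    rw [mem_Spc]
    rintro (⟨h, _⟩ | ⟨h, _⟩ | ⟨h, _⟩)
    · exact Fin.succ_ne_zero _ h
    · exact Fin.succ_ne_zero _ (Fin.succ_injective _ h)
    · exact Fin.succ_ne_zero _ (Fin.succ_injective _ (Fin.succ_injective _ h))

/-- the rescaling map -/
noncomputable def Th (δ : ℝ) (w : Fin (m+2) → ℝ) : Fin (m+2) → ℝ :=
  ∑ l, ((Real.sqrt (lamf K L δ (idx l : JJ k m)))⁻¹ * w l) • E l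

lemma aff_pd (δ : ℝ) (w : Fin (m+2) → ℝ) (n : JJ k m) :
    aff (pd A E K L δ).1 (pd A E K L δ).2 n w
      = Real.sqrt (lamf K L δ n) *
        aff A (cz (Spc k m) + δ • cp) n (Th (k := k) E K L δ w) := by
  unfold aff Th
  rw [dotProduct_sum, mul_add]
  congr 1
  unfold dotProduct
  rw [Finset.mul_sum]
  refine Finset.sum_congr rfl (fun l _ => ?_)
  show Real.sqrt (lamf K L δ n) * (Real.sqrt (lamf K L δ (idx l : JJ k m)))⁻¹ * (A n ⬝ᵥ E l) * w l = _
  have : ∑ i, A n i * (((Real.sqrt (lamf K L δ (idx l : JJ k m)))⁻¹ * w l) • E l) i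
      = (Real.sqrt (lamf K L δ (idx l : JJ k m)))⁻¹ * w l * (A n ⬝ᵥ E l) := by
    unfold dotProduct
    rw [Finset.mul_sum]
    refine Finset.sum_congr rfl (fun i _ => ?_)
    rw [Pi.smul_apply, smul_eq_mul]; ring
  rw [this]; ring

lemma Fs_pd (δ : ℝ) (hlam : ∀ n : JJ k m, 0 ≤ lamf K L δ n) (w : Fin (m+2) → ℝ) :
    Fs (pd A E K L δ) w
      = ∑ i, Real.exp (-(qf Prod.fst (lamf K L δ) (aff A (cz (Spc k m) + δ • cp)) i
        (Th (k := k) E K L δ w))) := by
  unfold Fs qf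
  refine Finset.sum_congr rfl (fun i _ => ?_)
  congr 2
  refine Finset.sum_congr rfl (fun n _ => ?_)
  rw [aff_pd, mul_pow, Real.sq_sqrt (hlam n), Pi.one_apply, one_mul]

end

end Pool.Agent.Helper794.Modes
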